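import Mathlib

/-!
# `(N+2)^j = N^y + 2` with `N ≥ 3` odd and `y ≥ 2` is impossible

Elementary proof: the equation gives a solution of the Pell equation
`u^2 - ((N+1)^2-1) v^2 = 1` with `v = (N+2)^c N^b`, and for a prime `p ∣ N` the number `yn p`
divides `v`, which forces `yn p` to be a power of `p`; this is false.
-/

set_option autoImplicit false

namespace Pool.Agent.Lib.MP_545343_nt.Q2

open Pell

/-- `3 yn n = 3 n + t n (n^2-1)` modulo `t^2`, `t = a - 1`. -/
lemma yn_mod_sq {a : ℕ} (a1 : 1 < a) : ∀ n : ℕ, ∃ q : ℤ,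
    3 * (yn a1 n : ℤ) = 3 * n + ((a : ℤ) - 1) * n * ((n : ℤ) ^ 2 - 1) + ((a : ℤ) - 1) ^ 2 * q := by
  intro n
  induction n using Nat.twoStepInduction with
  | zero => exact ⟨0, by simp⟩
  | one => exact ⟨0, by simp⟩
  | more n ih1 ih2 =>
    obtain ⟨q0, h0⟩ := ih1
    obtain ⟨q1, h1⟩ := ih2
    have hrec : ((yn a1 (n + 2) : ℕ) : ℤ) + yn a1 n = 2 * a * yn a1 (n + 1) := by
      exact_mod_cast yn_succ_succ a1 n
    refine ⟨2 * (n + 1) * (((n : ℤ) + 1) ^ 2 - 1) + 2 * a * q1 - q0, ?_⟩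
    push_cast at h1 ⊢
    linear_combination 3 * hrec + 2 * (a : ℤ) * h1 - h0

/-- `yn n = (-1)^(n+1) n` modulo `a + 1`. -/
lemma yn_mod_add_one {a : ℕ} (a1 : 1 < a) : ∀ n : ℕ, ∃ q : ℤ,
    (yn a1 n : ℤ) = (-1) ^ (n + 1) * n + ((a : ℤ) + 1) * q := by
  intro n
  induction n using Nat.twoStepInduction with
  | zero => exact ⟨0, by simp⟩
  | one => exact ⟨0, by simp⟩
  | more n ih1 ih2 =>
    obtain ⟨q0, h0⟩ := ih1
    obtain ⟨q1, h1⟩ := ih2
    have hrec : ((yn a1 (n + 2) : ℕ) : ℤ) + yn a1 n = 2 * a * yn a1 (n + 1) := by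
      exact_mod_cast yn_succ_succ a1 n
    refine ⟨2 * ((-1) ^ (n + 2) * (n + 1)) + 2 * a * q1 - q0, ?_⟩
    push_cast at h1 ⊢
    linear_combination hrec + 2 * (a : ℤ) * h1 - h0

lemma lt_yn {a : ℕ} (a1 : 1 < a) {n : ℕ} (hn : 2 ≤ n) : n < yn a1 n := by
  induction n, hn using Nat.le_induction with
  | base =>
    have := yn_succ_succ a1 0
    simp only [zero_add, yn_zero, yn_one, add_zero, mul_one] at this
    omega
  | succ n _ ih =>
    have := strictMono_y a1 (Nat.lt_succ_self n)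
    simp only [Nat.succ_eq_add_one] at this
    omega

/-- The Pell solution with `v = (N+2)^c N^(b+1)` does not exist. -/
lemma a0_pell {N c b m : ℕ} (hN : 3 ≤ N) (hodd : Odd N) (a1 : 1 < N + 1)
    (hm : (N + 2) ^ c * N ^ (b + 1) = yn a1 m) : False := by
  set p := N.minFac with hp
  have hpp : p.Prime := Nat.minFac_prime (by omega)
  have hpN : p ∣ N := Nat.minFac_dvd N
  have hp2 : p ≠ 2 := by
    intro h
    rw [h] at hpN
    obtain ⟨r, hr⟩ := hodd
    omega
  have hp3 : 3 ≤ p := by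
    have := hpp.two_le
    omega
  have hpodd : Odd p := hpp.odd_of_ne_two hp2
  -- N ∣ m
  have hNm : N ∣ m := by
    have h1 := yn_modEq_a_sub_one a1 m
    rw [Nat.add_sub_cancel, ← hm] at h1
    have h2 : N ∣ (N + 2) ^ c * N ^ (b + 1) := Dvd.dvd.mul_left (dvd_pow_self N (by omega)) _
    have h3 := (Nat.modEq_zero_iff_dvd.2 h2).symm.trans h1
    exact Nat.modEq_zero_iff_dvd.1 h3.symm
  have hdvd : yn a1 p ∣ (N + 2) ^ c * N ^ (b + 1) := by
    rw [hm]
    exact (y_dvd_iff a1 p m).2 (hpN.trans hNm)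
  have hpos : yn a1 p ≠ 0 := by
    have := lt_yn a1 (n := p) (by omega)
    omega
  -- primes of yn p
  have hprimes : ∀ q : ℕ, q.Prime → q ∣ yn a1 p → q = p := by
    intro q hq hqy
    have hq' : q ∣ (N + 2) ^ c * N ^ (b + 1) := hqy.trans hdvd
    rcases (Nat.Prime.dvd_mul hq).1 hq' with h | h
    · have h := hq.dvd_of_dvd_pow h
      obtain ⟨r, hr⟩ := yn_mod_add_one a1 p
      have he : (-1 : ℤ) ^ (p + 1) = 1 := Even.neg_one_pow (hpodd.add_one)
      rw [he, one_mul] at hr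
      have h1 : (q : ℤ) ∣ (yn a1 p : ℤ) := by exact_mod_cast hqy
      have h2 : (q : ℤ) ∣ (((N + 1 : ℕ) : ℤ) + 1) := by
        have : (q : ℤ) ∣ ((N + 2 : ℕ) : ℤ) := by exact_mod_cast h
        push_cast at this ⊢
        convert this using 1
        ring
      have h3 : (q : ℤ) ∣ (p : ℤ) := by
        have h4 := dvd_sub h1 (h2.mul_right r)
        rw [hr] at h4
        rwa [add_sub_cancel_right] at h4
      have h5 : q ∣ p := by exact_mod_cast h3
      exact (Nat.prime_dvd_prime_iff_eq hq hpp).1 h5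
    · have h := hq.dvd_of_dvd_pow h
      have h1 := yn_modEq_a_sub_one a1 p
      rw [Nat.add_sub_cancel] at h1
      have h2 := h1.of_dvd h
      have h3 := (Nat.modEq_zero_iff_dvd.2 hqy).symm.trans h2
      have h5 : q ∣ p := Nat.modEq_zero_iff_dvd.1 h3.symm
      exact (Nat.prime_dvd_prime_iff_eq hq hpp).1 h5
  have hpow : yn a1 p = p ^ (yn a1 p).primeFactorsList.length :=
    Nat.eq_prime_pow_of_unique_prime_dvd hpos (fun {d} hd h => hprimes d hd h)
  set w := (yn a1 p).primeFactorsList.length with hw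
  rcases Nat.lt_or_ge p 5 with h5 | h5
  · -- p = 3
    have hp3' : p = 3 := by
      have : p ≠ 4 := by
        intro h
        rw [h] at hpp
        exact absurd hpp (by norm_num)
      omega
    have e2 : yn a1 2 = 2 * (N + 1) := by
      have := yn_succ_succ a1 0
      simp only [zero_add, yn_zero, yn_one, add_zero, mul_one] at this
      exact this
    have e3 : yn a1 3 = (2 * N + 1) * (2 * N + 3) := by
      have h3 : yn a1 3 + yn a1 1 = 2 * (N + 1) * yn a1 2 := yn_succ_succ a1 1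
      rw [e2, yn_one] at h3
      have : 2 * (N + 1) * (2 * (N + 1)) = (2 * N + 1) * (2 * N + 3) + 1 := by ring
      omega
    rw [hp3'] at hpow hpN
    have h6 : (2 * N + 1) ∣ 3 ^ w := by
      rw [← hpow, e3]
      exact dvd_mul_right _ _
    obtain ⟨v, _, hv⟩ := (Nat.dvd_prime_pow Nat.prime_three).1 h6
    rcases Nat.eq_zero_or_pos v with h7 | h7
    · rw [h7, pow_zero] at hv
      omega
    · have h8 : 3 ∣ 2 * N + 1 := by
        rw [hv]
        exact dvd_pow_self 3 (by omega)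
      omega
  · -- p ≥ 5
    obtain ⟨q, hq⟩ := yn_mod_sq a1 p
    have hsq : p ^ 2 ∣ yn a1 p → False := by
      intro h
      obtain ⟨r, hr⟩ := hpN
      obtain ⟨z, hz⟩ := h
      have hz' : (yn a1 p : ℤ) = (p : ℤ) ^ 2 * z := by exact_mod_cast hz
      have hr' : (N : ℤ) = p * r := by exact_mod_cast hr
      push_cast at hq
      rw [hz', hr'] at hq
      have h1 : (p : ℤ) * (3 * (p * z)) = p * (3 + p * (r * ((p : ℤ) ^ 2 - 1)) +
          p * (r ^ 2 * q)) := by
        linear_combination hq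
      have h2 := mul_left_cancel₀ (by exact_mod_cast hpp.ne_zero) h1
      have h3 : (p : ℤ) ∣ 3 := ⟨3 * z - r * ((p : ℤ) ^ 2 - 1) - r ^ 2 * q, by
        linear_combination -h2⟩
      have h4 : p ∣ 3 := by exact_mod_cast h3
      have := Nat.le_of_dvd (by norm_num) h4
      omega
    have hw2 : w < 2 := by
      by_contra hcon
      apply hsq
      rw [hpow]
      exact pow_dvd_pow p (by omega)
    have hlt := lt_yn a1 (n := p) (by omega)
    rw [hpow] at hlt
    interval_cases w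
    · simp at hlt; omega
    · simp at hlt

/-- `(N+2)^j = N^y + 2` has no solution with `N ≥ 3` odd and `y ≥ 2`. -/
theorem a0 {N j y : ℕ} (hN : 3 ≤ N) (hodd : Odd N) (hy : 2 ≤ y)
    (h : (N + 2) ^ j = N ^ y + 2) : False := by
  obtain ⟨n, hn⟩ := hodd
  -- squares modulo 2 (N+1)
  have s1 : N ^ 2 ≡ 1 [MOD (2 * (N + 1))] := by
    apply Nat.ModEq.symm
    rw [Nat.modEq_iff_dvd]
    refine ⟨n, ?_⟩
    rw [hn]; push_cast; ring
  have s2 : (N + 2) ^ 2 ≡ 1 [MOD (2 * (N + 1))] := by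
    apply Nat.ModEq.symm
    rw [Nat.modEq_iff_dvd]
    refine ⟨n + 2, ?_⟩
    rw [hn]; push_cast; ring
  have hyo : Odd y := by
    rcases Nat.even_or_odd y with he | ho
    · exfalso
      obtain ⟨r, hr⟩ := he
      have t1 : N ^ y ≡ 1 [MOD (N + 1)] := by
        have := (s1.of_dvd (dvd_mul_left (N + 1) 2)).pow r
        rwa [one_pow, ← pow_mul, show 2 * r = y by omega] at this
      have t2 : (N + 2) ^ j ≡ 1 [MOD (N + 1)] := by
        have : N + 2 ≡ 1 [MOD (N + 1)] := by
          have := (Nat.modEq_zero_iff_dvd.2 (dvd_refl (N + 1))).add_right 1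
          exact this
        have := this.pow j
        rwa [one_pow] at this
      have t3 : 1 ≡ 1 + 2 [MOD (N + 1)] := by
        rw [h] at t2
        exact t2.symm.trans (t1.add_right 2)
      have := (Nat.modEq_iff_dvd' (by norm_num)).1 t3
      have := Nat.le_of_dvd (by norm_num) this
      omega
    · exact ho
  have t4 : N ^ y ≡ N [MOD (2 * (N + 1))] := by
    obtain ⟨r, hr⟩ := hyo
    rw [hr, pow_succ, pow_mul]
    have := (s1.pow r).mul_right N
    rwa [one_pow, one_mul] at this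
  have hjo : Odd j := by
    rcases Nat.even_or_odd j with he | ho
    · exfalso
      obtain ⟨r, hr⟩ := he
      have t5 : (N + 2) ^ j ≡ 1 [MOD (2 * (N + 1))] := by
        have := s2.pow r
        rwa [one_pow, ← pow_mul, show 2 * r = j by omega] at this
      have t6 : 1 ≡ N + 2 [MOD (2 * (N + 1))] := by
        rw [h] at t5
        exact t5.symm.trans (t4.add_right 2)
      have := (Nat.modEq_iff_dvd' (by omega)).1 t6
      have := Nat.le_of_dvd (by omega) this
      omega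
    · exact ho
  obtain ⟨c, hc⟩ := hjo
  obtain ⟨b', hb'⟩ := hyo
  obtain ⟨b, rfl⟩ : ∃ b, b' = b + 1 := ⟨b' - 1, by omega⟩
  have a1 : 1 < N + 1 := by omega
  have key : (N + 2) * ((N + 2) ^ c) ^ 2 = N * (N ^ (b + 1)) ^ 2 + 2 := by
    have e1 : (N + 2) * ((N + 2) ^ c) ^ 2 = (N + 2) ^ j := by
      rw [hc]; ring
    have e2 : N * (N ^ (b + 1)) ^ 2 = N ^ y := by
      rw [hb']; ring
    rw [e1, e2, h]
  set X := (N + 2) ^ c with hX
  set Y := N ^ (b + 1) with hY
  have hpell : (N * Y ^ 2 + 1) * (N * Y ^ 2 + 1) -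
      ((N + 1) * (N + 1) - 1) * (X * Y) * (X * Y) = 1 := by
    have hd : (N + 1) * (N + 1) - 1 = N * (N + 2) := by
      have : (N + 1) * (N + 1) = N * (N + 2) + 1 := by ring
      omega
    rw [hd]
    have : (N * Y ^ 2 + 1) * (N * Y ^ 2 + 1) = N * (N + 2) * (X * Y) * (X * Y) + 1 := by
      have h1 : N * (N + 2) * (X * Y) * (X * Y) = N * Y ^ 2 * ((N + 2) * X ^ 2) := by ring
      rw [h1, key]
      ring
    omega
  obtain ⟨m, _, hm⟩ := eq_pell a1 hpell
  exact a0_pell hN ⟨n, hn⟩ a1 (by rw [← hX, ← hY]; exact hm)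

end Pool.Agent.Lib.MP_545343_nt.Q2
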