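import Mathlib

/-!
# The bound in the consequence of Cassels' theorem

`p^(n-1) ∣ v^n - 1`, `p < n` odd, `p` prime, `v ≥ 2`, `p v ≤ D` gives `3 n^2 ≤ D`.
-/

set_option autoImplicit false

namespace Pool.Agent.Lib.MP_545343_nt.Q2

/-- `3 m^2 ≤ 3^m` for `m ≥ 3`. -/
lemma cas_three_pow_sq {m : ℕ} (hm : 3 ≤ m) : 3 * m ^ 2 ≤ 3 ^ m := by
  induction m, hm using Nat.le_induction with
  | base => norm_num
  | succ m hm ih =>
    have h1 : (m + 1) ^ 2 ≤ 3 * m ^ 2 := by nlinarith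
    have h2 : 3 ^ (m + 1) = 3 ^ m * 3 := pow_succ 3 m
    omega

/-- `3 m^3 ≤ 3^m` for `m ≥ 7`. -/
lemma cas_three_pow_cube {m : ℕ} (hm : 7 ≤ m) : 3 * m ^ 3 ≤ 3 ^ m := by
  induction m, hm using Nat.le_induction with
  | base => norm_num
  | succ m hm ih =>
    have h1 : 7 * m ≤ m ^ 2 := by nlinarith
    have h3 : 7 * m ^ 2 ≤ m ^ 3 := by
      have := Nat.mul_le_mul_right (m ^ 2) hm
      calc 7 * m ^ 2 ≤ m * m ^ 2 := this
        _ = m ^ 3 := by ring
    have h4 : (m + 1) ^ 3 = m ^ 3 + 3 * m ^ 2 + 3 * m + 1 := by ring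
    have h2 : 3 ^ (m + 1) = 3 ^ m * 3 := pow_succ 3 m
    omega

/-- `27 g^2 ≤ (2 g + 1)^3`. -/
lemma cas_cube_ge {g : ℕ} (hg : 1 ≤ g) : 27 * g ^ 2 ≤ (2 * g + 1) ^ 3 := by
  obtain ⟨t, rfl⟩ : ∃ t, g = t + 1 := ⟨g - 1, by omega⟩
  nlinarith [Nat.zero_le (t ^ 2 * (8 * t + 9))]

/-- `g^2 3^m ≤ p^m` for `m ≥ 3`, `2 g + 1 ≤ p`. -/
lemma cas_pow_ge {g p m : ℕ} (hg : 1 ≤ g) (hp : 2 * g + 1 ≤ p) (hm : 3 ≤ m) :
    g ^ 2 * 3 ^ m ≤ p ^ m := by
  obtain ⟨t, rfl⟩ : ∃ t, m = 3 + t := ⟨m - 3, by omega⟩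
  calc g ^ 2 * 3 ^ (3 + t) = (27 * g ^ 2) * 3 ^ t := by rw [pow_add]; ring
    _ ≤ (2 * g + 1) ^ 3 * p ^ t :=
        Nat.mul_le_mul (cas_cube_ge hg) (Nat.pow_le_pow_left (by omega) t)
    _ ≤ p ^ 3 * p ^ t := Nat.mul_le_mul (Nat.pow_le_pow_left hp 3) le_rfl
    _ = p ^ (3 + t) := (pow_add p 3 t).symm

/-- The bound. -/
theorem cas_bound {D p n v : ℕ} (hp : p.Prime) (hpo : Odd p) (hn : Odd n) (hpn : p < n)
    (hv : 2 ≤ v) (hD : p * v ≤ D) (hpv : ¬ p ∣ v) (h : p ^ (n - 1) ∣ v ^ n - 1) :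
    3 * n ^ 2 ≤ D := by
  have hF : Fact p.Prime := ⟨hp⟩
  have hp3 : 3 ≤ p := by
    have := hp.two_le
    rcases hpo with ⟨t, ht⟩
    omega
  by_contra hcon
  push Not at hcon
  obtain ⟨m, hm⟩ : Nat.gcd n (p - 1) ∣ n := Nat.gcd_dvd_left _ _
  have hg2 : Nat.gcd n (p - 1) ∣ p - 1 := Nat.gcd_dvd_right _ _
  -- `v^g = 1` modulo `p`
  have hvn1 : 1 ≤ v ^ n := Nat.one_le_pow _ _ (by omega)
  have hpd : p ∣ v ^ n - 1 := (dvd_pow_self p (by omega : n - 1 ≠ 0)).trans h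
  have h1 : (v : ZMod p) ^ n = 1 := by
    have := (ZMod.natCast_eq_zero_iff (v ^ n - 1) p).2 hpd
    rw [Nat.cast_sub hvn1] at this
    push_cast at this
    exact sub_eq_zero.1 this
  have hv0 : (v : ZMod p) ≠ 0 := fun h0 => hpv ((ZMod.natCast_eq_zero_iff _ _).1 h0)
  have h2 : (v : ZMod p) ^ (p - 1) = 1 := ZMod.pow_card_sub_one_eq_one hv0
  have h3 : (v : ZMod p) ^ (Nat.gcd n (p - 1)) = 1 := by
    apply orderOf_dvd_iff_pow_eq_one.1
    exact Nat.dvd_gcd (orderOf_dvd_of_pow_eq_one h1) (orderOf_dvd_of_pow_eq_one h2)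
  generalize hgg : Nat.gcd n (p - 1) = g at *
  have hg1 : 1 ≤ g := by
    rw [← hgg]
    exact Nat.gcd_pos_of_pos_left _ (by omega)
  have hm0 : m ≠ 0 := by
    rintro rfl
    omega
  have hgo : Odd g := by
    rw [hm] at hn
    exact (Nat.odd_mul.1 hn).1
  have hmo : Odd m := by
    rw [hm] at hn
    exact (Nat.odd_mul.1 hn).2
  have h2g : 2 * g + 1 ≤ p := by
    obtain ⟨t, ht⟩ := hg2
    rcases hpo with ⟨a, ha⟩
    rcases hgo with ⟨b, hb⟩
    have ht2 : 2 ≤ t := by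
      by_contra hlt
      have : t = 0 ∨ t = 1 := by omega
      rcases this with rfl | rfl <;> omega
    have := Nat.mul_le_mul_left g ht2
    rw [← ht] at this
    omega
  have hm3 : 3 ≤ m := by
    rcases hmo with ⟨b, hb⟩
    by_contra hlt
    have : m = 1 := by omega
    subst this
    omega
  have hvg1 : 1 < v ^ g := Nat.one_lt_pow (by omega) (by omega)
  have hpg : p ∣ v ^ g - 1 := by
    rw [← ZMod.natCast_eq_zero_iff, Nat.cast_sub hvg1.le]
    push_cast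
    rw [h3, sub_self]
  -- lifting the exponent
  have hval : padicValNat p (v ^ n - 1) = padicValNat p (v ^ g - 1) + padicValNat p m := by
    have := padicValNat.pow_sub_pow (p := p) hpo (x := v ^ g) (y := 1) hvg1 hpg
      (fun hh => hpv (hp.dvd_of_dvd_pow hh)) (n := m) hm0
    rw [one_pow, ← pow_mul, ← hm] at this
    exact this
  have hge : n - 1 ≤ padicValNat p (v ^ n - 1) := by
    have hne : v ^ n - 1 ≠ 0 := by
      have : 1 < v ^ n := Nat.one_lt_pow (by omega) (by omega)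
      omega
    exact (padicValNat_dvd_iff_le hne).1 h
  have hpv3 : p * v < 3 * n ^ 2 := lt_of_le_of_lt hD hcon
  have hpows : p ^ g * v ^ g < (3 * n ^ 2) ^ g := by
    rw [← mul_pow]
    exact Nat.pow_lt_pow_left hpv3 (by omega)
  have hexp : p ^ (g * m) ≤ p ^ g * p ^ (n - 1) := by
    rw [← pow_add]
    apply Nat.pow_le_pow_right (by omega)
    rw [← hm]
    omega
  have hlow := cas_pow_ge hg1 h2g hm3
  by_cases hpm : p ∣ m
  · -- `p ∣ m`
    have hm7 : 7 ≤ m := by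
      by_cases hg : g = 1
      · subst hg
        obtain ⟨t, ht⟩ := hpm
        have ht3 : 3 ≤ t := by
          by_contra hlt
          have : t = 0 ∨ t = 1 ∨ t = 2 := by omega
          rcases this with rfl | rfl | rfl
          · omega
          · omega
          · rcases hmo with ⟨b, hb⟩
            omega
        nlinarith
      · have : 3 ≤ g := by
          rcases hgo with ⟨b, hb⟩
          omega
        have := Nat.le_of_dvd (by omega) hpm
        omega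
    have hdv : p ^ (n - 1) ∣ (v ^ g - 1) * m := by
      have hne : (v ^ g - 1) * m ≠ 0 := Nat.mul_ne_zero (by omega) hm0
      rw [padicValNat_dvd_iff_le hne, padicValNat.mul (by omega) hm0, ← hval]
      exact hge
    have hle : p ^ (n - 1) ≤ (v ^ g - 1) * m :=
      Nat.le_of_dvd (Nat.mul_pos (by omega) (by omega)) hdv
    have hlt : p ^ (g * m) < (3 * g ^ 2 * m ^ 3) ^ g := by
      calc p ^ (g * m) ≤ p ^ g * p ^ (n - 1) := hexp
        _ ≤ p ^ g * (v ^ g * m) :=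
            Nat.mul_le_mul_left _ (hle.trans (Nat.mul_le_mul_right _ (Nat.sub_le _ _)))
        _ = (p ^ g * v ^ g) * m := by ring
        _ < (3 * n ^ 2) ^ g * m := Nat.mul_lt_mul_of_pos_right hpows (by omega)
        _ ≤ (3 * n ^ 2) ^ g * m ^ g :=
            Nat.mul_le_mul_left _ (Nat.le_self_pow (by omega) m)
        _ = (3 * g ^ 2 * m ^ 3) ^ g := by rw [← mul_pow, hm]; ring_nf
    rw [mul_comm g m, pow_mul] at hlt
    have hlt2 : p ^ m < 3 * g ^ 2 * m ^ 3 := lt_of_pow_lt_pow_left₀ g (Nat.zero_le _) hlt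
    have := cas_three_pow_cube hm7
    have h5 : g ^ 2 * (3 * m ^ 3) ≤ g ^ 2 * 3 ^ m := Nat.mul_le_mul_left _ this
    nlinarith
  · -- `p ∤ m`
    have hz : padicValNat p m = 0 := padicValNat.eq_zero_of_not_dvd hpm
    have hdv : p ^ (n - 1) ∣ v ^ g - 1 := by
      rw [padicValNat_dvd_iff_le (by omega)]
      omega
    have hle : p ^ (n - 1) ≤ v ^ g - 1 := Nat.le_of_dvd (by omega) hdv
    have hlt : p ^ (g * m) < (3 * g ^ 2 * m ^ 2) ^ g := by
      calc p ^ (g * m) ≤ p ^ g * p ^ (n - 1) := hexp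
        _ ≤ p ^ g * v ^ g := Nat.mul_le_mul_left _ (hle.trans (Nat.sub_le _ _))
        _ < (3 * n ^ 2) ^ g := hpows
        _ = (3 * g ^ 2 * m ^ 2) ^ g := by rw [hm]; ring_nf
    rw [mul_comm g m, pow_mul] at hlt
    have hlt2 : p ^ m < 3 * g ^ 2 * m ^ 2 := lt_of_pow_lt_pow_left₀ g (Nat.zero_le _) hlt
    have := cas_three_pow_sq hm3
    have h5 : g ^ 2 * (3 * m ^ 2) ≤ g ^ 2 * 3 ^ m := Nat.mul_le_mul_left _ this
    nlinarith

end Pool.Agent.Lib.MP_545343_nt.Q2
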