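import Pool.Agent.Lib.MP_545343_nt.Q2.CasselsDiv
import Pool.Agent.Lib.MP_545343_nt.Q2.CasselsBound

set_option autoImplicit false

namespace Pool.Agent.Lib.MP_545343_nt.Q2

theorem cassels_sub : CasselsSubStmt := by
  intro E D p n hp hpo hn hpn hE h
  obtain ⟨v, h1, h2, h3, h4⟩ := cas_sub hp hpo hn hpn hE h
  exact cas_bound hp hpo hn hpn h1 h2 h3 h4

theorem cassels_add : CasselsAddStmt := by
  intro E D p n hp hpo hn hpn hE h
  obtain ⟨v, h1, h2, h3, h4⟩ := cas_add hp hpo hn hpn hE h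
  exact cas_bound hp hpo hn hpn h1 h2 h3 h4

end Pool.Agent.Lib.MP_545343_nt.Q2
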