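import Pool.Agent.Lib.MP_545343_nt.Q2.Sys

/-!
# First descent for `Z^2 = T^3 + 1`
-/

set_option autoImplicit false

namespace Pool.Agent.Lib.MP_545343_nt.Q2

lemma cube_sq_of_mul {a b c : ℕ} (h : Nat.Coprime a b) (he : a * b = c ^ 2) :
    ∃ d, a = d ^ 2 := by
  apply exists_eq_pow_of_mul_eq_pow (b := b) (c := c) _ he
  rw [Nat.isUnit_iff]
  exact h

theorem cube : CubeStmt := by
  intro Z T hT hT0 hZ
  obtain ⟨r, hr⟩ := hT
  obtain ⟨u, rfl⟩ : ∃ u, T = u + 2 := ⟨T - 2, by omega⟩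
  -- `A = u + 3`, `B = (u + 3) * u + 3`
  have hAB : (u + 3) * ((u + 3) * u + 3) = Z ^ 2 := by rw [hZ]; ring
  by_cases h3 : 3 ∣ u
  · -- `3 ∣ T + 1`
    obtain ⟨v, rfl⟩ := h3
    -- `T + 1 = 3 (v + 1)`, `B = 3 * (3 v (v + 1) + 1)`
    have h9 : 9 * ((v + 1) * (3 * v * (v + 1) + 1)) = Z ^ 2 := by rw [← hAB]; ring
    have hZ3 : 3 ∣ Z := by
      apply Nat.Prime.dvd_of_dvd_pow Nat.prime_three (n := 2)
      rw [← h9]
      exact ⟨3 * ((v + 1) * (3 * v * (v + 1) + 1)), by ring⟩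
    obtain ⟨z, rfl⟩ := hZ3
    have hz : (v + 1) * (3 * v * (v + 1) + 1) = z ^ 2 := by nlinarith
    have hco : Nat.Coprime (v + 1) (3 * v * (v + 1) + 1) := by
      rw [Nat.coprime_mul_right_add_right]
      exact Nat.coprime_one_right _
    obtain ⟨s, hs⟩ := cube_sq_of_mul hco hz
    obtain ⟨t, ht⟩ := cube_sq_of_mul hco.symm (by rw [mul_comm]; exact hz)
    have hzst : z = s * t := by
      have : z ^ 2 = (s * t) ^ 2 := by rw [← hz, ht, hs]; ring
      exact Nat.pow_left_injective (by norm_num : (2 : ℕ) ≠ 0) this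
    have hs3 : 3 * v + 2 + 1 = 3 * s ^ 2 := by omega
    refine ⟨?_, s, t, hs3, ?_, ?_⟩
    · have hsodd : s % 2 = 1 := by
        rcases Nat.even_or_odd' s with ⟨m, hm | hm⟩
        · exfalso
          have : s ^ 2 = 2 * (2 * m ^ 2) := by rw [hm]; ring
          omega
        · omega
      have hs8 : s ^ 2 % 8 = 1 := by
        have : s % 8 = 1 ∨ s % 8 = 3 ∨ s % 8 = 5 ∨ s % 8 = 7 := by omega
        rcases this with h | h | h | h <;> simp [Nat.pow_mod, h]
      omega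
    · rw [← ht]; ring
    · rw [hzst]; ring
  · exfalso
    have hco : Nat.Coprime (u + 3) ((u + 3) * u + 3) := by
      rw [Nat.coprime_mul_left_add_right]
      apply Nat.Coprime.symm
      rw [Nat.Prime.coprime_iff_not_dvd Nat.prime_three]
      omega
    obtain ⟨t, ht⟩ := cube_sq_of_mul hco.symm (by rw [mul_comm]; exact hAB)
    -- `(u + 1)^2 < t^2 < (u + 2)^2`
    have h1 : (u + 1) ^ 2 < t ^ 2 := by rw [← ht]; nlinarith
    have h2 : t ^ 2 < (u + 2) ^ 2 := by rw [← ht]; nlinarith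
    have h3' := lt_of_pow_lt_pow_left₀ 2 (by omega) h1
    have h4' := lt_of_pow_lt_pow_left₀ 2 (by omega) h2
    omega

end Pool.Agent.Lib.MP_545343_nt.Q2
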