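import Mathlib

/-!
# The system `d^x + 1 = e^i`, `e^j + 1 = w^l`, `d^y + 2 = w^k`

Statements used by the modules of the proof that the system has no solutions, and its first
consequences (orders modulo odd primes).
-/

set_option autoImplicit false

namespace Pool.Agent.Lib.MP_545343_nt.Q2

/-- Chein's form of Ko Chao's theorem, exponents prime to 3. -/
def CheinStmt : Prop := ∀ Z Y n : ℕ, Odd n → ¬ 3 ∣ n → 2 ≤ n → Even Y → 0 < Y →
  Z ^ 2 = Y ^ n + 1 → False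

/-- First descent for `Z^2 = T^3 + 1`. -/
def CubeStmt : Prop := ∀ Z T : ℕ, Even T → 0 < T → Z ^ 2 = T ^ 3 + 1 →
  T % 8 = 2 ∧ ∃ s t : ℕ, T + 1 = 3 * s ^ 2 ∧ T ^ 2 + 1 = T + 3 * t ^ 2 ∧ Z = 3 * s * t

/-- Lebesgue's theorem for odd exponents. -/
def LebesgueStmt : Prop := ∀ Z W n : ℕ, Odd n → 3 ≤ n → 0 < Z → Z ^ 2 + 1 = W ^ n → False

/-- Consequence of the easy half of Cassels' theorem, sign plus. -/
def CasselsSubStmt : Prop := ∀ E D p n : ℕ, p.Prime → Odd p → Odd n → p < n → 2 ≤ E →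
  E ^ p = D ^ n + 1 → 3 * n ^ 2 ≤ D

/-- Consequence of the easy half of Cassels' theorem, sign minus. -/
def CasselsAddStmt : Prop := ∀ E D p n : ℕ, p.Prime → Odd p → Odd n → p < n → 2 ≤ E →
  E ^ p + 1 = D ^ n → 3 * n ^ 2 ≤ D

/-- The equation `(X+1)^q = (X^s-1)^t + 2`. -/
def E2genStmt : Prop := ∀ X s t q : ℕ, 2 ≤ X → 2 ≤ s → 2 ≤ t →
  (X + 1) ^ q = (X ^ s - 1) ^ t + 2 → False

/-- The system with coprime exponent pairs. -/
structure Sys (d x y e i j w k l : ℕ) : Prop where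
  hd : 2 ≤ d
  he : 2 ≤ e
  hw : 2 ≤ w
  hx : 1 ≤ x
  hy : 1 ≤ y
  hi : 1 ≤ i
  hj : 1 ≤ j
  hk : 1 ≤ k
  hl : 1 ≤ l
  cxy : Nat.Coprime x y
  cij : Nat.Coprime i j
  ckl : Nat.Coprime k l
  nxy : x ≠ y
  nij : i ≠ j
  nkl : k ≠ l
  h1 : d ^ x + 1 = e ^ i
  h2 : e ^ j + 1 = w ^ l
  h3 : d ^ y + 2 = w ^ k

/-- `p ∣ w - 1` (written `w = 1` in `ZMod p`): then `p ∣ e`. -/
lemma zmod_eq_one_iff {p a : ℕ} (ha : 1 ≤ a) : ((a : ZMod p) = 1) ↔ p ∣ a - 1 := by
  rw [← ZMod.natCast_eq_zero_iff, Nat.cast_sub ha, Nat.cast_one, sub_eq_zero]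

lemma zmod_eq_neg_one_iff {p a : ℕ} : ((a : ZMod p) = -1) ↔ p ∣ a + 1 := by
  rw [← ZMod.natCast_eq_zero_iff]
  push_cast
  constructor
  · intro h; rw [h]; ring
  · intro h; exact eq_neg_of_add_eq_zero_left h

/-- In `ZMod p`, `p` an odd prime: `a^x = -1 = a^y` with coprime `x, y` forces `x, y` odd and
`a = -1`. -/
lemma zmod_neg_one_of_coprime {p : ℕ} [Fact p.Prime] (hp : p ≠ 2) {a : ZMod p} {x y : ℕ}
    (hc : Nat.Coprime x y) (h1 : a ^ x = -1) (h2 : a ^ y = -1) : Odd x ∧ Odd y ∧ a = -1 := by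
  have : Fact (2 < p) := ⟨by have := (Fact.out : p.Prime).two_le; omega⟩
  have hne : (-1 : ZMod p) ≠ 1 := ZMod.neg_one_ne_one
  have o1 : orderOf a ∣ 2 * x := by
    apply orderOf_dvd_of_pow_eq_one
    rw [mul_comm, pow_mul, h1]; ring
  have o2 : orderOf a ∣ 2 * y := by
    apply orderOf_dvd_of_pow_eq_one
    rw [mul_comm, pow_mul, h2]; ring
  have o3 : orderOf a ∣ 2 := by
    have := Nat.dvd_gcd o1 o2
    rwa [Nat.gcd_mul_left, hc, mul_one] at this
  have h3 : a ^ 2 = 1 := orderOf_dvd_iff_pow_eq_one.1 o3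
  have key : ∀ n : ℕ, a ^ n = -1 → Odd n ∧ a = -1 := by
    intro n hn
    rcases Nat.even_or_odd n with he | ho
    · obtain ⟨m, hm⟩ := he
      exfalso
      rw [hm, ← two_mul, pow_mul, h3, one_pow] at hn
      exact hne hn.symm
    · refine ⟨ho, ?_⟩
      obtain ⟨m, hm⟩ := ho
      rw [hm, pow_add, pow_mul, h3, one_pow, one_mul, pow_one] at hn
      exact hn
  exact ⟨(key x h1).1, (key y h2).1, (key x h1).2⟩

lemma zmod_one_of_coprime {p : ℕ} {a : ZMod p} {x y : ℕ}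
    (hc : Nat.Coprime x y) (h1 : a ^ x = 1) (h2 : a ^ y = 1) : a = 1 := by
  have o1 : orderOf a ∣ x := orderOf_dvd_of_pow_eq_one h1
  have o2 : orderOf a ∣ y := orderOf_dvd_of_pow_eq_one h2
  have := Nat.dvd_gcd o1 o2
  rw [hc] at this
  exact orderOf_eq_one_iff.1 (Nat.dvd_one.1 this)

namespace Sys

variable {d x y e i j w k l : ℕ}

/-- F1: a prime dividing `w - 1` divides `e`. -/
lemma dvd_e_of_dvd_w (S : Sys d x y e i j w k l) {p : ℕ} (hp : p.Prime) (h : p ∣ w - 1) :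
    p ∣ e := by
  have hw := S.hw
  have : Fact p.Prime := ⟨hp⟩
  have h1 : (w : ZMod p) = 1 := (zmod_eq_one_iff (by omega)).2 h
  have h2 : ((e ^ j + 1 : ℕ) : ZMod p) = ((w ^ l : ℕ) : ZMod p) := by rw [S.h2]
  push_cast at h2
  rw [h1, one_pow] at h2
  have h3 : (e : ZMod p) ^ j = 0 := by linear_combination h2
  have h4 : (e : ZMod p) = 0 := pow_eq_zero_iff (by have := S.hj; omega) |>.1 h3
  exact (ZMod.natCast_eq_zero_iff _ _).1 h4

/-- F2: an odd prime dividing `w - 1` forces `x`, `y` odd and divides `d + 1`. -/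
lemma of_dvd_w (S : Sys d x y e i j w k l) {p : ℕ} (hp : p.Prime) (hp2 : p ≠ 2)
    (h : p ∣ w - 1) : Odd x ∧ Odd y ∧ p ∣ d + 1 := by
  have hw := S.hw
  have : Fact p.Prime := ⟨hp⟩
  have h1 : (w : ZMod p) = 1 := (zmod_eq_one_iff (by omega)).2 h
  have h0 : (e : ZMod p) = 0 := (ZMod.natCast_eq_zero_iff _ _).2 (S.dvd_e_of_dvd_w hp h)
  have h2 : ((d ^ x + 1 : ℕ) : ZMod p) = ((e ^ i : ℕ) : ZMod p) := by rw [S.h1]
  have h3 : ((d ^ y + 2 : ℕ) : ZMod p) = ((w ^ k : ℕ) : ZMod p) := by rw [S.h3]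
  push_cast at h2 h3
  rw [h0, zero_pow (by have := S.hi; omega)] at h2
  rw [h1, one_pow] at h3
  obtain ⟨a, b, c⟩ := zmod_neg_one_of_coprime hp2 S.cxy (a := (d : ZMod p))
    (by linear_combination h2) (by linear_combination h3)
  exact ⟨a, b, zmod_eq_neg_one_iff.1 c⟩

/-- F3: `x`, `y` odd: a prime dividing `d + 1` divides `e` and `w - 1`. -/
lemma of_dvd_d (S : Sys d x y e i j w k l) {p : ℕ} (hp : p.Prime) (hx : Odd x) (hy : Odd y)
    (h : p ∣ d + 1) : p ∣ e ∧ p ∣ w - 1 := by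
  have hw := S.hw
  have : Fact p.Prime := ⟨hp⟩
  have hd : (d : ZMod p) = -1 := zmod_eq_neg_one_iff.2 h
  have h1 : ((d ^ x + 1 : ℕ) : ZMod p) = ((e ^ i : ℕ) : ZMod p) := by rw [S.h1]
  have h2 : ((e ^ j + 1 : ℕ) : ZMod p) = ((w ^ l : ℕ) : ZMod p) := by rw [S.h2]
  have h3 : ((d ^ y + 2 : ℕ) : ZMod p) = ((w ^ k : ℕ) : ZMod p) := by rw [S.h3]
  push_cast at h1 h2 h3
  rw [hd, hx.neg_one_pow] at h1
  rw [hd, hy.neg_one_pow] at h3
  have h4 : (e : ZMod p) ^ i = 0 := by linear_combination -h1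
  have h5 : (e : ZMod p) = 0 := pow_eq_zero_iff (by have := S.hi; omega) |>.1 h4
  rw [h5, zero_pow (by have := S.hj; omega)] at h2
  have h6 : (w : ZMod p) = 1 := zmod_one_of_coprime S.ckl (by linear_combination -h3)
    (by linear_combination -h2)
  exact ⟨(ZMod.natCast_eq_zero_iff _ _).1 h5, (zmod_eq_one_iff (by omega)).1 h6⟩

end Sys

/-! ### Valuations -/

lemma val_two_pow_add_one {a n : ℕ} (ha : Odd a) (hn : Odd n) :
    padicValNat 2 (a ^ n + 1) = padicValNat 2 (a + 1) := by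
  have : Fact (Nat.Prime 2) := ⟨Nat.prime_two⟩
  obtain ⟨b, hb⟩ := ha
  obtain ⟨m, hm⟩ := hn
  have h1 : a ^ 2 ≡ 1 [MOD (2 * (a + 1))] := by
    apply Nat.ModEq.symm
    rw [Nat.modEq_iff_dvd]
    refine ⟨b, ?_⟩
    rw [hb]; push_cast; ring
  have h2 : a ^ n + 1 ≡ a + 1 [MOD (2 * (a + 1))] := by
    have h3 : a ^ n ≡ a [MOD (2 * (a + 1))] := by
      rw [hm, pow_add, pow_mul, pow_one]
      have := (h1.pow m).mul_right a
      rwa [one_pow, one_mul] at this
    exact h3.add_right 1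
  have hq : a + 1 ∣ a ^ n + 1 ^ n := Odd.nat_add_dvd_pow_add_pow a 1 ⟨m, hm⟩
  rw [one_pow] at hq
  obtain ⟨q, hq⟩ := hq
  have hq0 : q ≠ 0 := by
    rintro rfl
    simp at hq
  rw [hq, padicValNat.mul (by omega) hq0, padicValNat.eq_zero_of_not_dvd (n := q), add_zero]
  rintro ⟨c, hc⟩
  rw [hq, hc] at h2
  have h4 : (a + 1) * (2 * c) = (2 * (a + 1)) * c := by ring
  rw [h4] at h2
  have h5 := (Nat.modEq_zero_iff_dvd.2 (dvd_mul_right (2 * (a + 1)) c)).symm.trans h2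
  have h6 : 2 * (a + 1) ∣ a + 1 := Nat.modEq_zero_iff_dvd.1 h5.symm
  have := Nat.le_of_dvd (by omega) h6
  omega

lemma val_two_pow_sub_one {a n : ℕ} (ha : Odd a) (ha1 : 2 ≤ a) (hn : Odd n) :
    padicValNat 2 (a ^ n - 1) = padicValNat 2 (a - 1) := by
  have : Fact (Nat.Prime 2) := ⟨Nat.prime_two⟩
  obtain ⟨b, hb⟩ := ha
  obtain ⟨m, hm⟩ := hn
  obtain ⟨c, rfl⟩ : ∃ c, a = c + 1 := ⟨a - 1, by omega⟩
  rw [Nat.add_sub_cancel]
  have h1 : (c + 1) ^ 2 ≡ 1 [MOD (2 * c)] := by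
    apply Nat.ModEq.symm
    rw [Nat.modEq_iff_dvd]
    refine ⟨b + 1, ?_⟩
    have : (c : ℤ) = 2 * b := by omega
    push_cast; rw [this]; ring
  have h3 : (c + 1) ^ n ≡ c + 1 [MOD (2 * c)] := by
    rw [hm, pow_add, pow_mul, pow_one]
    have := (h1.pow m).mul_right (c + 1)
    rwa [one_pow, one_mul] at this
  have hd : c ∣ (c + 1) ^ n - 1 := by
    have := Nat.sub_dvd_pow_sub_pow (c + 1) 1 n
    rwa [one_pow, Nat.add_sub_cancel] at this
  obtain ⟨q, hq⟩ := hd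
  have hge : (c + 1) ^ 1 ≤ (c + 1) ^ n := Nat.pow_le_pow_right (by omega) (by omega)
  rw [pow_one] at hge
  have hq0 : q ≠ 0 := by
    rintro rfl
    rw [mul_zero] at hq
    omega
  rw [hq, padicValNat.mul (by omega) hq0, padicValNat.eq_zero_of_not_dvd (n := q), add_zero]
  rintro ⟨r, hr⟩
  have h4 : (c + 1) ^ n = (2 * c) * r + 1 := by
    rw [hr] at hq
    have : (2 * c) * r = c * (2 * r) := by ring
    omega
  rw [h4] at h3
  have h5 : (2 * c) * r + 1 ≡ 0 + 1 [MOD (2 * c)] :=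
    (Nat.modEq_zero_iff_dvd.2 (dvd_mul_right (2 * c) r)).add_right 1
  have h6 : c ≡ 0 [MOD (2 * c)] := Nat.ModEq.add_right_cancel' 1 (h3.symm.trans h5)
  have := Nat.le_of_dvd (by omega) (Nat.modEq_zero_iff_dvd.1 h6)
  omega

/-- lifting the exponent, odd prime, minus sign -/
lemma val_pow_sub_one {p a n : ℕ} (hp : p.Prime) (hp2 : p ≠ 2) (ha : 2 ≤ a) (h : p ∣ a - 1)
    (hn : n ≠ 0) : padicValNat p (a ^ n - 1) = padicValNat p (a - 1) + padicValNat p n := by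
  have : Fact p.Prime := ⟨hp⟩
  have hlte := padicValNat.pow_sub_pow (p := p) (hp.odd_of_ne_two hp2) (x := a) (y := 1) (by omega)
      h (by
        intro hdd
        have h1 : p ∣ a - (a - 1) := Nat.dvd_sub hdd h
        rw [show a - (a - 1) = 1 by omega] at h1
        exact hp.one_lt.ne' (Nat.dvd_one.1 h1)) hn
  rwa [one_pow] at hlte

/-- lifting the exponent, odd prime, plus sign -/
lemma val_pow_add_one {p a n : ℕ} (hp : p.Prime) (hp2 : p ≠ 2) (h : p ∣ a + 1)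
    (hn : Odd n) : padicValNat p (a ^ n + 1) = padicValNat p (a + 1) + padicValNat p n := by
  have : Fact p.Prime := ⟨hp⟩
  have hlte := padicValNat.pow_add_pow (p := p) (hp.odd_of_ne_two hp2) (x := a) (y := 1)
      h (by
        intro hdd
        have h1 : p ∣ 1 := (Nat.dvd_add_right hdd).1 h
        exact hp.one_lt.ne' (Nat.dvd_one.1 h1)) hn
  rwa [one_pow] at hlte

namespace Sys

variable {d x y e i j w k l : ℕ}

/-- valuations at odd primes dividing `w - 1` (equivalently `d + 1`), `x`, `y` odd -/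
lemma val_odd (S : Sys d x y e i j w k l) {p : ℕ} (hp : p.Prime) (hp2 : p ≠ 2)
    (hx : Odd x) (hy : Odd y) (h : p ∣ w - 1) :
    padicValNat p (w - 1) + padicValNat p k = padicValNat p (d + 1) + padicValNat p y ∧
    padicValNat p (w - 1) + padicValNat p l = j * padicValNat p e ∧
    padicValNat p (d + 1) + padicValNat p x = i * padicValNat p e := by
  have : Fact p.Prime := ⟨hp⟩
  obtain ⟨-, -, hd⟩ := S.of_dvd_w hp hp2 h
  have a1 := val_pow_sub_one hp hp2 S.hw h (n := k) (by have := S.hk; omega)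
  have a2 := val_pow_sub_one hp hp2 S.hw h (n := l) (by have := S.hl; omega)
  have a3 := val_pow_add_one hp hp2 hd hx
  have a4 := val_pow_add_one hp hp2 hd hy
  have b1 : w ^ k - 1 = d ^ y + 1 := by have := S.h3; omega
  have b2 : w ^ l - 1 = e ^ j := by have := S.h2; omega
  rw [b1, a4] at a1
  rw [b2, padicValNat.pow] at a2
  rw [S.h1, padicValNat.pow] at a3
  exact ⟨a1.symm, a2.symm, a3.symm⟩

/-- valuations at 2, `d` odd -/
lemma val_two (S : Sys d x y e i j w k l) (hd : Odd d) :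
    (Odd x → i * padicValNat 2 e = padicValNat 2 (d + 1)) ∧
    (Odd y → padicValNat 2 (w ^ k - 1) = padicValNat 2 (d + 1)) ∧
    padicValNat 2 (w ^ l - 1) = j * padicValNat 2 e := by
  have : Fact (Nat.Prime 2) := ⟨Nat.prime_two⟩
  have b1 : w ^ k - 1 = d ^ y + 1 := by have := S.h3; omega
  have b2 : w ^ l - 1 = e ^ j := by have := S.h2; omega
  refine ⟨fun hx => ?_, fun hy => ?_, ?_⟩
  · rw [← val_two_pow_add_one hd hx, S.h1, padicValNat.pow]
  · rw [b1, val_two_pow_add_one hd hy]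
  · rw [b2, padicValNat.pow]

lemma even_e (S : Sys d x y e i j w k l) (hd : Odd d) : Even e := by
  have h1 : Even (e ^ i) := by rw [← S.h1]; exact (hd.pow).add_one
  exact (Nat.even_pow.1 h1).1

lemma odd_w (S : Sys d x y e i j w k l) (hd : Odd d) : Odd w := by
  have h0 : Even (e ^ j) := Nat.even_pow.2 ⟨S.even_e hd, by have := S.hj; omega⟩
  have h1 : Odd (w ^ l) := by rw [← S.h2]; exact h0.add_one
  rcases Nat.even_or_odd w with hw | hw
  · have : Even (w ^ l) := Nat.even_pow.2 ⟨hw, by have := S.hl; omega⟩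
    exact absurd this (Nat.not_even_iff_odd.2 h1)
  · exact hw

end Sys

/-- The cases. -/
def EvenStmt : Prop := ∀ d x y e i j w k l : ℕ, Sys d x y e i j w k l → Even d → False

/-- `d` odd, `x`, `y` not both odd. -/
def OddNStmt : Prop := ∀ d x y e i j w k l : ℕ, Sys d x y e i j w k l → Odd d →
  ¬ (Odd x ∧ Odd y) → False

/-- `d`, `x`, `y`, `k` odd, `l` even. -/
def OddB1Stmt : Prop := ∀ d x y e i j w k l : ℕ, Sys d x y e i j w k l → Odd d →
  Odd x → Odd y → Odd k → Even l → False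

/-- `d`, `y` odd, `x = 1`, `k` even. -/
def OddB21Stmt : Prop := ∀ d y e i j w k l : ℕ, Sys d 1 y e i j w k l → Odd d →
  Odd y → Even k → Odd l → False

/-- `d`, `x`, `y`, `l` odd, `x ≥ 3`, `k` even. -/
def OddB22Stmt : Prop := ∀ d x y e i j w k l : ℕ, Sys d x y e i j w k l → Odd d →
  Odd x → 3 ≤ x → Odd y → Even k → Odd l → False

/-- assembly of the cases -/
theorem sys_false (h1 : EvenStmt) (h2 : OddNStmt) (h3 : OddB1Stmt) (h4 : OddB21Stmt)
    (h5 : OddB22Stmt) {d x y e i j w k l : ℕ} (S : Sys d x y e i j w k l) : False := by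
  have : Fact (Nat.Prime 2) := ⟨Nat.prime_two⟩
  rcases Nat.even_or_odd d with hd | hd
  · exact h1 _ _ _ _ _ _ _ _ _ S hd
  by_cases hxy : Odd x ∧ Odd y
  swap
  · exact h2 _ _ _ _ _ _ _ _ _ S hd hxy
  obtain ⟨hx, hy⟩ := hxy
  obtain ⟨v1, v2, v3⟩ := S.val_two hd
  have hwo := S.odd_w hd
  rcases Nat.even_or_odd k with hk | hk
  · have hl : Odd l := by
      by_contra hne
      rw [Nat.not_odd_iff_even] at hne
      have := Nat.dvd_gcd hk.two_dvd hne.two_dvd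
      rw [S.ckl] at this
      omega
    rcases Nat.lt_or_ge x 3 with hx3 | hx3
    · have hx1 : x = 1 := by
        obtain ⟨m, hm⟩ := hx
        omega
      subst hx1
      exact h4 _ _ _ _ _ _ _ _ S hd hy hk hl
    · exact h5 _ _ _ _ _ _ _ _ _ S hd hx hx3 hy hk hl
  · rcases Nat.even_or_odd l with hl | hl
    · exact h3 _ _ _ _ _ _ _ _ _ S hd hx hy hk hl
    · -- both odd: i = j
      have w1 := val_two_pow_sub_one hwo S.hw hk
      have w2 := val_two_pow_sub_one hwo S.hw hl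
      have e1 := v1 hx
      have e2 := v2 hy
      have h6 : i * padicValNat 2 e = j * padicValNat 2 e := by
        rw [e1, ← e2, w1, ← w2, v3]
      have h7 : 1 ≤ padicValNat 2 e :=
        one_le_padicValNat_of_dvd (by have := S.he; omega) (S.even_e hd).two_dvd
      exact S.nij (Nat.eq_of_mul_eq_mul_right (by omega) h6)

end Pool.Agent.Lib.MP_545343_nt.Q2
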