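import Mathlib
import Pool.Agent.Lib.MP_545343_nt.E2
import Pool.Agent.Lib.MP_545343_nt.Q2.Sys

/-!
# The equation `(X+1)^q = (X^s-1)^t + 2`

No solutions with `X, s, t ≥ 2`.  `X` is even, `s` and `t` are odd (elementary).  `X = 2, 4, 6`
are excluded by congruences.  For `X ≥ 8` the structure `E2Data` of `E2.lean` applies: `X ≥ 9999`
is `E2Data.large_false`; for `X < 9999` the two logarithms bound applies when `s ≥ 5`, `X ≥ 98`,
when `s ≥ 7`, `X = 74`, and when `s = 3`, `X ≥ 6500`; all other cases are excluded by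
congruences, checked by the kernel.
-/

set_option autoImplicit false

namespace Pool.Agent.Lib.MP_545343_nt.Q2

open Pool.Agent.Lib.MP_545343_nt

lemma pow_cycle {A M p : ℕ} (h : A ^ (M + 1) ≡ A [MOD p]) (r c : ℕ) :
    A ^ (M * c + r + 1) ≡ A ^ (r + 1) [MOD p] := by
  induction c with
  | zero => simp; rfl
  | succ c ih =>
    have e1 : M * (c + 1) + r + 1 = (M * c + r) + (M + 1) := by ring
    rw [e1, pow_add]
    have e2 : A ^ (M * c + r + 1) = A ^ (M * c + r) * A := pow_succ _ _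
    have h1 := h.mul_left (A ^ (M * c + r))
    rw [← e2] at h1
    exact h1.trans ih

/-- The congruence check: modulo `p` no number `(X^s-1)^t+2`, `t` odd, is a power
`(X+1)^q` with `X^2/2 ∣ q`. -/
def good (X s p L e : ℕ) : Bool :=
  decide (1 < p) && decide ((X + 1) ^ L % p = 1) && decide (X ^ 2 / 2 * e % L = 0) &&
  decide (p % 2 = 1) && decide (((X ^ s - 1) % p) ^ (p - 1 + 1) % p = (X ^ s - 1) % p) &&
  (List.range (p - 1)).all (fun u => decide (u % 2 = 1) ||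
    decide ((((X ^ s - 1) % p) ^ (u + 1) + 2) ^ e % p ≠ 1))

lemma good_false {X s q t p L e : ℕ} (h : E2Data X s q t) (hg : good X s p L e = true) :
    False := by
  simp only [good, Bool.and_eq_true, decide_eq_true_eq, List.all_eq_true, List.mem_range,
    Bool.or_eq_true] at hg
  obtain ⟨⟨⟨⟨⟨hp1, hL⟩, hdiv⟩, hpo⟩, hcyc⟩, hall⟩ := hg
  obtain ⟨c, hc⟩ := h.half_dvd
  have hto := Nat.odd_iff.1 h.hto
  have ht := h.ht
  set a := (X ^ s - 1) % p with ha
  set r := (t - 1) % (p - 1) with hr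
  have hrlt : r < p - 1 := Nat.mod_lt _ (by omega)
  have hre : r % 2 = 0 := by
    have h1 : (t - 1) % (p - 1) % 2 = (t - 1) % 2 :=
      Nat.mod_mod_of_dvd _ (by omega)
    omega
  have hu := hall r hrlt
  rcases hu with hu | hu
  · omega
  apply hu
  have e0 : (X + 1) ^ (X ^ 2 / 2 * e) ≡ 1 [MOD p] := by
    obtain ⟨k, hk⟩ := Nat.dvd_of_mod_eq_zero hdiv
    rw [hk, pow_mul]
    have h1 : (X + 1) ^ L ≡ 1 [MOD p] := by
      unfold Nat.ModEq
      rw [hL, Nat.mod_eq_of_lt hp1]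
    have := h1.pow k
    rwa [one_pow] at this
  have e1 : ((X + 1) ^ q) ^ e ≡ 1 [MOD p] := by
    rw [hc, ← pow_mul, show X ^ 2 / 2 * c * e = X ^ 2 / 2 * e * c by ring, pow_mul]
    have := e0.pow c
    rwa [one_pow] at this
  rw [h.heq] at e1
  have e2 : (X ^ s - 1) ^ t ≡ a ^ (r + 1) [MOD p] := by
    have h1 : X ^ s - 1 ≡ a [MOD p] := by rw [ha]; exact (Nat.mod_modEq _ _).symm
    have h2 : a ^ (p - 1 + 1) ≡ a [MOD p] := by
      unfold Nat.ModEq
      rw [hcyc]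
      exact (Nat.mod_mod _ _).symm
    have h3 := pow_cycle h2 r ((t - 1) / (p - 1))
    have h4 : (p - 1) * ((t - 1) / (p - 1)) + r + 1 = t := by
      have := Nat.div_add_mod (t - 1) (p - 1)
      omega
    rw [h4] at h3
    exact (h1.pow t).trans h3
  have e3 := ((e2.add_right 2).pow e).symm.trans e1
  unfold Nat.ModEq at e3
  rwa [Nat.mod_eq_of_lt hp1] at e3

/-- The `s`-independent test. -/
def chk0 (X : ℕ) : Bool :=
  (decide (X % 8 ≠ 0) && decide (X % 8 ≠ 2)) ||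
  [3, 5, 11, 13, 19, 29, 37, 43, 53, 59, 61, 67, 83].any (fun n => decide ((X - 1) % n = 0)) ||
  [5, 7, 11, 13, 17, 19, 23, 47, 59].any (fun p => decide (X ^ 2 / 2 % (p - 1) = 0) &&
    decide ((X + 1) % p ≠ 0) && decide (X % p ≠ 0))

lemma chk0_false {X s q t : ℕ} (h : E2Data X s q t) (hc : chk0 X = true) : False := by
  have hm := h.mod_eight
  have hX := h.hX
  simp only [chk0, Bool.or_eq_true, Bool.and_eq_true, decide_eq_true_eq, List.any_eq_true] at hc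
  rcases hc with (⟨h1, h2⟩ | ⟨n, hn, h1⟩) | ⟨p, hp, ⟨h1, h2⟩, h3⟩
  · omega
  · have hnn : Odd n ∧ n % 8 ≠ 1 ∧ n % 8 ≠ 7 := by
      simp only [List.mem_cons, List.mem_nil_iff, or_false] at hn
      rcases hn with rfl | rfl | rfl | rfl | rfl | rfl | rfl | rfl | rfl | rfl | rfl | rfl | rfl <;>
        decide
    have := h.prime_dvd_mod hnn.1 (Nat.dvd_of_mod_eq_zero h1)
    omega
  · have hpp : p.Prime ∧ 2 < p := by
      simp only [List.mem_cons, List.mem_nil_iff, or_false] at hp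
      rcases hp with rfl | rfl | rfl | rfl | rfl | rfl | rfl | rfl | rfl <;> norm_num
    rcases h.prime_cond hpp.1 hpp.2 (Nat.dvd_of_mod_eq_zero h1) with h4 | h4
    · exact h2 (Nat.mod_eq_zero_of_dvd h4)
    · exact h3 (Nat.mod_eq_zero_of_dvd h4)

/-- the survivors below 6500 for `s = 3`: `(X, p, L, e)` -/
def tab : List (ℕ × ℕ × ℕ × ℕ) :=
  [
    (74, 13, 6, 3), (98, 5, 2, 1), (194, 89, 44, 22), (218, 5, 2, 1), (314, 17, 8, 4),
    (338, 5, 2, 1), (434, 73, 12, 6), (458, 5, 2, 1), (554, 199, 33, 33), (578, 5, 2, 1),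
    (602, 13, 4, 2), (674, 41, 40, 20), (698, 5, 2, 1), (722, 17, 8, 4), (890, 31, 10, 1),
    (938, 5, 2, 1), (962, 53, 26, 1), (1034, 67, 6, 3), (1082, 13, 6, 3), (1154, 17, 2, 1),
    (1202, 31, 3, 3), (1322, 13, 6, 3), (1394, 13, 6, 3), (1514, 17, 8, 4), (1634, 13, 6, 3),
    (1658, 5, 2, 1), (1754, 17, 4, 2), (1778, 5, 2, 1), (1784, 13, 6, 3), (1802, 31, 3, 3),
    (1874, 673, 7, 7), (1898, 5, 2, 1), (1922, 17, 8, 4), (1994, 109, 4, 2), (2018, 5, 2, 1),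
    (2114, 29, 28, 2), (2138, 5, 2, 1), (2162, 13, 4, 2), (2210, 29, 7, 7), (2282, 29, 28, 2),
    (2394, 13, 3, 1), (2402, 97, 4, 2), (2474, 13, 4, 2), (2522, 73, 18, 9), (2594, 19, 3, 3),
    (2738, 5, 2, 1), (2834, 41, 40, 20), (2858, 5, 2, 1), (2954, 13, 6, 3), (3002, 37, 4, 2),
    (3122, 29, 7, 1), (3194, 13, 6, 3), (3218, 5, 2, 1), (3242, 89, 11, 11), (3314, 109, 3, 3),
    (3338, 5, 2, 1), (3362, 29, 2, 1), (3434, 31, 3, 3), (3458, 5, 2, 1), (3530, 31, 15, 3),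
    (3578, 5, 2, 1), (3698, 5, 2, 1), (3794, 17, 4, 2), (3824, 73, 72, 9), (3842, 29, 28, 14),
    (3962, 17, 8, 4), (4058, 5, 2, 1), (4154, 37, 6, 3), (4178, 5, 2, 1), (4274, 29, 4, 2),
    (4298, 5, 2, 1), (4394, 17, 8, 4), (4418, 5, 2, 1), (4442, 13, 6, 3), (4514, 13, 6, 3),
    (4562, 31, 6, 3), (4578, 5, 2, 1), (4634, 29, 7, 1), (4658, 5, 2, 1), (4682, 53, 52, 26),
    (4754, 13, 6, 3), (4778, 5, 2, 1), (4802, 17, 8, 4), (5042, 19, 6, 3), (5114, 109, 12, 6),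
    (5234, 17, 2, 1), (5282, 13, 4, 2), (5498, 5, 2, 1), (5594, 13, 4, 2), (5618, 5, 2, 1),
    (5642, 17, 2, 1), (5738, 5, 2, 1), (5762, 13, 6, 3), (5882, 19, 6, 3), (5954, 19, 6, 3),
    (6002, 13, 6, 3), (6074, 13, 6, 3), (6122, 71, 10, 5), (6170, 31, 5, 1), (6218, 5, 2, 1),
    (6242, 17, 4, 2), (6338, 5, 2, 1), (6362, 29, 4, 2), (6434, 17, 8, 4), (6482, 29, 7, 1)]

lemma tab_good : ∀ r ∈ tab, good r.1 3 r.2.1 r.2.2.1 r.2.2.2 = true := by
  decide +kernel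

lemma chk_all : ∀ a ∈ List.range 65, ∀ b ∈ List.range 100, 8 ≤ 100 * a + b →
    (chk0 (100 * a + b) || tab.any (fun r => decide (r.1 = 100 * a + b))) = true := by
  decide +kernel

lemma chk_small : ∀ X ∈ List.range 98, 8 ≤ X → (chk0 X || decide (X = 74)) = true := by
  decide +kernel

lemma three_false {X q t : ℕ} (h : E2Data X 3 q t) (hX : X < 6500) : False := by
  have h8 := h.hX
  have h1 := chk_all (X / 100) (List.mem_range.2 (by omega)) (X % 100)
    (List.mem_range.2 (by omega)) (by omega)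
  rw [Nat.div_add_mod, Bool.or_eq_true] at h1
  rcases h1 with h1 | h1
  · exact chk0_false h h1
  · rw [List.any_eq_true] at h1
    obtain ⟨r, hr, hrX⟩ := h1
    have h2 := tab_good r hr
    rw [decide_eq_true_eq] at hrX
    rw [hrX] at h2
    exact good_false h h2

lemma lower_of {X s q t : ℕ} (h : E2Data X s q t) (s0 : ℕ) (h0 : 1 ≤ s0) (hs : s0 ≤ s) :
    X ^ (s0 - 1) < 2 * s0 * t := by
  have hlow := h.lower
  have hX := h.hX
  obtain ⟨k, rfl⟩ : ∃ k, s = s0 + k := ⟨s - s0, by omega⟩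
  have hk : s0 + k ≤ s0 * X ^ k := by
    clear hlow h hs
    induction k with
    | zero => simp
    | succ k ih =>
      have e1 : X ^ (k + 1) = X ^ k * X := pow_succ X k
      have e2 : X ^ k * 2 ≤ X ^ k * X := Nat.mul_le_mul_left _ (by omega)
      have e3 : 1 ≤ X ^ k := Nat.one_le_pow _ _ (by omega)
      calc s0 + (k + 1) = s0 + k + 1 := by ring
        _ ≤ s0 * X ^ k + s0 * X ^ k := by
            apply Nat.add_le_add ih
            exact Nat.one_le_iff_ne_zero.2 (by positivity)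
        _ = s0 * (X ^ k * 2) := by ring
        _ ≤ s0 * X ^ (k + 1) := by rw [e1]; exact Nat.mul_le_mul_left _ e2
  have hXk : 0 < X ^ k := Nat.pow_pos (by omega)
  have e1 : X ^ (s0 + k - 1) = X ^ k * X ^ (s0 - 1) := by
    rw [← pow_add]; congr 1; omega
  rw [e1] at hlow
  have e2 : 2 * ((s0 + k) * t) ≤ X ^ k * (2 * s0 * t) := by
    calc 2 * ((s0 + k) * t) ≤ 2 * ((s0 * X ^ k) * t) :=
          Nat.mul_le_mul_left _ (Nat.mul_le_mul_right _ hk)
      _ = X ^ k * (2 * s0 * t) := by ring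
  exact lt_of_mul_lt_mul_left (lt_of_lt_of_le hlow e2) (Nat.zero_le _)

/-- middle range -/
lemma mid_false {X s q t : ℕ} (h : E2Data X s q t) (hlt : X + 1 < 10000) (hX74 : 74 ≤ X)
    (ht7 : 7020000 ≤ t) : False := by
  have h1 := h.one_lt_pow
  have hs := h.hs
  have ht := h.ht
  have hq := h.hq
  have hlow := h.lower
  -- 27 s ≤ t
  have h27 : 27 * s ≤ t := by
    obtain ⟨k, rfl⟩ : ∃ k, s = k + 3 := ⟨s - 3, by omega⟩
    have hsk2 := E2Data.s_sq_le k X (by omega)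
    have e1 : X ^ (k + 3 - 1) = X ^ k * X ^ 2 := by
      rw [← pow_add]; rfl
    rw [e1] at hlow
    have e2 : 486 ≤ X ^ 2 := by nlinarith
    have e3 : 54 * (k + 3) ^ 2 ≤ X ^ k * X ^ 2 := by
      calc 54 * (k + 3) ^ 2 ≤ 54 * (9 * X ^ k) := Nat.mul_le_mul_left _ hsk2
        _ = X ^ k * 486 := by ring
        _ ≤ X ^ k * X ^ 2 := Nat.mul_le_mul_left _ e2
    have e4 : (2 * (k + 3)) * (27 * (k + 3)) < (2 * (k + 3)) * t := by
      calc (2 * (k + 3)) * (27 * (k + 3)) = 54 * (k + 3) ^ 2 := by ring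
        _ ≤ X ^ k * X ^ 2 := e3
        _ < 2 * ((k + 3) * t) := hlow
        _ = (2 * (k + 3)) * t := by ring
    exact (lt_of_mul_lt_mul_left e4 (Nat.zero_le _)).le
  set lam : ℝ := Real.log ((X + 1 : ℕ) : ℝ) with hlam
  have hXR : (74 : ℝ) ≤ X := by exact_mod_cast hX74
  have hlam1 : 1 ≤ lam := by
    rw [hlam, Real.le_log_iff_exp_le (by positivity)]
    push_cast
    linarith [Real.exp_one_lt_d9]
  have hlam9 : lam ≤ 9.75 := by
    have e1 : lam ≤ Real.log (2 ^ 14) := by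
      apply Real.log_le_log (by positivity)
      have : X + 1 ≤ 2 ^ 14 := by norm_num; omega
      exact_mod_cast this
    rw [Real.log_pow] at e1
    have := Real.log_two_lt_d9
    push_cast at *
    linarith
  have hlam0 : 0 < lam := by linarith
  have hA : ((X ^ s - 1 : ℕ) : ℝ) ≤ ((X + 1 : ℕ) : ℝ) ^ s := by
    have e1 : X ^ s - 1 ≤ (X + 1) ^ s :=
      (Nat.sub_le _ _).trans (Nat.pow_le_pow_left (by omega) _)
    exact_mod_cast e1
  have hlogA : Real.log ((X ^ s - 1 : ℕ) : ℝ) ≤ s * lam := by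
    have e1 := Real.log_le_log (by
      have : 0 < X ^ s - 1 := by omega
      exact_mod_cast this) hA
    rw [Real.log_pow] at e1
    exact e1
  have htR : (7020000 : ℝ) ≤ t := by exact_mod_cast ht7
  have h27R : (27 : ℝ) * s ≤ t := by exact_mod_cast h27
  have hsR : (3 : ℝ) ≤ s := by exact_mod_cast hs
  have hcond1 : 720000 * lam ≤ t := by linarith
  apply pillai_two (a := X + 1) (b := X ^ s - 1) (u := q) (v := t) (by omega) (by omega)
    (by omega) (by omega) h.heq hcond1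
  have e1 : (1600 : ℝ) ≤ t / (450 * lam) := by
    rw [le_div_iff₀ (by positivity)]
    linarith
  have e2 : (1600 : ℝ) ^ 2 * (t / (450 * lam)) ≤ (t / (450 * lam)) ^ 3 := by
    have : (1600 : ℝ) ^ 2 ≤ (t / (450 * lam)) ^ 2 := pow_le_pow_left₀ (by norm_num) e1 2
    calc (1600 : ℝ) ^ 2 * (t / (450 * lam)) ≤ (t / (450 * lam)) ^ 2 * (t / (450 * lam)) :=
          mul_le_mul_of_nonneg_right this (by positivity)
      _ = (t / (450 * lam)) ^ 3 := by ring
  refine le_trans ?_ e2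
  have e3 : 160 * (lam * Real.log ((X ^ s - 1 : ℕ) : ℝ)) ≤ 160 * (lam * (s * lam)) := by
    apply mul_le_mul_of_nonneg_left _ (by norm_num)
    exact mul_le_mul_of_nonneg_left hlogA hlam0.le
  refine le_trans e3 ?_
  rw [← mul_div_assoc, le_div_iff₀ (by positivity)]
  have e4 : 160 * (lam * ((s : ℝ) * lam)) * (450 * lam) = 72000 * (s * lam ^ 3) := by ring
  rw [e4]
  have e5 : lam ^ 3 ≤ 9.75 ^ 3 := pow_le_pow_left₀ hlam0.le hlam9 3
  have e6 : (s : ℝ) * lam ^ 3 ≤ s * 9.75 ^ 3 := mul_le_mul_of_nonneg_left e5 (by linarith)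
  nlinarith

lemma e2data_false {X s q t : ℕ} (h : E2Data X s q t) (hs : s = 3 ∨ 5 ≤ s) (hso : Odd s) :
    False := by
  rcases Nat.lt_or_ge (X + 1) 10000 with hlt | hge
  swap
  · exact h.large_false hge
  rcases hs with rfl | hs
  · rcases Nat.lt_or_ge X 6500 with h6 | h6
    · exact three_false h h6
    · have h1 := lower_of h 3 (by norm_num) le_rfl
      have h2 : 6500 ^ 2 ≤ X ^ (3 - 1) := Nat.pow_le_pow_left h6 2
      exact mid_false h hlt (by omega) (by norm_num at h1 h2; omega)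
  · rcases Nat.lt_or_ge X 98 with h9 | h9
    · have h8 := h.hX
      have h1 := chk_small X (List.mem_range.2 h9) h8
      rw [Bool.or_eq_true, decide_eq_true_eq] at h1
      rcases h1 with h1 | h1
      · exact chk0_false h h1
      · subst h1
        rcases Nat.lt_or_ge s 6 with h5 | h5
        · have h5' : s = 5 := by omega
          subst h5'
          exact good_false (p := 7) (L := 6) (e := 3) h (by decide +kernel)
        · have h7 : 7 ≤ s := by
            have := Nat.odd_iff.1 hso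
            omega
          have h1 := lower_of h 7 (by norm_num) h7
          exact mid_false h hlt (by omega) (by norm_num at h1; omega)
    · have h1 := lower_of h 5 (by norm_num) hs
      have h2 : 98 ^ 4 ≤ X ^ (5 - 1) := Nat.pow_le_pow_left h9 4
      exact mid_false h hlt (by omega) (by norm_num at h1 h2; omega)

/-- `X = 2`. -/
lemma two_false {s t q : ℕ} (hs : 3 ≤ s) (hso : Odd s) (ht : 3 ≤ t) (hto : Odd t)
    (h : 3 ^ q = (2 ^ s - 1) ^ t + 2) : False := by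
  have hso' := Nat.odd_iff.1 hso
  have hto' := Nat.odd_iff.1 hto
  rcases Nat.lt_or_ge s 5 with h5 | h5
  · have hs3 : s = 3 := by omega
    subst hs3
    norm_num at h
    -- 3^q = 7^t + 2
    have h1 : 3 ^ q % 49 = 2 := by
      obtain ⟨u, rfl⟩ : ∃ u, t = u + 2 := ⟨t - 2, by omega⟩
      rw [h, pow_add]
      omega
    have h2 : 3 ^ q % 49 = 3 ^ (q % 42) % 49 := by
      conv_lhs => rw [← Nat.div_add_mod q 42, pow_add, pow_mul, Nat.mul_mod, Nat.pow_mod]
      norm_num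
    have h3 : 3 ^ q % 43 = 3 ^ (q % 42) % 43 := by
      conv_lhs => rw [← Nat.div_add_mod q 42, pow_add, pow_mul, Nat.mul_mod, Nat.pow_mod]
      norm_num
    have h4 : 7 ^ t % 43 = 7 ^ (t % 6) % 43 := by
      conv_lhs => rw [← Nat.div_add_mod t 6, pow_add, pow_mul, Nat.mul_mod, Nat.pow_mod]
      norm_num
    rw [h1] at h2
    have k1 : ∀ r < 42, 2 = 3 ^ r % 49 → 3 ^ r % 43 = 15 := by decide
    have k2 : ∀ r < 6, (7 ^ r % 43 + 2) % 43 ≠ 15 := by decide
    have h5 := k1 _ (Nat.mod_lt _ (by norm_num)) h2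
    have h6 := k2 (t % 6) (Nat.mod_lt _ (by norm_num))
    rw [← h4] at h6
    rw [← h3, h] at h5
    omega
  · -- 16 ∣ 3^q - 1
    have hA1 : 1 ≤ 2 ^ s := Nat.one_le_pow _ _ (by omega)
    have h1 : 2 ^ s - 1 + 1 ∣ (2 ^ s - 1) ^ t + 1 ^ t := hto.nat_add_dvd_pow_add_pow _ _
    rw [one_pow, Nat.sub_add_cancel hA1] at h1
    have h2 : 2 ^ 4 ∣ (2 ^ s - 1) ^ t + 1 := (pow_dvd_pow 2 (by omega)).trans h1
    have h3 : 3 ^ q % 16 = 1 := by omega
    have h4 : 3 ^ q % 16 = 3 ^ (q % 4) % 16 := by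
      conv_lhs => rw [← Nat.div_add_mod q 4, pow_add, pow_mul, Nat.mul_mod, Nat.pow_mod]
      norm_num
    have h5 : 3 ^ q % 5 = 3 ^ (q % 4) % 5 := by
      conv_lhs => rw [← Nat.div_add_mod q 4, pow_add, pow_mul, Nat.mul_mod, Nat.pow_mod]
      norm_num
    rw [h3] at h4
    have k1 : ∀ r < 4, 1 = 3 ^ r % 16 → 3 ^ r % 5 = 1 := by decide
    have h6 := k1 _ (Nat.mod_lt _ (by norm_num)) h4
    rw [← h5] at h6
    have h7 : 2 ^ s % 5 = 2 ^ (s % 4) % 5 := by
      conv_lhs => rw [← Nat.div_add_mod s 4, pow_add, pow_mul, Nat.mul_mod, Nat.pow_mod]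
      norm_num
    have h8 : (2 ^ s - 1) ^ t % 5 = ((2 ^ s - 1) % 5) ^ (t % 4) % 5 := by
      rw [Nat.pow_mod]
      have k3 : ∀ a < 5, a ^ 4 % 5 = 0 ∨ a ^ 4 % 5 = 1 := by decide
      have k4 := k3 ((2 ^ s - 1) % 5) (Nat.mod_lt _ (by norm_num))
      rcases k4 with k4 | k4
      · have k5 : ∀ a < 5, a ^ 4 % 5 = 0 → a = 0 := by decide
        have k6 := k5 _ (Nat.mod_lt _ (by norm_num)) k4
        rw [k6, zero_pow (by omega), zero_pow (by omega)]
      · conv_lhs => rw [← Nat.div_add_mod t 4, pow_add, pow_mul, Nat.mul_mod, Nat.pow_mod, k4]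
        norm_num
    have k7 : ∀ r < 4, ∀ v < 4, ∀ a < 5,
        ¬ (r % 2 = 1 ∧ v % 2 = 1 ∧ (a + 1) % 5 = 2 ^ r % 5 ∧ (a ^ v % 5 + 2) % 5 = 1) := by decide
    have h9 : (((2 ^ s - 1) % 5) ^ (t % 4) % 5 + 2) % 5 ≠ 1 := fun hh =>
      k7 (s % 4) (Nat.mod_lt _ (by norm_num)) (t % 4) (Nat.mod_lt _ (by norm_num))
        ((2 ^ s - 1) % 5) (Nat.mod_lt _ (by norm_num)) ⟨by omega, by omega, by
          rw [← h7]
          omega, hh⟩
    rw [← h8] at h9
    rw [h] at h6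
    omega

/-- `X = 4`. -/
lemma four_false {s t q : ℕ} (hs : 2 ≤ s) (ht : 1 ≤ t) (hto : Odd t)
    (h : 5 ^ q = (4 ^ s - 1) ^ t + 2) : False := by
  have hA1 : 1 ≤ 4 ^ s := Nat.one_le_pow _ _ (by omega)
  have h1 : 4 ^ s - 1 + 1 ∣ (4 ^ s - 1) ^ t + 1 ^ t := hto.nat_add_dvd_pow_add_pow _ _
  rw [one_pow, Nat.sub_add_cancel hA1] at h1
  have h2 : 4 ^ 2 ∣ (4 ^ s - 1) ^ t + 1 := (pow_dvd_pow 4 hs).trans h1
  have h3 : 3 ∣ (4 ^ s - 1) ^ t := by
    have h4 : 4 - 1 ∣ 4 ^ s - 1 := by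
      have := Nat.sub_dvd_pow_sub_pow 4 1 s
      rwa [one_pow] at this
    exact h4.trans (dvd_pow_self _ (by omega))
  have h5 : 5 ^ q % 48 = 5 ^ (q % 4) % 48 := by
    conv_lhs => rw [← Nat.div_add_mod q 4, pow_add, pow_mul, Nat.mul_mod, Nat.pow_mod]
    norm_num
  have k1 : ∀ r < 4, ¬ (5 ^ r % 48 % 16 = 1 ∧ 5 ^ r % 48 % 3 = 2) := by decide
  apply k1 (q % 4) (Nat.mod_lt _ (by norm_num))
  rw [← h5, h]
  constructor <;> omega

/-- `X = 6`. -/
lemma six_false {s t q : ℕ} (hs : 2 ≤ s) (ht : 1 ≤ t) (hto : Odd t)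
    (h : 7 ^ q = (6 ^ s - 1) ^ t + 2) : False := by
  have hA1 : 1 ≤ 6 ^ s := Nat.one_le_pow _ _ (by omega)
  have h1 : 6 ^ s - 1 + 1 ∣ (6 ^ s - 1) ^ t + 1 ^ t := hto.nat_add_dvd_pow_add_pow _ _
  rw [one_pow, Nat.sub_add_cancel hA1] at h1
  have h2 : 6 ^ 2 ∣ (6 ^ s - 1) ^ t + 1 := (pow_dvd_pow 6 hs).trans h1
  have h3 : 5 ∣ (6 ^ s - 1) ^ t := by
    have h4 : 6 - 1 ∣ 6 ^ s - 1 := by
      have := Nat.sub_dvd_pow_sub_pow 6 1 s
      rwa [one_pow] at this
    exact h4.trans (dvd_pow_self _ (by omega))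
  have h5 : 7 ^ q % 20 = 7 ^ (q % 4) % 20 := by
    conv_lhs => rw [← Nat.div_add_mod q 4, pow_add, pow_mul, Nat.mul_mod, Nat.pow_mod]
    norm_num
  have k1 : ∀ r < 4, ¬ (7 ^ r % 20 % 4 = 1 ∧ 7 ^ r % 20 % 5 = 2) := by decide
  apply k1 (q % 4) (Nat.mod_lt _ (by norm_num))
  rw [← h5, h]
  constructor <;> omega

/-- The equation `(X+1)^q = (X^s-1)^t + 2` has no solutions with `X, s, t ≥ 2`. -/
theorem e2gen : E2genStmt := by
  intro X s t q hX hs ht h
  have hX2 : X ^ 2 ≤ X ^ s := Nat.pow_le_pow_right (by omega) hs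
  have hX2' : 2 * X ≤ X ^ 2 := by nlinarith
  have hAt : X ^ s - 1 ≤ (X ^ s - 1) ^ t := Nat.le_self_pow (by omega) _
  have hq : 2 ≤ q := by
    by_contra hcon
    push Not at hcon
    interval_cases q
    · rw [pow_zero] at h; omega
    · rw [pow_one] at h; omega
  -- X even
  have hXe : Even X := by
    by_contra hne
    rw [Nat.not_even_iff_odd] at hne
    have h1 : 4 ∣ (X + 1) ^ q := by
      have h2 : 2 ^ 2 ∣ (X + 1) ^ 2 := pow_dvd_pow_of_dvd hne.add_one.two_dvd 2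
      exact (by simpa using h2 : 4 ∣ (X + 1) ^ 2).trans (pow_dvd_pow _ hq)
    have h2 : 4 ∣ (X ^ s - 1) ^ t := by
      have h3 : 2 ∣ X ^ s - 1 := (Nat.Odd.sub_odd hne.pow (by decide)).two_dvd
      have h5 : 2 ^ 2 ∣ (X ^ s - 1) ^ 2 := pow_dvd_pow_of_dvd h3 2
      exact (by simpa using h5 : 4 ∣ (X ^ s - 1) ^ 2).trans (pow_dvd_pow _ ht)
    omega
  -- s odd
  have hso : Odd s := by
    by_contra hne
    rw [Nat.not_odd_iff_even] at hne
    have h1 : X + 1 ∣ X ^ s - 1 := by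
      obtain ⟨w, hw⟩ := hne
      have h2 : X ^ 2 - 1 ∣ (X ^ 2) ^ w - 1 := by
        have := Nat.sub_dvd_pow_sub_pow (X ^ 2) 1 w
        rwa [one_pow] at this
      rw [← pow_mul, show 2 * w = s by omega] at h2
      refine dvd_trans ?_ h2
      refine ⟨X - 1, ?_⟩
      obtain ⟨Y, rfl⟩ : ∃ Y, X = Y + 1 := ⟨X - 1, by omega⟩
      simp only [Nat.add_sub_cancel]
      have : (Y + 1) ^ 2 = (Y + 1 + 1) * Y + 1 := by ring
      omega
    have h2 : X + 1 ∣ (X ^ s - 1) ^ t := h1.trans (dvd_pow_self _ (by omega))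
    have h3 : X + 1 ∣ (X + 1) ^ q := dvd_pow_self _ (by omega)
    rw [h] at h3
    have h4 : X + 1 ∣ 2 := (Nat.dvd_add_right h2).1 h3
    have := Nat.le_of_dvd (by norm_num) h4
    omega
  have hs3 : 3 ≤ s := by
    rcases hso with ⟨k, hk⟩
    omega
  have hX3 : X ^ 3 ≤ X ^ s := Nat.pow_le_pow_right (by omega) hs3
  -- t odd
  have hto : Odd t := by
    by_contra hne
    rw [Nat.not_odd_iff_even] at hne
    obtain ⟨w, hw⟩ := hne
    have hA2 : X ∣ (X ^ s - 1) ^ t - 1 := by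
      have h1 : X ^ s ∣ (X ^ s - 1) ^ 2 - 1 := by
        obtain ⟨Y, hY⟩ : ∃ Y, X ^ s = Y + 1 := ⟨X ^ s - 1, by omega⟩
        rw [hY, Nat.add_sub_cancel]
        refine ⟨Y - 1, ?_⟩
        obtain ⟨Z, rfl⟩ : ∃ Z, Y = Z + 1 := ⟨Y - 1, by omega⟩
        simp only [Nat.add_sub_cancel]
        have : (Z + 1) ^ 2 = (Z + 1 + 1) * Z + 1 := by ring
        omega
      have h2 : (X ^ s - 1) ^ 2 - 1 ∣ (X ^ s - 1) ^ t - 1 := by
        have := Nat.sub_dvd_pow_sub_pow ((X ^ s - 1) ^ 2) 1 w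
        rw [one_pow, ← pow_mul, show 2 * w = t by omega] at this
        exact this
      exact (dvd_pow_self X (by omega)).trans (h1.trans h2)
    have hA3 : X ∣ (X + 1) ^ q - 1 := by
      have := Nat.sub_dvd_pow_sub_pow (X + 1) 1 q
      rwa [one_pow, Nat.add_sub_cancel] at this
    have h3 : (X + 1) ^ q - 1 = ((X ^ s - 1) ^ t - 1) + 2 := by omega
    rw [h3] at hA3
    have h4 : X ∣ 2 := (Nat.dvd_add_right hA2).1 hA3
    have h5 : X = 2 := by
      have := Nat.le_of_dvd (by norm_num) h4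
      omega
    subst h5
    have h6 := three_pow_eq_sq_add_two (y := q) (C := (2 ^ s - 1) ^ w) (by
      rw [← pow_mul, show w * 2 = t by omega, ← h])
    have h7 : 3 ^ q ≤ 3 ^ 3 := Nat.pow_le_pow_right (by omega) h6
    have h8 : 7 ^ 2 ≤ (2 ^ s - 1) ^ t := by
      calc 7 ^ 2 ≤ (2 ^ s - 1) ^ 2 := Nat.pow_le_pow_left (by omega) 2
        _ ≤ (2 ^ s - 1) ^ t := Nat.pow_le_pow_right (by omega) ht
    norm_num at h h7 h8
    omega
  have ht3 : 3 ≤ t := by
    rcases hto with ⟨k, hk⟩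
    omega
  have hXe' := Nat.even_iff.1 hXe
  rcases Nat.lt_or_ge X 8 with h8 | h8
  · interval_cases X
    · exact two_false hs3 hso ht3 hto h
    · omega
    · exact four_false hs (by omega) hto h
    · omega
    · exact six_false hs (by omega) hto h
    · omega
  · have hdata : E2Data X s q t := ⟨h8, hXe.two_dvd, hs3, ht3, hto, hq, h⟩
    have hso' := Nat.odd_iff.1 hso
    exact e2data_false hdata (by omega) hso

end Pool.Agent.Lib.MP_545343_nt.Q2
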