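import Mathlib
import Pool.Agent.Lib.MP_545343_nt.Q2.Sys

/-!
# The system with even `d`
-/

set_option autoImplicit false

namespace Pool.Agent.Lib.MP_545343_nt.Q2

lemma ev_pow_mod4_odd {e n : ℕ} (he : e % 4 = 3) (hn : Odd n) : e ^ n % 4 = 3 := by
  obtain ⟨m, rfl⟩ := hn
  rw [pow_add, pow_mul, pow_one, Nat.mul_mod, Nat.pow_mod, he]
  have h1 : e ^ 2 % 4 = 1 := by rw [Nat.pow_mod, he]
  rw [h1, one_pow]
  rfl

lemma ev_mod4_three {e n : ℕ} (he : e ^ n % 4 = 3) : e % 4 = 3 ∧ Odd n := by
  have h0 : e % 4 = 0 ∨ e % 4 = 1 ∨ e % 4 = 2 ∨ e % 4 = 3 := by omega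
  rcases Nat.eq_zero_or_pos n with hn | hn
  · subst hn
    rw [pow_zero] at he
    omega
  have key : e % 4 = 3 := by
    rcases h0 with h | h | h | h
    · rw [Nat.pow_mod, h, zero_pow (by omega)] at he
      omega
    · rw [Nat.pow_mod, h, one_pow] at he
      omega
    · exfalso
      have h2 : 2 ∣ e := by omega
      have h3 : 2 ∣ e ^ n := dvd_pow h2 (by omega)
      omega
    · exact h
  refine ⟨key, ?_⟩
  by_contra hne
  rw [Nat.not_odd_iff_even] at hne
  obtain ⟨m, rfl⟩ := hne
  rw [← two_mul, pow_mul, Nat.pow_mod] at he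
  have h1 : e ^ 2 % 4 = 1 := by rw [Nat.pow_mod, key]
  rw [h1, one_pow] at he
  omega

lemma ev_even_of_one {e n : ℕ} (he : e % 4 = 3) (hn : e ^ n % 4 = 1) : Even n := by
  by_contra hne
  rw [Nat.not_even_iff_odd] at hne
  have := ev_pow_mod4_odd he hne
  omega

lemma ev_dvd_of_val {A B : ℕ} (hA : A ≠ 0) (hB : B ≠ 0)
    (h : ∀ p : ℕ, p.Prime → p ∣ A → padicValNat p A ≤ padicValNat p B) : A ∣ B := by
  rw [← Nat.factorization_prime_le_iff_dvd hA hB]
  intro p hp
  rw [Nat.factorization_def _ hp, Nat.factorization_def _ hp]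
  by_cases hpA : p ∣ A
  · exact h p hp hpA
  · rw [padicValNat.eq_zero_of_not_dvd hpA]
    exact Nat.zero_le _

/-- two consecutive squares -/
lemma ev_consec {D E : ℕ} (hD : 1 ≤ D) (h : D ^ 2 + 1 = E ^ 2) : False := by
  have h1 : D < E := by
    by_contra hcon
    push Not at hcon
    have := Nat.pow_le_pow_left hcon 2
    omega
  have h2 := Nat.pow_le_pow_left h1 2
  have h3 : (D + 1) ^ 2 = D ^ 2 + 2 * D + 1 := by ring
  rw [Nat.succ_eq_add_one] at h2
  omega

/-- `E ^ 2 = 2 ^ x + 1` only for `x = 3` -/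
lemma ev_pow_two {E x : ℕ} (h : 2 ^ x + 1 = E ^ 2) : x = 3 := by
  have hE : 2 ≤ E := by
    by_contra hcon
    have h0 : E = 0 ∨ E = 1 := by omega
    have h1 : 1 ≤ 2 ^ x := Nat.one_le_two_pow
    rcases h0 with rfl | rfl <;> omega
  obtain ⟨F, rfl⟩ : ∃ F, E = F + 1 := ⟨E - 1, by omega⟩
  have h1 : F * (F + 2) = 2 ^ x := by
    have : (F + 1) ^ 2 = F * (F + 2) + 1 := by ring
    omega
  have hF : F ∣ 2 ^ x := ⟨F + 2, h1.symm⟩
  have hF2 : F + 2 ∣ 2 ^ x := ⟨F, by rw [mul_comm]; exact h1.symm⟩
  obtain ⟨a, ha, hFa⟩ := (Nat.dvd_prime_pow Nat.prime_two).1 hF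
  obtain ⟨b, hb, hFb⟩ := (Nat.dvd_prime_pow Nat.prime_two).1 hF2
  -- `2 ^ b = 2 ^ a + 2`
  have h2 : 2 ^ b = 2 ^ a + 2 := by omega
  have ha1 : a ≤ 1 := by
    by_contra hcon
    push Not at hcon
    have h4 : 4 ∣ 2 ^ a := by
      have := pow_dvd_pow 2 hcon
      simpa using this
    have hb2 : 2 ≤ b := by
      by_contra hb'
      have h0 : b = 0 ∨ b = 1 := by omega
      rcases h0 with rfl | rfl <;> omega
    have h5 : 4 ∣ 2 ^ b := by
      have := pow_dvd_pow 2 hb2
      simpa using this
    omega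
  have ha0 : a = 0 ∨ a = 1 := by omega
  rcases ha0 with rfl | rfl
  · exfalso
    rw [pow_zero] at hFa
    subst hFa
    have hb0 : b = 0 ∨ 1 ≤ b := by omega
    rcases hb0 with rfl | hb1
    · omega
    · have h5 : 2 ∣ 2 ^ b := dvd_pow_self 2 (by omega)
      omega
  · rw [pow_one] at hFa
    subst hFa
    have h6 : 2 ^ x = 2 ^ 3 := by omega
    exact Nat.pow_right_injective (le_refl 2) h6

/-- two even powers -/
lemma ev_four_dvd {a n : ℕ} (ha : Even a) (hn : 2 ≤ n) : 4 ∣ a ^ n := by
  obtain ⟨b, rfl⟩ := ha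
  have h1 : (b + b) ^ 2 ∣ (b + b) ^ n := pow_dvd_pow _ hn
  refine dvd_trans ⟨b ^ 2, ?_⟩ h1
  ring

theorem even_case (hC : CheinStmt) (hQ : CubeStmt) : EvenStmt := by
  intro d x y e i j w k l S hd
  have F2 : Fact (Nat.Prime 2) := ⟨Nat.prime_two⟩
  have hd2 := S.hd
  have he2 := S.he
  have hw2 := S.hw
  have hx1 := S.hx
  have hy1 := S.hy
  have hi1 := S.hi
  have hj1 := S.hj
  have hk1 := S.hk
  have hl1 := S.hl
  have hwe : Even w := by
    have h0 : Even (w ^ k) := by
      rw [← S.h3]
      exact (Nat.even_pow.2 ⟨hd, by omega⟩).add even_two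
    exact (Nat.even_pow.1 h0).1
  -- primes dividing `w - 1` are odd
  have hodd : ∀ p : ℕ, p.Prime → p ∣ w - 1 → p ≠ 2 := by
    rintro p hp hpw rfl
    obtain ⟨c, hc⟩ := hwe
    omega
  have hodd' : ∀ p : ℕ, p.Prime → p ∣ d + 1 → p ≠ 2 := by
    rintro p hp hpw rfl
    obtain ⟨c, hc⟩ := hd
    omega
  by_cases hxy : Odd x ∧ Odd y
  swap
  · -- (I)
    have hw : w = 2 := by
      by_contra hne
      obtain ⟨p, hp, hpw⟩ := Nat.exists_prime_and_dvd (n := w - 1) (by omega)
      obtain ⟨a, b, -⟩ := S.of_dvd_w hp (hodd p hp hpw) hpw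
      exact hxy ⟨a, b⟩
    subst hw
    rcases Nat.lt_or_ge y 2 with hy | hy
    · have hy' : y = 1 := by omega
      subst hy'
      have hxe : Even x := by
        by_contra hne
        rw [Nat.not_even_iff_odd] at hne
        exact hxy ⟨hne, odd_one⟩
      have hx2 : 2 ≤ x := by
        obtain ⟨c, hc⟩ := hxe
        omega
      have hej : 2 ≤ e ^ j := by
        calc 2 ≤ e := he2
          _ = e ^ 1 := (pow_one e).symm
          _ ≤ e ^ j := Nat.pow_le_pow_right (by omega) hj1
      have hl2 : 2 ≤ l := by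
        by_contra hcon
        have : l = 1 := by omega
        have h2 := S.h2
        rw [this] at h2
        omega
      have h4 : 4 ∣ 2 ^ l := ev_four_dvd even_two hl2
      have h5 : e ^ j % 4 = 3 := by
        have h2 := S.h2
        omega
      obtain ⟨he4, -⟩ := ev_mod4_three h5
      have h6 : e ^ i % 4 = 1 := by
        have h1 := S.h1
        have h7 : 4 ∣ d ^ x := ev_four_dvd hd hx2
        omega
      have hie := ev_even_of_one he4 h6
      obtain ⟨a, ha⟩ := hxe
      obtain ⟨b, hb⟩ := hie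
      have h1 := S.h1
      rw [ha, hb, ← two_mul, ← two_mul, mul_comm 2 a, mul_comm 2 b, pow_mul, pow_mul] at h1
      exact ev_consec (Nat.one_le_pow _ _ (by omega)) h1
    · have h4 : 4 ∣ d ^ y := ev_four_dvd hd hy
      have hk : k = 1 := by
        by_contra hne
        have h5 : 4 ∣ 2 ^ k := ev_four_dvd even_two (by omega)
        have h3 := S.h3
        omega
      have h3 := S.h3
      rw [hk] at h3
      have h6 : 0 < d ^ y := by positivity
      omega
  obtain ⟨hx, hy⟩ := hxy
  rcases Nat.lt_or_ge y 3 with hy3 | hy3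
  · -- `y = 1`
    have hy' : y = 1 := by
      obtain ⟨m, hm⟩ := hy
      omega
    subst hy'
    have hx3 : 3 ≤ x := by
      have := S.nxy
      obtain ⟨m, hm⟩ := hx
      omega
    have hk : k = 1 := by
      by_contra hne
      have hk2 : 2 ≤ k := by omega
      have h3 := S.h3
      rw [pow_one] at h3
      have hdd : w ^ k - 1 ∣ (w - 1) * k := by
        apply ev_dvd_of_val
        · omega
        · exact Nat.mul_ne_zero (by omega) (by omega)
        · intro p hp hpd
          have : Fact p.Prime := ⟨hp⟩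
          have h4 : p ∣ d + 1 := by
            rw [show d + 1 = w ^ k - 1 by omega]; exact hpd
          obtain ⟨-, h5⟩ := S.of_dvd_d hp hx hy h4
          rw [val_pow_sub_one hp (hodd p hp h5) hw2 h5 (by omega),
            padicValNat.mul (by omega) (by omega)]
      have hle := Nat.le_of_dvd (Nat.mul_pos (by omega) (by omega)) hdd
      -- but `w ^ k - 1 > (w - 1) k`
      have hgt : ∀ n : ℕ, 2 ≤ n → (w - 1) * n + 1 < w ^ n := by
        obtain ⟨c, rfl⟩ : ∃ c, w = c + 2 := ⟨w - 2, by omega⟩
        intro n hn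
        induction n, hn using Nat.le_induction with
        | base =>
          rw [show c + 2 - 1 = c + 1 by omega]
          nlinarith
        | succ n hn ih =>
          rw [show c + 2 - 1 = c + 1 by omega] at ih ⊢
          have h7 : 1 ≤ (c + 2) ^ n := Nat.one_le_pow _ _ (by omega)
          rw [pow_succ]
          nlinarith
      have := hgt k hk2
      omega
    subst hk
    have h3 := S.h3
    rw [pow_one, pow_one] at h3
    have hl2 : 2 ≤ l := by
      have := S.nkl
      omega
    have h4 : 4 ∣ w ^ l := ev_four_dvd hwe hl2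
    have h5 : e ^ j % 4 = 3 := by
      have h2 := S.h2
      omega
    obtain ⟨he4, hjo⟩ := ev_mod4_three h5
    have h6 : e ^ i % 4 = 1 := by
      have h1 := S.h1
      have h7 : 4 ∣ d ^ x := ev_four_dvd hd (by omega)
      omega
    have hie := ev_even_of_one he4 h6
    obtain ⟨b, hb⟩ := hie
    have h1 := S.h1
    have hZ : (e ^ b) ^ 2 = d ^ x + 1 := by
      rw [h1, hb, ← pow_mul, mul_two]
    by_cases h3x : 3 ∣ x
    · obtain ⟨m, hm⟩ := h3x
      have hm1 : 1 ≤ m := by omega
      have hZ' : (e ^ b) ^ 2 = (d ^ m) ^ 3 + 1 := by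
        rw [hZ, hm, ← pow_mul, mul_comm 3 m]
      obtain ⟨hT, -⟩ := hQ (e ^ b) (d ^ m) (Nat.even_pow.2 ⟨hd, by omega⟩) (by positivity) hZ'
      have hm' : m = 1 := by
        by_contra hne
        have := ev_four_dvd hd (show 2 ≤ m by omega)
        omega
      subst hm'
      rw [pow_one] at hT
      -- `16 ∣ w ^ l`
      have hw4 : 4 ∣ w := by omega
      have hw16 : 16 ∣ w ^ l := by
        have h7 : 4 ^ 2 ∣ w ^ 2 := pow_dvd_pow_of_dvd hw4 2
        exact dvd_trans (by simpa using h7) (pow_dvd_pow w hl2)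
      have heo : Odd e := by rw [Nat.odd_iff]; omega
      have hv := val_two_pow_add_one heo hjo
      rw [S.h2] at hv
      have h16 : 16 ∣ e + 1 := by
        have h8 : 4 ≤ padicValNat 2 (w ^ l) := by
          rw [← padicValNat_dvd_iff_le (by positivity)]
          simpa using hw16
        rw [hv] at h8
        have h9 := (padicValNat_dvd_iff_le (p := 2) (a := e + 1) (n := 4) (by omega)).2 h8
        simpa using h9
      -- `32 ∣ e ^ 2 - 1`
      obtain ⟨c, hc⟩ := h16
      have hc1 : 1 ≤ c := by omega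
      have h32 : e ^ 2 % 32 = 1 := by
        have h10 : e = 16 * c - 1 := by omega
        obtain ⟨c', rfl⟩ : ∃ c', c = c' + 1 := ⟨c - 1, by omega⟩
        have h11 : e = 16 * c' + 15 := by omega
        have h12 : e ^ 2 = 32 * (8 * c' ^ 2 + 15 * c' + 7) + 1 := by rw [h11]; ring
        omega
      have h33 : e ^ i % 32 = 1 := by
        rw [hb, ← two_mul, pow_mul, Nat.pow_mod, h32, one_pow]
        rfl
      have h34 : d ^ 3 % 16 = 8 := by
        have h13 : d % 16 = 2 ∨ d % 16 = 10 := by omega
        rcases h13 with h | h <;> rw [Nat.pow_mod, h]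
      rw [hm] at h1
      norm_num at h1
      omega
    · exact hC (e ^ b) d x hx h3x (by omega) hd (by omega) hZ
  · -- `y ≥ 3`
    have h4 : 4 ∣ d ^ y := ev_four_dvd hd (by omega)
    have hk : k = 1 := by
      by_contra hne
      have h5 : 4 ∣ w ^ k := ev_four_dvd hwe (by omega)
      have h3 := S.h3
      omega
    subst hk
    have h3 := S.h3
    rw [pow_one] at h3
    have hdd : d ^ y + 1 ∣ (d + 1) * y := by
      apply ev_dvd_of_val
      · omega
      · exact Nat.mul_ne_zero (by omega) (by omega)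
      · intro p hp hpd
        have : Fact p.Prime := ⟨hp⟩
        have h5 : p ∣ w - 1 := by
          rw [show w - 1 = d ^ y + 1 by omega]; exact hpd
        obtain ⟨-, -, h6⟩ := S.of_dvd_w hp (hodd p hp h5) h5
        rw [val_pow_add_one hp (hodd p hp h5) h6 hy, padicValNat.mul (by omega) (by omega)]
    have hle := Nat.le_of_dvd (Nat.mul_pos (by omega) (by omega)) hdd
    -- `d = 2`, `y = 3`
    have hd4 : d = 2 := by
      by_contra hne
      have hd4 : 4 ≤ d := by
        obtain ⟨c, hc⟩ := hd
        omega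
      have hgt : ∀ n : ℕ, 3 ≤ n → (d + 1) * n < d ^ n + 1 := by
        intro n hn
        induction n, hn using Nat.le_induction with
        | base => nlinarith [Nat.mul_le_mul hd4 hd4, Nat.mul_le_mul (Nat.mul_le_mul hd4 hd4) hd4,
            show d ^ 3 = d * d * d by ring, Nat.mul_le_mul_right d (Nat.mul_le_mul hd4 hd4)]
        | succ n hn ih =>
          have h7 : 1 ≤ d ^ n := Nat.one_le_pow _ _ (by omega)
          have h8 : 4 * d ^ n ≤ d * d ^ n := Nat.mul_le_mul_right _ hd4
          rw [pow_succ, mul_comm (d ^ n) d]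
          nlinarith
      have := hgt y hy3
      omega
    subst hd4
    have hy3' : y = 3 := by
      by_contra hne
      have hy4 : 4 ≤ y := by omega
      have hgt : ∀ n : ℕ, 4 ≤ n → 3 * n < 2 ^ n + 1 := by
        intro n hn
        induction n, hn using Nat.le_induction with
        | base => norm_num
        | succ n hn ih =>
          rw [pow_succ]
          omega
      have := hgt y hy4
      omega
    subst hy3'
    have hw10 : w = 10 := by omega
    subst hw10
    have hl2 : 2 ≤ l := by
      have := S.nkl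
      omega
    have h5 : 4 ∣ 10 ^ l := ev_four_dvd hwe hl2
    have h2 := S.h2
    have h6 : e ^ j % 4 = 3 := by omega
    obtain ⟨he4, -⟩ := ev_mod4_three h6
    have h1 := S.h1
    rcases Nat.lt_or_ge x 2 with hx2 | hx2
    · have hx' : x = 1 := by omega
      subst hx'
      rw [pow_one] at h1
      -- `e ^ i = 3`
      have hei : e = 3 := by
        have h7 : e ∣ 3 := by
          rw [show 3 = 2 + 1 by norm_num, h1]
          exact dvd_pow_self e (by omega)
        rcases (Nat.dvd_prime Nat.prime_three).1 h7 with h | h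
        · omega
        · exact h
      subst hei
      rcases Nat.lt_or_ge l 3 with hl3 | hl3
      · have hl' : l = 2 := by omega
        subst hl'
        have h8 : 3 ^ j = 99 := by omega
        have hj5 : j < 5 := by
          by_contra hcon
          have := Nat.pow_le_pow_right (show 0 < 3 by norm_num) (show 5 ≤ j by omega)
          omega
        interval_cases j <;> omega
      · have h8 : 8 ∣ 10 ^ l := by
          have h9 : 10 ^ 3 ∣ 10 ^ l := pow_dvd_pow 10 hl3
          exact dvd_trans (by norm_num) h9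
        have h9 : 3 ^ j % 8 = 1 ∨ 3 ^ j % 8 = 3 := by
          rcases Nat.even_or_odd' j with ⟨m, hm | hm⟩
          · left
            rw [hm, pow_mul, Nat.pow_mod]
            norm_num
          · right
            rw [hm, pow_add, pow_mul, Nat.mul_mod, Nat.pow_mod]
            norm_num
        omega
    · have h7 : 4 ∣ 2 ^ x := ev_four_dvd even_two hx2
      have h8 : e ^ i % 4 = 1 := by omega
      obtain ⟨b, hb⟩ := ev_even_of_one he4 h8
      have h9 : 2 ^ x + 1 = (e ^ b) ^ 2 := by
        rw [h1, hb, ← pow_mul, mul_two]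
      have h10 := ev_pow_two h9
      have h11 := S.cxy
      rw [h10] at h11
      norm_num at h11

end Pool.Agent.Lib.MP_545343_nt.Q2
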