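import Mathlib
import Pool.Agent.Lib.MP_545343_nt.Q2.Sys

/-!
# From admissible triples to the system `Sys`
-/

set_option autoImplicit false

namespace Pool.Agent.Lib.MP_545343_nt.Q2

/-- a common power -/
def Dep (a b : ℕ) : Prop := ∃ u v : ℕ, 1 ≤ u ∧ 1 ≤ v ∧ a ^ u = b ^ v

lemma Dep.symm {a b : ℕ} (h : Dep a b) : Dep b a := by
  obtain ⟨u, v, hu, hv, h⟩ := h
  exact ⟨v, u, hv, hu, h.symm⟩

lemma Dep.base {a b : ℕ} (ha : 1 < a) (hb : 1 < b) (hab : a ≠ b) (h : Dep a b) :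
    ∃ c x y : ℕ, 2 ≤ c ∧ 1 ≤ x ∧ 1 ≤ y ∧ Nat.Coprime x y ∧ x ≠ y ∧ a = c ^ x ∧ b = c ^ y := by
  obtain ⟨u, v, hu, hv, h⟩ := h
  obtain ⟨c, h1, h2⟩ := Nat.exists_eq_pow_of_pow_eq_pow (Or.inl (by omega : u ≠ 0)) h
  have hg : 0 < Nat.gcd u v := Nat.gcd_pos_of_pos_left _ (by omega)
  have hcop : Nat.Coprime (u / Nat.gcd u v) (v / Nat.gcd u v) := Nat.coprime_div_gcd_div_gcd hg
  refine ⟨c, v / Nat.gcd u v, u / Nat.gcd u v, ?_, ?_, ?_, hcop.symm, ?_, h1, h2⟩
  · by_contra hc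
    have : c = 0 ∨ c = 1 := by omega
    rcases this with rfl | rfl
    · rcases Nat.eq_zero_or_pos (v / Nat.gcd u v) with h0 | h0
      · rw [h0] at h1; simp at h1; omega
      · rw [zero_pow (by omega)] at h1; omega
    · rw [one_pow] at h1; omega
  · exact Nat.div_pos (Nat.le_of_dvd (by omega) (Nat.gcd_dvd_right u v)) hg
  · exact Nat.div_pos (Nat.le_of_dvd (by omega) (Nat.gcd_dvd_left u v)) hg
  · intro he
    apply hab
    rw [h1, h2, he]

lemma nat_dep {a b : ℕ} (ha : 1 < a) (hb : 1 < b) {m n : ℤ} (hmn : m ≠ 0 ∨ n ≠ 0)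
    (h : (a : ℂ) ^ m * (b : ℂ) ^ n = 1) : Dep a b := by
  have h1 : (a : ℝ) ^ m * (b : ℝ) ^ n = 1 := by
    have h2 : (((a : ℝ) ^ m * (b : ℝ) ^ n : ℝ) : ℂ) = ((1 : ℝ) : ℂ) := by
      push_cast
      exact h
    exact_mod_cast h2
  have ha0 : (0 : ℝ) < a := by exact_mod_cast (by omega : 0 < a)
  have hb0 : (0 : ℝ) < b := by exact_mod_cast (by omega : 0 < b)
  have hla : 0 < Real.log a := Real.log_pos (by exact_mod_cast ha)
  have hlb : 0 < Real.log b := Real.log_pos (by exact_mod_cast hb)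
  have h3 : m * Real.log a + n * Real.log b = 0 := by
    have := congrArg Real.log h1
    rw [Real.log_mul (by positivity) (by positivity), Real.log_zpow, Real.log_zpow,
      Real.log_one] at this
    exact this
  -- opposite signs
  have key : ∀ (a b : ℕ) (m n : ℤ), 1 < a → 1 < b → 0 < Real.log a → 0 < Real.log b → 0 < m →
      m * Real.log a + n * Real.log b = 0 → Dep a b := by
    intro a b m n ha hb hla hlb hm h3
    have hn : n < 0 := by
      by_contra hcon
      push Not at hcon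
      have e1 : (0 : ℝ) < m := by exact_mod_cast hm
      have e2 : (0 : ℝ) ≤ n := by exact_mod_cast hcon
      have e3 := mul_pos e1 hla
      have e4 := mul_nonneg e2 hlb.le
      linarith
    refine ⟨m.toNat, (-n).toNat, by omega, by omega, ?_⟩
    have e1 : ((m.toNat : ℕ) : ℝ) = m := by
      have : ((m.toNat : ℤ)) = m := Int.toNat_of_nonneg hm.le
      exact_mod_cast this
    have e2 : (((-n).toNat : ℕ) : ℝ) = -n := by
      have : (((-n).toNat : ℤ)) = -n := Int.toNat_of_nonneg (by omega)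
      exact_mod_cast this
    have e3 : (a : ℝ) ^ m.toNat = (b : ℝ) ^ (-n).toNat := by
      have ha0 : (0 : ℝ) < a := by exact_mod_cast (by omega : 0 < a)
      have hb0 : (0 : ℝ) < b := by exact_mod_cast (by omega : 0 < b)
      apply Real.log_injOn_pos (Set.mem_Ioi.2 (by positivity)) (Set.mem_Ioi.2 (by positivity))
      rw [Real.log_pow, Real.log_pow, e1, e2]
      linarith
    exact_mod_cast e3
  rcases lt_trichotomy m 0 with hm | hm | hm
  · apply key a b (-m) (-n) ha hb hla hlb (by omega)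
    push_cast
    linarith
  · exfalso
    subst hm
    have hn : n ≠ 0 := by
      rcases hmn with h | h
      · exact absurd rfl h
      · exact h
    have : (n : ℝ) * Real.log b = 0 := by simpa using h3
    rcases mul_eq_zero.1 this with h | h
    · exact hn (by exact_mod_cast h)
    · exact hlb.ne' h
  · exact key a b m n ha hb hla hlb hm h3

/-- Theorem (B): three different pairs -/
lemma triple_false (hS : ∀ d x y e i j w k l : ℕ, Sys d x y e i j w k l → False)
    {u v t : ℕ} (hu : 1 < u) (hv : 1 < v) (ht : 1 < t) (huv : u ≠ v) (hut : u ≠ t)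
    (hvt : v ≠ t) (h0 : Dep u v) (h1 : Dep (u + 1) (t + 1)) (h2 : Dep (v + 2) (t + 2)) :
    False := by
  obtain ⟨d, x, y, hd, hx, hy, cxy, nxy, e1, e2⟩ := h0.base hu hv huv
  obtain ⟨e, i, j, he, hi, hj, cij, nij, e3, e4⟩ := h1.base (by omega) (by omega) (by omega)
  obtain ⟨w, k, l, hw, hk, hl, ckl, nkl, e5, e6⟩ := h2.base (by omega) (by omega) (by omega)
  exact hS d x y e i j w k l ⟨hd, he, hw, hx, hy, hi, hj, hk, hl, cxy, cij, ckl, nxy, nij, nkl,
    by rw [← e1, ← e3], by rw [← e4, ← e6], by rw [← e2, ← e5]⟩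

def LevequeStmt : Prop := ∀ d x y e i j : ℕ, 2 ≤ d → 1 ≤ x → x < y →
  d ^ x + 1 = e ^ i → d ^ y + 1 = e ^ j → d ^ x = 2 ∧ d ^ y = 8

def ShiftStmt : Prop := ∀ d x y e i j : ℕ, 2 ≤ d → 1 ≤ x → x < y →
  d ^ x + 2 = e ^ i → d ^ y + 2 = e ^ j → False

lemma leveque_dep (hL : LevequeStmt) {a b : ℕ} (ha : 1 < a) (hab : a < b)
    (h0 : Dep a b) (h1 : Dep (a + 1) (b + 1)) : a = 2 ∧ b = 8 := by
  obtain ⟨d, x, y, hd, hx, hy, -, -, e1, e2⟩ := h0.base ha (by omega) hab.ne
  obtain ⟨e, i, j, he, hi, hj, -, -, e3, e4⟩ := h1.base (by omega) (by omega) (by omega)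
  have hxy : x < y := by
    rw [e1, e2] at hab
    exact (Nat.pow_lt_pow_iff_right (by omega)).1 hab
  have := hL d x y e i j hd hx hxy (by rw [← e1, ← e3]) (by rw [← e2, ← e4])
  rw [← e1, ← e2] at this
  exact this

lemma shift_dep (hL : ShiftStmt) {a b : ℕ} (ha : 1 < a) (hab : a < b)
    (h0 : Dep a b) (h1 : Dep (a + 2) (b + 2)) : False := by
  obtain ⟨d, x, y, hd, hx, hy, -, -, e1, e2⟩ := h0.base ha (by omega) hab.ne
  obtain ⟨e, i, j, he, hi, hj, -, -, e3, e4⟩ := h1.base (by omega) (by omega) (by omega)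
  have hxy : x < y := by
    rw [e1, e2] at hab
    exact (Nat.pow_lt_pow_iff_right (by omega)).1 hab
  exact hL d x y e i j hd hx hxy (by rw [← e1, ← e3]) (by rw [← e2, ← e4])

/-- the combinatorial core: no triple of integers -/
theorem core (hL : LevequeStmt) (hSh : ShiftStmt)
    (hS : ∀ d x y e i j w k l : ℕ, Sys d x y e i j w k l → False)
    (z : Fin 3 → ℕ) (hz : ∀ p, 1 < z p) (hinj : Function.Injective z)
    (h28 : ¬ ((∃ p, z p = 2) ∧ ∃ p, z p = 8))
    {p0 q0 p1 q1 p2 q2 : Fin 3} (n0 : p0 ≠ q0) (n1 : p1 ≠ q1) (n2 : p2 ≠ q2)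
    (d0 : Dep (z p0) (z q0)) (d1 : Dep (z p1 + 1) (z q1 + 1)) (d2 : Dep (z p2 + 2) (z q2 + 2)) :
    False := by
  -- no pair for 0,1
  have A01 : ∀ p q, p ≠ q → Dep (z p) (z q) → Dep (z p + 1) (z q + 1) → False := by
    intro p q hpq h0 h1
    rcases lt_or_gt_of_ne (fun h => hpq (hinj h) : z p ≠ z q) with h | h
    · obtain ⟨a, b⟩ := leveque_dep hL (hz p) h h0 h1
      exact h28 ⟨⟨p, a⟩, ⟨q, b⟩⟩
    · obtain ⟨a, b⟩ := leveque_dep hL (hz q) h h0.symm h1.symm
      exact h28 ⟨⟨q, a⟩, ⟨p, b⟩⟩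
  have A12 : ∀ p q, p ≠ q → Dep (z p + 1) (z q + 1) → Dep (z p + 2) (z q + 2) → False := by
    intro p q hpq h0 h1
    have hp := hz p
    have hq := hz q
    rcases lt_or_gt_of_ne (fun h => hpq (hinj h) : z p ≠ z q) with h | h
    · obtain ⟨a, b⟩ := leveque_dep hL (a := z p + 1) (b := z q + 1) (by omega) (by omega) h0 h1
      omega
    · obtain ⟨a, b⟩ := leveque_dep hL (a := z q + 1) (b := z p + 1) (by omega) (by omega)
        h0.symm h1.symm
      omega
  have A02 : ∀ p q, p ≠ q → Dep (z p) (z q) → Dep (z p + 2) (z q + 2) → False := by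
    intro p q hpq h0 h1
    rcases lt_or_gt_of_ne (fun h => hpq (hinj h) : z p ≠ z q) with h | h
    · exact shift_dep hSh (hz p) h h0 h1
    · exact shift_dep hSh (hz q) h h0.symm h1.symm
  have B : ∀ p q r, p ≠ q → p ≠ r → q ≠ r → Dep (z p) (z q) → Dep (z p + 1) (z r + 1) →
      Dep (z q + 2) (z r + 2) → False := by
    intro p q r hpq hpr hqr h0 h1 h2
    exact triple_false hS (hz p) (hz q) (hz r) (fun h => hpq (hinj h)) (fun h => hpr (hinj h))
      (fun h => hqr (hinj h)) h0 h1 h2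
  have s0 := d0.symm
  have s1 := d1.symm
  have s2 := d2.symm
  fin_cases p0 <;> fin_cases q0 <;> fin_cases p1 <;> fin_cases q1 <;> fin_cases p2 <;>
    fin_cases q2 <;>
    first
    | exact absurd rfl n0
    | exact absurd rfl n1
    | exact absurd rfl n2
    | exact A01 _ _ n0 d0 d1
    | exact A01 _ _ n0 d0 s1
    | exact A12 _ _ n1 d1 d2
    | exact A12 _ _ n1 d1 s2
    | exact A02 _ _ n0 d0 d2
    | exact A02 _ _ n0 d0 s2
    | exact B _ _ _ (by decide) (by decide) (by decide) d0 d1 d2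
    | exact B _ _ _ (by decide) (by decide) (by decide) d0 d1 s2
    | exact B _ _ _ (by decide) (by decide) (by decide) d0 s1 d2
    | exact B _ _ _ (by decide) (by decide) (by decide) d0 s1 s2
    | exact B _ _ _ (by decide) (by decide) (by decide) s0 d1 d2
    | exact B _ _ _ (by decide) (by decide) (by decide) s0 d1 s2
    | exact B _ _ _ (by decide) (by decide) (by decide) s0 s1 d2
    | exact B _ _ _ (by decide) (by decide) (by decide) s0 s1 s2

end Pool.Agent.Lib.MP_545343_nt.Q2
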