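import Pool.Agent.Lib.MP_545343_nt.Q2.Sys

/-!
# Lebesgue's theorem: `Z^2 + 1 = W^n` with `n >= 3` odd has no solution with `Z > 0`
-/

set_option autoImplicit false

namespace Pool.Agent.Lib.MP_545343_nt.Q2

namespace Leb

open Zsqrtd

/-- `γ = 1 + 2^s b^2 u + 2^(s+1) b v i`. -/
def G (b : ℤ) (s : ℕ) (γ : GaussianInt) (u : ℤ) : Prop :=
  γ.re = 1 + 2 ^ s * b ^ 2 * u ∧ ∃ v : ℤ, γ.im = 2 ^ (s + 1) * b * v

lemma G_mul {b c : ℤ} (hb : b = 2 * c) {s : ℕ} {γ δ : GaussianInt} {u w : ℤ}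
    (h1 : G b s γ u) (h2 : G b s δ w) : ∃ r : ℤ, G b s (γ * δ) r ∧ ∃ k : ℤ, r = u + w + 2 * k := by
  obtain ⟨h1r, v, h1i⟩ := h1
  obtain ⟨h2r, v', h2i⟩ := h2
  refine ⟨u + w + 2 ^ s * b ^ 2 * u * w - 2 ^ (s + 2) * v * v', ⟨?_, ?_⟩,
    2 ^ s * (2 * c ^ 2) * u * w - 2 ^ (s + 1) * v * v', ?_⟩
  · rw [Zsqrtd.re_mul, h1r, h2r, h1i, h2i]; ring
  · refine ⟨v' * (1 + 2 ^ s * b ^ 2 * u) + v * (1 + 2 ^ s * b ^ 2 * w), ?_⟩
    rw [Zsqrtd.im_mul, h1r, h2r, h1i, h2i]; ring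
  · rw [hb]; ring

lemma G_pow {b c : ℤ} (hb : b = 2 * c) {s : ℕ} {γ : GaussianInt} {u : ℤ}
    (h1 : G b s γ u) (t : ℕ) : ∃ r : ℤ, G b s (γ ^ t) r ∧ ∃ k : ℤ, r = t * u + 2 * k := by
  induction t with
  | zero =>
    refine ⟨0, ⟨?_, 0, ?_⟩, 0, ?_⟩
    · simp
    · simp
    · simp
  | succ t ih =>
    obtain ⟨r, hr, k, hk⟩ := ih
    obtain ⟨r', hr', k', hk'⟩ := G_mul hb hr h1
    refine ⟨r', by rw [pow_succ]; exact hr', k + k', ?_⟩
    rw [hk', hk]; push_cast; ring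

lemma G_sq {b c : ℤ} (hb : b = 2 * c) {s : ℕ} {γ : GaussianInt} {u : ℤ} (hu : Odd u)
    (h1 : G b s γ u) : ∃ r : ℤ, G b (s + 1) (γ ^ 2) r ∧ Odd r := by
  obtain ⟨h1r, v, h1i⟩ := h1
  obtain ⟨m, hm⟩ := hu
  refine ⟨u + 2 ^ (s + 1) * c ^ 2 * u ^ 2 - 2 ^ (s + 1) * v ^ 2, ⟨?_, ?_⟩,
    m + 2 ^ s * c ^ 2 * u ^ 2 - 2 ^ s * v ^ 2, ?_⟩
  · rw [pow_two γ, Zsqrtd.re_mul, h1r, h1i, hb]; ring
  · refine ⟨v * (1 + 2 ^ s * b ^ 2 * u), ?_⟩
    rw [pow_two γ, Zsqrtd.im_mul, h1r, h1i]; ring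
  · rw [hm]; ring

lemma G_two_pow {b c a : ℤ} (hb : b = 2 * c) (ha : a ^ 2 = 1) (s : ℕ) :
    ∃ r : ℤ, G b s ((⟨a, b⟩ : GaussianInt) ^ (2 ^ (s + 1))) r ∧ Odd r := by
  induction s with
  | zero =>
    refine ⟨-1, ⟨?_, a, ?_⟩, ⟨-1, by norm_num⟩⟩
    · rw [zero_add, pow_one, pow_two, Zsqrtd.re_mul]
      simp only
      linear_combination ha
    · rw [zero_add, pow_one, pow_two, Zsqrtd.im_mul]
      simp only
      ring
  | succ s ih =>
    obtain ⟨r, hr, ho⟩ := ih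
    rw [pow_succ 2 (s + 1), pow_mul]
    exact G_sq hb ho hr

lemma key {a b : ℤ} {n : ℕ} (ha : a ^ 2 = 1) (hb : Even b) (hb0 : b ≠ 0) (hn : Odd n)
    (hn3 : 3 ≤ n) (h : ((⟨a, b⟩ : GaussianInt) ^ n).re = 1) : False := by
  obtain ⟨c, hc⟩ := hb
  have hc : b = 2 * c := by rw [hc]; ring
  obtain ⟨k, t, hto, hkt⟩ := Nat.exists_eq_two_pow_mul_odd (n := n - 1) (by omega)
  have hk : k ≠ 0 := by
    rintro rfl
    rw [pow_zero, one_mul] at hkt
    obtain ⟨m, hm⟩ := hn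
    obtain ⟨m', hm'⟩ := hto
    omega
  obtain ⟨s, rfl⟩ := Nat.exists_eq_succ_of_ne_zero hk
  obtain ⟨r, hr, m, hm⟩ := G_two_pow (a := a) hc ha s
  obtain ⟨r', hr', m', hm'⟩ := G_pow hc hr t
  obtain ⟨q, hq⟩ := hto
  rw [← pow_mul] at hr'
  have hn' : n = 2 ^ (s + 1) * t + 1 := by
    have : n - 1 + 1 = n := by omega
    rw [← this, hkt]
  rw [hn', pow_succ, Zsqrtd.re_mul] at h
  obtain ⟨h1, v, h2⟩ := hr'
  rw [h1, h2] at h
  simp only at h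
  have h3 : r' = 2 * ((2 * q + 1) * m + q + m') + 1 := by
    rw [hm', hm, hq]; push_cast; ring
  have ha' : a = 1 ∨ a = -1 := by
    have h0 : (a - 1) * (a + 1) = 0 := by linear_combination ha
    rcases mul_eq_zero.1 h0 with h0 | h0
    · left; linarith
    · right; linarith
  rcases ha' with rfl | rfl
  · have h4 : 2 ^ s * b ^ 2 * (r' - 2 * v) = 0 := by linear_combination h
    rcases mul_eq_zero.1 h4 with h5 | h5
    · rcases mul_eq_zero.1 h5 with h6 | h6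
      · exact pow_ne_zero s (by norm_num : (2 : ℤ) ≠ 0) h6
      · exact hb0 (pow_eq_zero_iff (two_ne_zero) |>.1 h6)
    · omega
  · have h4 : 2 ^ s * (2 * c ^ 2) * (r' + 2 * v) = -1 := by
      have : 2 * (2 ^ s * (2 * c ^ 2) * (r' + 2 * v)) = 2 * (-1) := by
        rw [hc] at h; linear_combination -h
      exact mul_left_cancel₀ two_ne_zero this
    have h5 : 2 * (2 ^ s * c ^ 2 * (r' + 2 * v)) = -1 := by linear_combination h4
    omega

lemma unit_pow (u : GaussianInt) (hu : u.re ^ 2 + u.im ^ 2 = 1) {n : ℕ} (hn : Odd n) :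
    ∃ w : GaussianInt, w ^ n = u := by
  have h4 : u ^ 4 = 1 := by
    have h0 : u.re = 0 ∨ u.im = 0 := by
      by_contra hne
      push Not at hne
      have h1 : 0 < u.re ^ 2 := by have := hne.1; positivity
      have h2 : 0 < u.im ^ 2 := by have := hne.2; positivity
      omega
    have hu2 : u * u = 1 ∨ u * u = -1 := by
      rcases h0 with h0 | h0
      · right
        rw [h0] at hu
        ext
        · rw [Zsqrtd.re_mul, h0]; simp; linear_combination hu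
        · rw [Zsqrtd.im_mul, h0]; simp
      · left
        rw [h0] at hu
        ext
        · rw [Zsqrtd.re_mul, h0]; simp; linear_combination hu
        · rw [Zsqrtd.im_mul, h0]; simp
    have : u ^ 4 = (u * u) * (u * u) := by ring
    rcases hu2 with h | h
    · rw [this, h]; ring
    · rw [this, h]; ring
  obtain ⟨m, hm⟩ := hn
  rcases Nat.even_or_odd' m with ⟨k, hk | hk⟩
  · refine ⟨u, ?_⟩
    rw [hm, hk, show 2 * (2 * k) + 1 = 4 * k + 1 by ring, pow_succ, pow_mul, h4, one_pow, one_mul]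
  · refine ⟨u ^ 3, ?_⟩
    rw [← pow_mul, hm, hk, show 3 * (2 * (2 * k + 1) + 1) = 4 * (3 * k + 2) + 1 by ring, pow_succ,
      pow_mul, h4, one_pow, one_mul]

end Leb

open Leb in
/-- Lebesgue's theorem, odd exponents. -/
theorem lebesgue : LebesgueStmt := by
  intro Z W n hn hn3 hZ h
  -- `Z` is even
  have hZe : Even Z := by
    by_contra hodd
    rw [Nat.not_even_iff_odd] at hodd
    obtain ⟨m, hm⟩ := hodd
    have hW : Even (W ^ n) := by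
      rw [← h, hm]; exact ⟨2 * m ^ 2 + 2 * m + 1, by ring⟩
    have hW2 : Even W := (Nat.even_pow.1 hW).1
    obtain ⟨r, hr⟩ := hW2
    have h4 : 4 ∣ W ^ n := by
      have : W ^ 2 ∣ W ^ n := pow_dvd_pow W (by omega)
      refine dvd_trans ?_ this
      exact ⟨r ^ 2, by rw [hr]; ring⟩
    rw [← h, hm] at h4
    have h5 : (2 * m + 1) ^ 2 + 1 = 4 * (m ^ 2 + m) + 2 := by ring
    omega
  obtain ⟨c, hc⟩ := hZe
  have hc' : (Z : ℤ) = 2 * c := by rw [hc]; push_cast; ring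
  have hZW : (Z : ℤ) ^ 2 + 1 = (W : ℤ) ^ n := by exact_mod_cast h
  -- coprimality
  have hcop : IsCoprime (⟨1, Z⟩ : GaussianInt) (⟨1, -Z⟩ : GaussianInt) := by
    refine ⟨⟨1 - 2 * c ^ 2, -Z⟩, ⟨-2 * c ^ 2, 0⟩, ?_⟩
    ext
    · simp only [Zsqrtd.re_add, Zsqrtd.re_mul, Zsqrtd.re_one]
      rw [hc']; ring
    · simp only [Zsqrtd.im_add, Zsqrtd.im_mul, Zsqrtd.im_one]
      rw [hc']; ring
  have hmul : (⟨1, Z⟩ : GaussianInt) * (⟨1, -Z⟩ : GaussianInt) = ((W : ℤ) : GaussianInt) ^ n := by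
    rw [← Int.cast_pow, ← hZW]
    ext
    · simp only [Zsqrtd.re_mul, Zsqrtd.re_intCast]; ring
    · simp only [Zsqrtd.im_mul, Zsqrtd.im_intCast]; ring
  obtain ⟨d, u, hu⟩ := exists_associated_pow_of_mul_eq_pow' hcop hmul
  have hun : (u : GaussianInt).re ^ 2 + (u : GaussianInt).im ^ 2 = 1 := by
    have h1 : (u : GaussianInt).norm.natAbs = 1 := Zsqrtd.norm_eq_one_iff.2 u.isUnit
    have h2 : 0 ≤ (u : GaussianInt).norm := Zsqrtd.norm_nonneg (by norm_num) _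
    have h3 : (u : GaussianInt).norm = 1 := by omega
    rw [Zsqrtd.norm_def] at h3
    linear_combination h3
  obtain ⟨w, hw⟩ := unit_pow (u : GaussianInt) hun hn
  obtain ⟨α, hα⟩ : ∃ α : GaussianInt, α ^ n = ⟨1, Z⟩ := ⟨d * w, by rw [mul_pow, hw, hu]⟩
  obtain ⟨a, b⟩ := α
  -- `a = ± 1`
  have ha : a ^ 2 = 1 := by
    have h1 : (⟨a, b⟩ : GaussianInt) + star (⟨a, b⟩ : GaussianInt) ∣
        (⟨a, b⟩ : GaussianInt) ^ n + star (⟨a, b⟩ : GaussianInt) ^ n :=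
      hn.add_dvd_pow_add_pow _ _
    have h2 : (⟨a, b⟩ : GaussianInt) + star (⟨a, b⟩ : GaussianInt) = ((2 * a : ℤ) : GaussianInt) := by
      ext
      · simp; ring
      · simp
    have h3 : (⟨a, b⟩ : GaussianInt) ^ n + star (⟨a, b⟩ : GaussianInt) ^ n
        = ((2 : ℤ) : GaussianInt) := by
      rw [← star_pow, hα]
      ext
      · simp
      · simp
    rw [h2, h3, Zsqrtd.intCast_dvd_intCast] at h1
    obtain ⟨q, hq⟩ := h1
    have h4 : a ∣ 1 := ⟨q, by linarith⟩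
    rcases Int.isUnit_iff.1 (isUnit_of_dvd_one h4) with h5 | h5 <;> rw [h5] <;> norm_num
  have hnorm : (a ^ 2 + b ^ 2) ^ n = 1 + (Z : ℤ) ^ 2 := by
    have h1 : (((⟨a, b⟩ : GaussianInt) ^ n).norm) = (⟨1, Z⟩ : GaussianInt).norm := by rw [hα]
    rw [show ((⟨a, b⟩ : GaussianInt) ^ n).norm = (⟨a, b⟩ : GaussianInt).norm ^ n from
      map_pow (Zsqrtd.normMonoidHom (d := -1)) _ _, Zsqrtd.norm_def, Zsqrtd.norm_def] at h1
    simp only at h1
    rw [show a * a - -1 * b * b = a ^ 2 + b ^ 2 by ring] at h1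
    rw [h1]; ring
  have hbe : Even b := by
    by_contra hodd
    rw [Int.not_even_iff_odd] at hodd
    obtain ⟨m, hm⟩ := hodd
    have h1 : Even (a ^ 2 + b ^ 2) := by
      rw [ha, hm]; exact ⟨2 * m ^ 2 + 2 * m + 1, by ring⟩
    have h2 : Even ((a ^ 2 + b ^ 2) ^ n) := h1.pow_of_ne_zero (by omega)
    rw [hnorm, hc'] at h2
    obtain ⟨q, hq⟩ := h2
    have h3 : (2 * (c : ℤ)) ^ 2 = 2 * (2 * c ^ 2) := by ring
    omega
  have hb0 : b ≠ 0 := by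
    rintro rfl
    rw [ha] at hnorm
    have h1 : (Z : ℤ) ^ 2 = 0 := by
      have : ((1 : ℤ) + 0 ^ 2) ^ n = 1 := by norm_num
      rw [this] at hnorm
      linarith
    have h2 : (Z : ℤ) = 0 := pow_eq_zero_iff (two_ne_zero) |>.1 h1
    omega
  exact key ha hbe hb0 hn hn3 (by rw [hα])

end Pool.Agent.Lib.MP_545343_nt.Q2
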