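import Pool.Agent.Lib.MP_545343_nt.Q2.Sys

/-!
# LeVeque's theorem for two powers of one base followed by powers of another base
-/

set_option autoImplicit false

namespace Pool.Agent.Lib.MP_545343_nt.Q2

lemma geom_gt {F n : ℕ} (hF : 2 ≤ F) (hn : 2 ≤ n) : n * (F - 1) < F ^ n - 1 := by
  have key : ∀ n, 2 ≤ n → n * (F - 1) + 1 < F ^ n := by
    intro n hn
    induction n, hn using Nat.le_induction with
    | base =>
      obtain ⟨a, rfl⟩ : ∃ a, F = a + 2 := ⟨F - 2, by omega⟩
      have : a + 2 - 1 = a + 1 := by omega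
      rw [this]
      nlinarith
    | succ n hn ih =>
      rw [pow_succ]
      obtain ⟨a, rfl⟩ : ∃ a, F = a + 2 := ⟨F - 2, by omega⟩
      have h1 : a + 2 - 1 = a + 1 := by omega
      rw [h1] at ih ⊢
      have h2 : (n * (a + 1) + 2) * (a + 2) ≤ (a + 2) ^ n * (a + 2) :=
        Nat.mul_le_mul_right _ (by omega)
      have h3 : 0 ≤ n * (a + 1) * (a + 1) := Nat.zero_le _
      nlinarith [h2, h3]
  have := key n hn
  omega

lemma core_odd {f m : ℕ} (hf : 2 ≤ f) (hm : Odd m) (hm2 : 2 ≤ m)
    (hr : ∀ p : ℕ, p.Prime → p ∣ f ^ m - 1 → p ∣ f - 1) : False := by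
  have h1 : 1 < f ^ m := Nat.one_lt_pow (by omega) (by omega)
  have hdvd : f ^ m - 1 ∣ (f - 1) * m := by
    rw [← Nat.factorization_prime_le_iff_dvd (by omega) (Nat.mul_ne_zero (by omega) (by omega))]
    intro p hp
    have : Fact p.Prime := ⟨hp⟩
    rw [Nat.factorization_mul (by omega) (by omega), Finsupp.add_apply,
      Nat.factorization_def _ hp, Nat.factorization_def _ hp, Nat.factorization_def _ hp]
    by_cases hd : p ∣ f ^ m - 1
    · have hpf := hr p hp hd
      have hpf' : ¬ p ∣ f := by
        intro h
        have h2 : p ∣ 1 := by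
          have := (Nat.dvd_sub h hpf)
          rwa [Nat.sub_sub_self (by omega)] at this
        exact hp.one_lt.ne' (Nat.dvd_one.1 h2)
      rcases hp.eq_two_or_odd' with rfl | hodd
      · have hfo : Odd f := by
          rcases Nat.even_or_odd f with h | h
          · exact absurd h.two_dvd hpf'
          · exact h
        have hgs : f ^ m - 1 = (f - 1) * ∑ i ∈ Finset.range m, f ^ i := by
          have := Nat.geomSum_eq hf m
          have h3 := geom_sum_mul_of_one_le (show 1 ≤ f by omega) m
          rw [← h3, mul_comm]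
        have hso : Odd (∑ i ∈ Finset.range m, f ^ i) := by
          rw [Finset.odd_sum_iff_odd_card_odd]
          have : (Finset.range m).filter (fun i => Odd (f ^ i)) = Finset.range m := by
            apply Finset.filter_true_of_mem
            intro i _
            exact hfo.pow
          rw [this, Finset.card_range]
          exact hm
        rw [hgs, padicValNat.mul (by omega) (by
          intro h; rw [h] at hso; exact absurd hso (by decide))]
        have : padicValNat 2 (∑ i ∈ Finset.range m, f ^ i) = 0 :=
          padicValNat.eq_zero_of_not_dvd (by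
            intro h
            exact (Nat.not_even_iff_odd.2 hso) (even_iff_two_dvd.2 h))
        omega
      · have h3 := padicValNat.pow_sub_pow (p := p) hodd (y := 1) (x := f) (by omega) hpf hpf'
          (n := m) (by omega)
        rw [one_pow] at h3
        omega
    · rw [padicValNat.eq_zero_of_not_dvd hd]
      exact Nat.zero_le _
  have h2 := Nat.le_of_dvd (Nat.mul_pos (by omega) (by omega)) hdvd
  have h3 := geom_gt hf hm2
  rw [mul_comm] at h3
  omega

lemma core_even {f n : ℕ} (hf : 2 ≤ f) (hn : 2 ≤ n)
    (hr : ∀ p : ℕ, p.Prime → p ∣ f ^ (2 * n) - 1 → p ∣ f - 1) : False := by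
  have h1 : 1 < f ^ (2 * n) := Nat.one_lt_pow (by omega) (by omega)
  have hf2 : 4 ≤ f ^ 2 := by nlinarith
  have hfac : f ^ 2 - 1 = (f + 1) * (f - 1) := by
    have := Nat.sq_sub_sq f 1
    rwa [one_pow] at this
  have hdvd : 2 * (f ^ (2 * n) - 1) ∣ (f ^ 2 - 1) * (2 * n) := by
    rw [← Nat.factorization_prime_le_iff_dvd (by omega) (Nat.mul_ne_zero (by omega) (by omega))]
    intro p hp
    have : Fact p.Prime := ⟨hp⟩
    rw [hfac, Nat.factorization_mul (by omega) (by omega),
      Nat.factorization_mul (Nat.mul_ne_zero (by omega) (by omega)) (by omega),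
      Nat.factorization_mul (by omega) (by omega), Finsupp.add_apply, Finsupp.add_apply,
      Finsupp.add_apply, Nat.factorization_def _ hp, Nat.factorization_def _ hp,
      Nat.factorization_def _ hp, Nat.factorization_def _ hp, Nat.factorization_def _ hp]
    rcases hp.eq_two_or_odd' with rfl | hodd
    · have h22 : padicValNat 2 2 = 1 := padicValNat.self (by norm_num)
      have h2n : padicValNat 2 (2 * n) = 1 + padicValNat 2 n := by
        rw [padicValNat.mul (by norm_num) (by omega), h22]
      by_cases hd : 2 ∣ f ^ (2 * n) - 1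
      · have hpf := hr 2 hp hd
        have h3 := padicValNat.pow_two_sub_pow (x := f) (y := 1) (by omega) hpf (by omega)
          (n := 2 * n) (by omega) (even_two_mul n)
        rw [one_pow] at h3
        omega
      · rw [padicValNat.eq_zero_of_not_dvd hd]
        omega
    · have h20 : padicValNat p 2 = 0 := by
        apply padicValNat.eq_zero_of_not_dvd
        intro h
        have := (Nat.prime_dvd_prime_iff_eq hp Nat.prime_two).1 h
        rw [this] at hodd
        exact absurd hodd (by decide)
      rw [h20]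
      by_cases hd : p ∣ f ^ (2 * n) - 1
      · have hpf := hr p hp hd
        have hpf' : ¬ p ∣ f := by
          intro h
          have h2 : p ∣ 1 := by
            have := (Nat.dvd_sub h hpf)
            rwa [Nat.sub_sub_self (by omega)] at this
          exact hp.one_lt.ne' (Nat.dvd_one.1 h2)
        have h3 := padicValNat.pow_sub_pow (p := p) hodd (y := 1) (x := f) (by omega) hpf hpf'
          (n := 2 * n) (by omega)
        rw [one_pow] at h3
        omega
      · rw [padicValNat.eq_zero_of_not_dvd hd]
        omega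
  have h2 := Nat.le_of_dvd (Nat.mul_pos (by omega) (by omega)) hdvd
  have h3 := geom_gt (F := f ^ 2) (by omega) hn
  rw [← pow_mul] at h3
  have h4 : (f ^ 2 - 1) * (2 * n) = 2 * (n * (f ^ 2 - 1)) := by ring
  omega

theorem leveque {d x y e i j : ℕ} (hd : 2 ≤ d) (hx : 1 ≤ x) (hxy : x < y)
    (h1 : d ^ x + 1 = e ^ i) (h2 : d ^ y + 1 = e ^ j) : d ^ x = 2 ∧ d ^ y = 8 := by
  have hdx : 2 ≤ d ^ x := le_trans hd (Nat.le_self_pow (by omega) d)
  have hlt : d ^ x < d ^ y := Nat.pow_lt_pow_right (by omega) hxy
  have he : 2 ≤ e := by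
    by_contra h
    have : e ≤ 1 := by omega
    have h3 : e ^ i ≤ 1 := pow_le_one₀ (by omega) (by omega)
    omega
  have hi : 1 ≤ i := by
    rcases Nat.eq_zero_or_pos i with rfl | h
    · rw [pow_zero] at h1; omega
    · exact h
  have hij : i < j := (Nat.pow_lt_pow_iff_right (by omega)).1 (by omega : e ^ i < e ^ j)
  obtain ⟨g, i', j', hg, hc, rfl, rfl⟩ := Nat.exists_coprime' (m := i) (n := j) (by
    exact Nat.gcd_pos_of_pos_left _ hi)
  have hi' : 1 ≤ i' := by
    rcases Nat.eq_zero_or_pos i' with rfl | h
    · rw [zero_mul] at hi; omega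
    · exact h
  have hij' : i' < j' := lt_of_mul_lt_mul_right hij (Nat.zero_le g)
  set f := e ^ g with hf
  have hf2 : 2 ≤ f := le_trans he (Nat.le_self_pow (by omega) e)
  have h1' : d ^ x + 1 = f ^ i' := by rw [h1, hf, ← pow_mul, mul_comm]
  have h2' : d ^ y + 1 = f ^ j' := by rw [h2, hf, ← pow_mul, mul_comm]
  have hr : ∀ p : ℕ, p.Prime → p ∣ f ^ j' - 1 → p ∣ f - 1 := by
    intro p hp hpd
    have : Fact p.Prime := ⟨hp⟩
    rw [← h2', Nat.add_sub_cancel] at hpd
    have hpd' : p ∣ d := hp.dvd_of_dvd_pow hpd
    have h3 : (d : ZMod p) = 0 := (ZMod.natCast_eq_zero_iff _ _).2 hpd'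
    have h4 : ((d ^ x + 1 : ℕ) : ZMod p) = ((f ^ i' : ℕ) : ZMod p) := by rw [h1']
    have h5 : ((d ^ y + 1 : ℕ) : ZMod p) = ((f ^ j' : ℕ) : ZMod p) := by rw [h2']
    push_cast at h4 h5
    rw [h3, zero_pow (by omega), zero_add] at h4 h5
    exact (zmod_eq_one_iff (by omega)).1 (zmod_one_of_coprime hc h4.symm h5.symm)
  rcases Nat.even_or_odd j' with ⟨n, hn⟩ | hodd
  · rw [← two_mul] at hn
    subst hn
    rcases Nat.lt_or_ge n 2 with hn2 | hn2
    · have hn1 : n = 1 := by omega
      subst hn1
      have hi1 : i' = 1 := by omega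
      subst hi1
      rw [pow_one] at h1'
      rw [mul_one] at h2'
      have h3 : d ^ y = d ^ x * (d ^ x + 2) := by
        have : d ^ y + 1 = (d ^ x + 1) ^ 2 := by rw [h2', h1']
        nlinarith
      have h4 : d ^ y = d ^ x * d ^ (y - x) := by rw [← pow_add]; congr 1; omega
      have h5 : d ^ (y - x) = d ^ x + 2 := by
        have := h4.symm.trans h3
        exact Nat.eq_of_mul_eq_mul_left (by omega) this
      have h6 : d ∣ 2 := by
        have ha : d ∣ d ^ (y - x) := dvd_pow_self d (by omega)
        have hb : d ∣ d ^ x := dvd_pow_self d (by omega)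
        rw [h5] at ha
        exact (Nat.dvd_add_right hb).1 ha
      have h7 : d = 2 := by have := Nat.le_of_dvd (by norm_num) h6; omega
      subst h7
      rcases Nat.lt_or_ge x 2 with hx2 | hx2
      · have hx1 : x = 1 := by omega
        subst hx1
        rw [pow_one] at h3 ⊢
        exact ⟨rfl, h3⟩
      · exfalso
        have ha : 4 ∣ 2 ^ x := by
          have := pow_dvd_pow 2 hx2
          simpa using this
        rcases Nat.lt_or_ge (y - x) 2 with hyx | hyx
        · have : y - x = 1 := by omega
          rw [this, pow_one] at h5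
          omega
        · have hb : 4 ∣ 2 ^ (y - x) := by
            have := pow_dvd_pow 2 hyx
            simpa using this
          omega
    · exact (core_even hf2 hn2 hr).elim
  · exact (core_odd hf2 hodd (by omega) hr).elim

end Pool.Agent.Lib.MP_545343_nt.Q2
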