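import Pool.Agent.Lib.MP_545343_nt.Q2.Sys
import Pool.Agent.Lib.MP_545343_nt.Basic

/-!
# The case `d`, `x`, `y`, `k` odd, `l` even
-/

set_option autoImplicit false

namespace Pool.Agent.Lib.MP_545343_nt.Q2

/-- `s` is good if `3 s^4 - 3 s^2 + 1` is not a square. -/
def b1Good (s : ℕ) : Bool :=
  let m := 3 * s ^ 4 - 3 * s ^ 2 + 1
  decide (Nat.sqrt m * Nat.sqrt m ≠ m)

def b1Check (n : ℕ) : Bool := (List.range n).all fun s => b1Good (s + 2)

set_option maxRecDepth 100000 in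
lemma b1Check_true : b1Check 1030 = true := by decide +kernel

lemma b1_small {s t : ℕ} (hs : 2 ≤ s) (hs2 : s < 1030) (h : t ^ 2 + 3 * s ^ 2 = 3 * s ^ 4 + 1) :
    False := by
  have h1 := b1Check_true
  rw [b1Check, List.all_eq_true] at h1
  have h2 := h1 (s - 2) (List.mem_range.2 (by omega))
  rw [show s - 2 + 2 = s by omega, b1Good] at h2
  have h3 : 3 * s ^ 4 - 3 * s ^ 2 + 1 = t * t := by
    have h4 : 3 * s ^ 2 ≤ 3 * s ^ 4 := by
      have : s ^ 2 ≤ s ^ 4 := Nat.pow_le_pow_right (by omega) (by norm_num)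
      omega
    have h5 : t ^ 2 = t * t := sq t
    omega
  simp only [h3, Nat.sqrt_eq, ne_eq, not_true_eq_false, decide_false] at h2
  exact absurd h2 (by simp)

/-- In `Z^2 = e^3 + 1` with `Z = 3 mod 4`, `9` does not divide `Z`. -/
lemma b1_sq_not_div9 {Z e : ℕ} (hZ : Z ^ 2 = e ^ 3 + 1) (hZ4 : Z % 4 = 3) (he : Even e)
    (h9 : 9 ∣ Z) : False := by
  obtain ⟨f, hf⟩ := he
  have hf2 : e = 2 * f := by omega
  obtain ⟨a, ha⟩ : ∃ a, Z = 4 * a + 3 := ⟨Z / 4, by omega⟩
  -- `(Z - 1) / 2 = 2 a + 1`, `(Z + 1) / 4 = a + 1`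
  have hprod : (2 * a + 1) * (a + 1) = f ^ 3 := by
    have h1 : (4 * a + 3) ^ 2 = (2 * f) ^ 3 + 1 := by rw [← ha, ← hf2]; exact hZ
    have h2 : (4 * a + 3) ^ 2 = 8 * ((2 * a + 1) * (a + 1)) + 1 := by ring
    have h3 : (2 * f) ^ 3 = 8 * f ^ 3 := by ring
    omega
  have hco : Nat.Coprime (2 * a + 1) (a + 1) := by
    have : 2 * a + 1 = a + (a + 1) := by ring
    rw [this, Nat.coprime_add_self_left, Nat.coprime_self_add_right]
    exact Nat.coprime_one_right _
  obtain ⟨A, hA⟩ : ∃ A, 2 * a + 1 = A ^ 3 := by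
    apply exists_eq_pow_of_mul_eq_pow (b := a + 1) (c := f) _ hprod
    rw [Nat.isUnit_iff]
    exact hco
  have h4 : 2 * A ^ 3 + 1 = Z := by omega
  obtain ⟨c, hc⟩ := h9
  have hA9 : A % 9 = 0 ∨ A % 9 = 1 ∨ A % 9 = 2 ∨ A % 9 = 3 ∨ A % 9 = 4 ∨ A % 9 = 5 ∨
      A % 9 = 6 ∨ A % 9 = 7 ∨ A % 9 = 8 := by omega
  have h5 : (2 * A ^ 3 + 1) % 9 = 0 := by omega
  rcases hA9 with h | h | h | h | h | h | h | h | h <;>
    simp [Nat.add_mod, Nat.mul_mod, Nat.pow_mod, h] at h5

/-- The analytic part. -/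
lemma b1_analytic {d x y w k : ℕ} (hd : 25 ≤ d) (hx : Odd x) (hk : Odd k)
    (hy : 1 ≤ y) (hw : w ^ 2 = (d ^ x + 1) ^ 3 + 1) (h3 : d ^ y + 2 = w ^ k) :
    d ^ x < 3168000 := by
  by_contra hN
  push Not at hN
  have hx1 : 1 ≤ x := hx.pos
  have hk1 : 1 ≤ k := hk.pos
  set N : ℝ := (d : ℝ) ^ x with hNdef
  have hdR : (25 : ℝ) ≤ d := by exact_mod_cast hd
  have hd0 : (0 : ℝ) < d := by linarith
  have hN1 : (3168000 : ℝ) ≤ N := by
    rw [hNdef]
    have : ((3168000 : ℕ) : ℝ) ≤ ((d ^ x : ℕ) : ℝ) := Nat.cast_le.2 hN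
    push_cast at this
    exact this
  have hN0 : 0 < N := by linarith
  set L : ℝ := Real.log d with hL
  set M : ℝ := Real.log N with hM
  have hMx : M = x * L := by rw [hM, hNdef, Real.log_pow]
  have hexp3 : Real.exp 3 ≤ 25 := by
    have h1 : Real.exp 3 = (Real.exp 1) ^ 3 := by rw [← Real.exp_nat_mul]; norm_num
    rw [h1]
    have h2 := Real.exp_one_lt_d9
    have h3 : (0 : ℝ) < Real.exp 1 := Real.exp_pos 1
    calc (Real.exp 1) ^ 3 ≤ (2.7182818286 : ℝ) ^ 3 := by
          apply pow_le_pow_left₀ h3.le h2.le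
      _ ≤ 25 := by norm_num
  have hL3 : 3 ≤ L := by
    rw [hL, Real.le_log_iff_exp_le hd0]
    linarith
  have hxR : (1 : ℝ) ≤ x := by exact_mod_cast hx1
  have hML : L ≤ M := by rw [hMx]; nlinarith
  have hM3 : 3 ≤ M := by linarith
  have hkR : (1 : ℝ) ≤ k := by exact_mod_cast hk1
  have hyR : (1 : ℝ) ≤ y := by exact_mod_cast hy
  -- `w`
  have hw0 : 1 ≤ w := by
    rcases Nat.eq_zero_or_pos w with h | h
    · rw [h] at hw
      norm_num at hw
    · exact h
  have hwR : (0 : ℝ) < w := by exact_mod_cast hw0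
  have hw' : (w : ℝ) ^ 2 = (N + 1) ^ 3 + 1 := by
    rw [hNdef]
    exact_mod_cast hw
  set W : ℝ := Real.log w with hW
  have hW2 : 2 * W = Real.log ((N + 1) ^ 3 + 1) := by
    rw [← hw', Real.log_pow, hW]; norm_num
  have hWle : W ≤ 33 / 20 * M := by
    have h1 : (N + 1) ^ 3 + 1 ≤ 2 * N ^ 3 := by
      have : 0 ≤ (N - 3168000) := by linarith
      have h5 : 2 * N ^ 3 - ((N + 1) ^ 3 + 1) = N ^ 2 * (N - 4) + (N - 3) * N - 2 := by ring
      have h6 : 0 ≤ N ^ 2 * (N - 4) := by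
        apply mul_nonneg (by positivity) (by linarith)
      have h7 : 2 ≤ (N - 3) * N := by nlinarith
      linarith
    have h2 : Real.log ((N + 1) ^ 3 + 1) ≤ Real.log (2 * N ^ 3) :=
      Real.log_le_log (by positivity) h1
    have h3 : Real.log (2 * N ^ 3) = Real.log 2 + 3 * M := by
      rw [Real.log_mul (by norm_num) (by positivity), Real.log_pow, hM]; norm_num
    have h4 := Real.log_two_lt_d9
    linarith
  have hWpos : 0 < W := by
    have h1 : (N + 1) ^ 3 + 1 > 1 := by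
      have : 0 < (N + 1) ^ 3 := by positivity
      linarith
    have := Real.log_pos h1
    linarith
  have hWup : 2 * W ≤ 3 * M + 4 / N := by
    have h1 : Real.log ((N + 1) ^ 3 + 1) ≤ 3 * Real.log (N + 1) + 1 / N := by
      have e1 : (N + 1) ^ 3 + 1 = (N + 1) ^ 3 * (1 + 1 / (N + 1) ^ 3) := by
        field_simp
      rw [e1, Real.log_mul (by positivity) (by positivity), Real.log_pow]
      have h2 : Real.log (1 + 1 / (N + 1) ^ 3) ≤ 1 / (N + 1) ^ 3 := by
        have := Real.log_le_sub_one_of_pos (x := 1 + 1 / (N + 1) ^ 3) (by positivity)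
        linarith
      have h3 : 1 / (N + 1) ^ 3 ≤ 1 / N := by
        apply one_div_le_one_div_of_le hN0
        nlinarith [sq_nonneg N, mul_pos hN0 hN0]
      push_cast
      linarith
    have h2 : Real.log (N + 1) ≤ M + 1 / N := by
      have e1 : N + 1 = N * (1 + 1 / N) := by field_simp
      rw [e1, Real.log_mul (by positivity) (by positivity)]
      have := Real.log_le_sub_one_of_pos (x := 1 + 1 / N) (by positivity)
      linarith
    rw [hW2]
    have e3 : 4 / N = 3 * (1 / N) + 1 / N := by ring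
    rw [e3]
    linarith
  have hWlo : 3 * M ≤ 2 * W := by
    rw [hW2]
    have e1 : 3 * M = Real.log (N ^ 3) := by rw [Real.log_pow, hM]; norm_num
    rw [e1]
    apply Real.log_le_log (by positivity)
    nlinarith [sq_nonneg N, mul_pos hN0 hN0]
  -- `Y = d^y`
  set Y : ℝ := (d : ℝ) ^ y with hYdef
  have hY25 : (25 : ℝ) ≤ Y := by
    calc (25 : ℝ) ≤ d := hdR
      _ = (d : ℝ) ^ 1 := (pow_one _).symm
      _ ≤ (d : ℝ) ^ y := pow_le_pow_right₀ (by linarith) hy
  have hY0 : 0 < Y := by linarith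
  have h3' : Y + 2 = (w : ℝ) ^ k := by
    rw [hYdef]; exact_mod_cast h3
  have hkW : k * W = Real.log (Y + 2) := by rw [h3', Real.log_pow]
  have hyL : y * L = Real.log Y := by rw [hYdef, Real.log_pow]
  have hlow : y * L ≤ k * W := by
    rw [hkW, hyL]
    exact Real.log_le_log hY0 (by linarith)
  have hupp : k * W ≤ y * L + 2 / Y := by
    rw [hkW, hyL]
    have e1 : Y + 2 = Y * (1 + 2 / Y) := by field_simp
    rw [e1, Real.log_mul (by positivity) (by positivity)]
    have := Real.log_le_sub_one_of_pos (x := 1 + 2 / Y) (by positivity)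
    linarith
  have h2Y : 2 / Y ≤ 2 / 25 := by
    apply div_le_div_of_nonneg_left (by norm_num) (by norm_num) hY25
  have hkM : 3 * (k * M) ≤ 2 * (k * W) := by nlinarith
  have hkM' : 2 * (k * W) ≤ 3 * (k * M) + k * (4 / N) := by nlinarith
  have hkx : k * M = (k * x : ℝ) * L := by rw [hMx]; ring
  have hodd : Odd (3 * (k * x)) := by
    have : Odd (k * x) := hk.mul hx
    exact (by decide : Odd 3).mul this
  rcases Nat.lt_trichotomy (2 * y) (3 * (k * x)) with hlt | heq | hgt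
  · -- `D < 0`
    have h1 : (2 * y + 1 : ℝ) ≤ 3 * (k * x) := by exact_mod_cast hlt
    have h2 : (2 * y + 1 : ℝ) * L ≤ 3 * (k * x) * L :=
      mul_le_mul_of_nonneg_right h1 (by linarith)
    have h4 : 3 * (k * x : ℝ) * L = 3 * (k * M) := by rw [hkx]; ring
    rw [h4] at h2
    nlinarith
  · rw [← heq] at hodd
    exact absurd hodd (by simp)
  · have h1 : (3 * (k * x) + 1 : ℝ) ≤ 2 * y := by exact_mod_cast hgt
    have h2 : (3 * (k * x) + 1 : ℝ) * L ≤ 2 * y * L :=
      mul_le_mul_of_nonneg_right h1 (by linarith)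
    have h4 : 3 * (k * x : ℝ) * L = 3 * (k * M) := by rw [hkx]; ring
    have hLk : L ≤ k * (4 / N) := by nlinarith
    have hNLk : N * L ≤ 4 * k := by
      have : N * L ≤ N * (k * (4 / N)) := mul_le_mul_of_nonneg_left hLk hN0.le
      have e : N * (k * (4 / N)) = 4 * k := by field_simp
      linarith
    have hyNM : 3 / 8 * (N * M) ≤ y := by
      have e1 : N * M = x * (N * L) := by rw [hMx]; ring
      have e2 : x * (N * L) ≤ x * (4 * k) := mul_le_mul_of_nonneg_left hNLk (by linarith)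
      rw [e1]
      nlinarith
    -- apply the linear forms estimate
    have hw3 : 3 ≤ w := by
      by_contra hlt
      have hw2 : w ^ 2 ≤ 2 ^ 2 := Nat.pow_le_pow_left (by omega) 2
      have : (w : ℝ) ^ 2 ≤ 2 ^ 2 := by exact_mod_cast hw2
      rw [hw'] at this
      have : 0 < (N + 1) ^ 3 := by positivity
      nlinarith [sq_nonneg N, mul_pos hN0 hN0]
    refine pillai_two hw3 (by omega) hk1 hy h3.symm ?_ ?_
    · -- `720000 W ≤ y`
      have h5 : 720000 * W ≤ 1188000 * M := by linarith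
      have h6 : 1188000 * M ≤ 3 / 8 * (N * M) := by nlinarith
      linarith
    · have h5 : N / 1980 ≤ y / (450 * W) := by
        rw [le_div_iff₀ (by positivity)]
        have h6 : N / 1980 * (450 * W) ≤ N / 1980 * (450 * (33 / 20 * M)) := by
          apply mul_le_mul_of_nonneg_left _ (by positivity)
          linarith
        have h7 : N / 1980 * (450 * (33 / 20 * M)) = 3 / 8 * (N * M) := by ring
        linarith
      have h6 : (N / 1980) ^ 3 ≤ (y / (450 * W)) ^ 3 :=
        pow_le_pow_left₀ (by positivity) h5 3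
      refine le_trans ?_ h6
      have h7 : W * L ≤ 33 / 20 * M * M :=
        mul_le_mul hWle hML (by linarith) (by positivity)
      have h8 : M ^ 2 ≤ 4 * N := by
        have h9 : Real.log (Real.sqrt N) ≤ Real.sqrt N := by
          have := Real.log_le_sub_one_of_pos (Real.sqrt_pos.2 hN0)
          linarith
        rw [Real.log_sqrt hN0.le] at h9
        have h10 : M ≤ 2 * Real.sqrt N := by linarith
        have h11 : M ^ 2 ≤ (2 * Real.sqrt N) ^ 2 :=
          pow_le_pow_left₀ (by linarith) h10 2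
        rw [mul_pow, Real.sq_sqrt hN0.le] at h11
        linarith
      have h9 : 160 * (W * L) ≤ 1056 * N := by nlinarith
      refine h9.trans ?_
      have h10 : (N / 1980) ^ 3 = N * (N ^ 2 / 1980 ^ 3) := by ring
      rw [h10, mul_comm (1056 : ℝ)]
      apply mul_le_mul_of_nonneg_left _ hN0.le
      rw [le_div_iff₀ (by norm_num)]
      nlinarith

/-- The case `d`, `x`, `y`, `k` odd, `l` even. -/
theorem oddB1_case (hC : CheinStmt) (hQ : CubeStmt) : OddB1Stmt := by
  intro d x y e i j w k l S hd hx hy hk hl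
  have : Fact (Nat.Prime 2) := ⟨Nat.prime_two⟩
  have hee := S.even_e hd
  have hwo := S.odd_w hd
  have he2 := S.he
  have hw2 := S.hw
  have hd2 := S.hd
  obtain ⟨v1, v2, v3⟩ := S.val_two hd
  have hν : 1 ≤ padicValNat 2 e :=
    one_le_padicValNat_of_dvd (by omega) hee.two_dvd
  have w1 := val_two_pow_sub_one hwo hw2 hk
  have hiv : padicValNat 2 (w - 1) = i * padicValNat 2 e := by
    rw [← w1, v2 hy, ← v1 hx]
  obtain ⟨m, hm⟩ := hl
  have hl2 : l = 2 * m := by omega
  have hm1 : 1 ≤ m := by have := S.hl; omega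
  -- `Z = w^m`
  have hZ : (w ^ m) ^ 2 = e ^ j + 1 := by
    rw [S.h2, hl2, ← pow_mul, mul_comm]
  have hZodd : Odd (w ^ m) := hwo.pow
  have hZ2 : 2 ≤ w ^ m := by
    calc 2 ≤ w := hw2
      _ = w ^ 1 := (pow_one w).symm
      _ ≤ w ^ m := Nat.pow_le_pow_right (by omega) hm1
  have hij : i < j := by
    -- `w^l - 1` is divisible by `2 (w - 1)`
    have h1 : 2 * (w - 1) ∣ w ^ l - 1 := by
      have h2 : w ^ 2 - 1 ∣ w ^ l - 1 := by
        have := Nat.sub_dvd_pow_sub_pow (w ^ 2) 1 m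
        rwa [one_pow, ← pow_mul, ← hl2] at this
      have h3 : w ^ 2 - 1 = (w + 1) * (w - 1) := by
        have := Nat.sq_sub_sq w 1
        rwa [one_pow] at this
      rw [h3] at h2
      exact (Nat.mul_dvd_mul_right hwo.add_one.two_dvd _).trans h2
    have h4 : w ^ l - 1 ≠ 0 := by
      have := S.h2
      have : 1 ≤ e ^ j := Nat.one_le_pow _ _ (by omega)
      omega
    have h5 : padicValNat 2 (2 * (w - 1)) ≤ padicValNat 2 (w ^ l - 1) :=
      (padicValNat_dvd_iff_le h4).1 (pow_padicValNat_dvd.trans h1)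
    rw [padicValNat.mul (by omega) (by omega), padicValNat.self (by omega), hiv, v3] at h5
    by_contra hle
    have : j * padicValNat 2 e ≤ i * padicValNat 2 e := Nat.mul_le_mul_right _ (by omega)
    omega
  have hjo : Odd j := by
    by_contra hne
    rw [Nat.not_odd_iff_even] at hne
    obtain ⟨r, hr⟩ := hne
    have h1 : (w ^ m) ^ 2 = (e ^ r) ^ 2 + 1 := by
      rw [hZ, hr, ← pow_mul]; congr 2; ring
    have h2 : 1 ≤ e ^ r := Nat.one_le_pow _ _ (by omega)
    have h3 : e ^ r < w ^ m := lt_of_pow_lt_pow_left₀ 2 (Nat.zero_le _) (by omega)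
    nlinarith
  have hi1 := S.hi
  have hj3 : 3 ≤ j := by
    obtain ⟨r, hr⟩ := hjo
    omega
  by_cases h3j : 3 ∣ j
  swap
  · exact hC (w ^ m) e j hjo h3j (by omega) hee (by omega) hZ
  obtain ⟨r, hr⟩ := h3j
  have hro : Odd r := by
    rw [hr] at hjo
    exact (Nat.odd_mul.1 hjo).2
  have hr1 : 1 ≤ r := hro.pos
  have hTe : Even (e ^ r) := Nat.even_pow.2 ⟨hee, by omega⟩
  have hZT : (w ^ m) ^ 2 = (e ^ r) ^ 3 + 1 := by
    rw [hZ, hr, ← pow_mul, mul_comm]
  obtain ⟨hT8, s, t, hs, ht, hst⟩ := hQ (w ^ m) (e ^ r) hTe (by positivity) hZT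
  have hr1' : r = 1 := by
    by_contra hne
    have h1 : 2 ^ 2 ∣ e ^ r := (pow_dvd_pow_of_dvd hee.two_dvd 2).trans (pow_dvd_pow e (by omega))
    omega
  subst hr1'
  rw [pow_one] at hT8 hs ht
  have hj : j = 3 := by omega
  subst hj
  have h3Z : 3 ∣ w ^ m := by
    rw [hst]
    exact ⟨s * t, by ring⟩
  have h3w : 3 ∣ w := Nat.prime_three.dvd_of_dvd_pow h3Z
  -- `Z = 3 mod 4`
  have hZ4 : w ^ m % 4 = 3 := by
    obtain ⟨f, hf⟩ := hee
    have hf1 : f % 4 = 1 := by omega
    by_contra hne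
    have hZ1 : w ^ m % 4 = 1 := by
      obtain ⟨z, hz⟩ := hZodd
      omega
    -- `v_2 (w - 1) = i`, `i ∈ {1, 2}`
    have hve : padicValNat 2 e = 1 := by
      have h1 : e = 2 * f := by omega
      rw [h1, padicValNat.mul (by omega) (by omega), padicValNat.self (by omega),
        padicValNat.eq_zero_of_not_dvd (by omega)]
    rw [hve] at hiv v3
    -- `(Z - 1)(Z + 1) = e^3`
    have h2 : w ^ l - 1 = (w ^ m + 1) * (w ^ m - 1) := by
      have := Nat.sq_sub_sq (w ^ m) 1
      rw [one_pow] at this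
      rw [← this, hl2, ← pow_mul, mul_comm]
    rw [h2, padicValNat.mul (by omega) (by omega)] at v3
    have h3 : padicValNat 2 (w ^ m + 1) = 1 := by
      obtain ⟨c, hc⟩ : ∃ c, w ^ m + 1 = 2 * c := ⟨(w ^ m + 1) / 2, by omega⟩
      rw [hc, padicValNat.mul (by omega) (by omega), padicValNat.self (by omega),
        padicValNat.eq_zero_of_not_dvd (by omega)]
    have h4 : padicValNat 2 (w ^ m - 1) = 2 := by omega
    rcases Nat.even_or_odd m with hme | hmo
    · -- `Z` is an odd square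
      obtain ⟨q, hq⟩ := hme
      have h5 : w ^ m = (w ^ q) ^ 2 := by rw [hq, ← pow_mul]; congr 1; ring
      have h6 : Odd (w ^ q) := hwo.pow
      obtain ⟨c, hc⟩ := h6
      have h7 : w ^ m = 4 * (c * (c + 1)) + 1 := by rw [h5, hc]; ring
      have h8 : Even (c * (c + 1)) := Nat.even_mul_succ_self c
      obtain ⟨g, hg⟩ := h8
      have h9 : 2 ^ 3 ∣ w ^ m - 1 := ⟨g, by omega⟩
      have h10 := (padicValNat_dvd_iff_le (p := 2) (by omega)).1 h9
      omega
    · have h5 := val_two_pow_sub_one hwo hw2 hmo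
      rw [h4, hiv] at h5
      -- `i = 2`
      have hi2 : i = 2 := by omega
      subst hi2
      have h1 := S.h1
      have h6 : d ^ x = (e + 1) * (e - 1) := by
        have := Nat.sq_sub_sq e 1
        rw [one_pow] at this
        omega
      have h7 : 3 ∣ d ^ x := by
        rw [h6]
        exact Dvd.dvd.mul_right ⟨s ^ 2, hs⟩ _
      have h8 : 3 ∣ d := Nat.prime_three.dvd_of_dvd_pow h7
      have h9 : 3 ∣ d ^ y := dvd_pow h8 (by have := S.hy; omega)
      have h10 : 3 ∣ w ^ k := dvd_pow h3w (by have := S.hk; omega)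
      have := S.h3
      omega
  have hZe : (w ^ m) ^ 2 = e ^ 3 + 1 := hZ
  have hm : m = 1 := by
    by_contra hne
    apply b1_sq_not_div9 hZe hZ4 hee
    have : 3 ^ 2 ∣ w ^ m := (pow_dvd_pow_of_dvd h3w 2).trans (pow_dvd_pow w (by omega))
    simpa using this
  subst hm
  rw [pow_one] at hZe hZ4
  -- `i = 1`
  have hi : i = 1 := by
    have hi' : i = 1 ∨ i = 2 := by omega
    rcases hi' with h | h
    · exact h
    · exfalso
      subst h
      have h1 := S.h1
      have h6 : d ^ x = (e + 1) * (e - 1) := by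
        have := Nat.sq_sub_sq e 1
        rw [one_pow] at this
        omega
      have h7 : 3 ∣ d ^ x := by
        rw [h6]
        exact Dvd.dvd.mul_right ⟨s ^ 2, hs⟩ _
      have h8 : 3 ∣ d := Nat.prime_three.dvd_of_dvd_pow h7
      have h9 : 3 ∣ d ^ y := dvd_pow h8 (by have := S.hy; omega)
      have h10 : 3 ∣ w ^ k := dvd_pow h3w (by have := S.hk; omega)
      have := S.h3
      omega
  subst hi
  have h1 := S.h1
  rw [pow_one] at h1
  -- `d = 1 mod 24`
  have hd8 : d % 8 = 1 := by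
    obtain ⟨q, hq⟩ := hx
    have h2 : d ^ x % 8 = 1 := by omega
    have h3 : d ^ 2 % 8 = 1 := by
      have : d % 8 = 1 ∨ d % 8 = 3 ∨ d % 8 = 5 ∨ d % 8 = 7 := by
        obtain ⟨c, hc⟩ := hd
        omega
      rcases this with h | h | h | h <;> simp [Nat.pow_mod, h]
    have h4 : d ^ x % 8 = d % 8 := by
      rw [hq, pow_succ, pow_mul, Nat.mul_mod, Nat.pow_mod, h3]
      simp
    omega
  have hd3 : d % 3 = 1 := by
    have h2 : d ^ x % 3 = 1 := by omega
    have : d % 3 = 0 ∨ d % 3 = 1 ∨ d % 3 = 2 := by omega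
    rcases this with h | h | h
    · rw [Nat.pow_mod, h, zero_pow (by have := S.hx; omega)] at h2
      omega
    · exact h
    · obtain ⟨q, hq⟩ := hx
      rw [hq, pow_succ, pow_mul, Nat.mul_mod, Nat.pow_mod, Nat.pow_mod d 2, h] at h2
      simp at h2
  have hd25 : 25 ≤ d := by omega
  have hlt := b1_analytic (w := w) hd25 hx hk S.hy (by rw [h1]; exact hZe) S.h3
  -- the small range
  have hs2 : 3 * s ^ 2 = d ^ x + 2 := by omega
  have hs1030 : s < 1030 := by
    by_contra hge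
    have : 1030 ^ 2 ≤ s ^ 2 := Nat.pow_le_pow_left (by omega) 2
    omega
  have hs2' : 2 ≤ s := by
    by_contra hlt2
    have h25 : d ^ 1 ≤ d ^ x := Nat.pow_le_pow_right (by omega) S.hx
    rw [pow_one] at h25
    have : s ^ 2 ≤ 1 ^ 2 := Nat.pow_le_pow_left (by omega) 2
    omega
  apply b1_small hs2' hs1030 (t := t)
  -- `e = 3 s^2 - 1`
  have h4 : (e : ℤ) = 3 * (s : ℤ) ^ 2 - 1 := by
    have : (e : ℤ) + 1 = 3 * (s : ℤ) ^ 2 := by exact_mod_cast hs
    linarith
  have h5 : (e : ℤ) ^ 2 + 1 = e + 3 * (t : ℤ) ^ 2 := by exact_mod_cast ht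
  rw [h4] at h5
  have h6 : (t : ℤ) ^ 2 + 3 * (s : ℤ) ^ 2 = 3 * (s : ℤ) ^ 4 + 1 := by nlinarith
  exact_mod_cast h6

end Pool.Agent.Lib.MP_545343_nt.Q2
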