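import Pool.Agent.Lib.MP_545343_nt.Q2.Sys
import Pool.Agent.Lib.MP_545343_nt.E3

/-!
# The case `d`, `y` odd, `x = 1`, `k` even
-/

set_option autoImplicit false

namespace Pool.Agent.Lib.MP_545343_nt.Q2

/-- strict Bernoulli inequality -/
lemma b21_bern {w l : ℕ} (hw : 2 ≤ w) (hl : 2 ≤ l) : (w - 1) * l + 1 < w ^ l := by
  obtain ⟨a, rfl⟩ : ∃ a, w = a + 1 := ⟨w - 1, by omega⟩
  rw [Nat.add_sub_cancel]
  induction l, hl using Nat.le_induction with
  | base => nlinarith
  | succ n hn ih =>
    rw [pow_succ]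
    have h : (a * n + 2) * (a + 1) ≤ (a + 1) ^ n * (a + 1) := Nat.mul_le_mul_right _ ih
    have h2 : a * (n + 1) + 1 < (a * n + 2) * (a + 1) := by
      have h3 : (a * n + 2) * (a + 1) = a * (n + 1) + 1 + (a * a * n + a + 1) := by ring
      omega
    omega

/-- `e^j ∣ (w - 1) l` -/
lemma b21_dvd {d y e i j w k l : ℕ} (S : Sys d 1 y e i j w k l) (hd : Odd d)
    (hy : Odd y) (hl : Odd l) : e ^ j ∣ (w - 1) * l := by
  have : Fact (Nat.Prime 2) := ⟨Nat.prime_two⟩
  have hw := S.hw
  have he := S.he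
  have hl0 := S.hl
  have hwo := S.odd_w hd
  have he0 : e ^ j ≠ 0 := pow_ne_zero _ (by omega)
  have hm0 : (w - 1) * l ≠ 0 := Nat.mul_ne_zero (by omega) (by omega)
  rw [← Nat.factorization_le_iff_dvd he0 hm0]
  intro p
  by_cases hp : p.Prime
  swap
  · rw [Nat.factorization_eq_zero_of_not_prime _ hp]; exact Nat.zero_le _
  have : Fact p.Prime := ⟨hp⟩
  rw [Nat.factorization_def _ hp, Nat.factorization_def _ hp, padicValNat.pow,
    padicValNat.mul (by omega) (by omega)]
  by_cases hpe : p ∣ e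
  swap
  · rw [padicValNat.eq_zero_of_not_dvd hpe]; simp
  by_cases hp2 : p = 2
  · subst hp2
    have h1 := (S.val_two hd).2.2
    have h2 := val_two_pow_sub_one hwo hw hl
    omega
  · have h1 : p ∣ d + 1 := by
      have h := S.h1
      rw [pow_one] at h
      rw [h]
      exact dvd_pow hpe (by have := S.hi; omega)
    have h2 := (S.of_dvd_d hp odd_one hy h1).2
    have h3 := (S.val_odd hp hp2 odd_one hy h2).2.1
    omega

lemma b21_l_eq_one {d y e i j w k l : ℕ} (S : Sys d 1 y e i j w k l) (hd : Odd d)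
    (hy : Odd y) (hl : Odd l) : l = 1 := by
  have h1 := b21_dvd S hd hy hl
  have hw := S.hw
  have hl0 := S.hl
  have h2 := Nat.le_of_dvd (Nat.mul_pos (by omega) (by omega)) h1
  have h3 := S.h2
  by_contra hne
  have h4 := b21_bern hw (by omega : 2 ≤ l)
  omega

theorem oddB21_case (hE : E2genStmt) : OddB21Stmt := by
  intro d y e i j w k l S hd hy hk hl
  have : Fact (Nat.Prime 2) := ⟨Nat.prime_two⟩
  have hl1 := b21_l_eq_one S hd hy hl
  subst hl1
  have hd2 := S.hd
  have he := S.he
  have hw := S.hw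
  have hy1 := S.hy
  have hi := S.hi
  have hj := S.hj
  have hk1 := S.hk
  have hy2 : 2 ≤ y := by have := S.nxy; omega
  have hk2 : 2 ≤ k := by
    obtain ⟨m, hm⟩ := hk
    omega
  have hnij := S.nij
  have e1 : d = e ^ i - 1 := by have := S.h1; rw [pow_one] at this; omega
  have e2 : w = e ^ j + 1 := by have := S.h2; rw [pow_one] at this; omega
  have e3 : (e ^ j + 1) ^ k = (e ^ i - 1) ^ y + 2 := by rw [← e1, ← e2]; exact S.h3.symm
  rcases Nat.lt_or_ge j 2 with hj2 | hj2
  · have hj1 : j = 1 := by omega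
    subst hj1
    rw [pow_one] at e3
    exact hE e i y k he (by omega) hy2 e3
  · rcases Nat.lt_or_ge i 2 with hi2 | hi2
    · have hi1 : i = 1 := by omega
      subst hi1
      obtain ⟨v1, v2, v3⟩ := S.val_two hd
      have a1 := v1 odd_one
      have a2 := v2 hy
      rw [pow_one] at v3
      rw [← a1, one_mul] at a2
      have h7 : 1 ≤ padicValNat 2 e :=
        one_le_padicValNat_of_dvd (by omega) (S.even_e hd).two_dvd
      have h8 : 2 * padicValNat 2 e ≤ j * padicValNat 2 e := Nat.mul_le_mul_right _ hj2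
      have h9 : padicValNat 2 (w - 1) ≤ padicValNat 2 (w ^ k - 1) := by
        have hdv : w - 1 ∣ w ^ k - 1 := by
          have := Nat.sub_dvd_pow_sub_pow w 1 k
          rwa [one_pow] at this
        have hge : w ^ 1 ≤ w ^ k := Nat.pow_le_pow_right (by omega) (by omega)
        rw [pow_one] at hge
        exact (padicValNat_dvd_iff_le (by omega)).1 (pow_padicValNat_dvd.trans hdv)
      omega
    · exact E3_no_solution he hj2 hi2 hk2 hy2 (Ne.symm hnij) e3

end Pool.Agent.Lib.MP_545343_nt.Q2
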