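import Pool.Agent.Lib.MP_545343_nt.Q2.Sys

/-!
# Bounds in the case `d`, `x`, `y`, `l` odd, `k` even
-/

set_option autoImplicit false

namespace Pool.Agent.Lib.MP_545343_nt.Q2

/-- two `x`-th powers do not differ by 2 when `x ≥ 3` is odd -/
lemma b22a_pow_add_two_ne {a b x : ℕ} (hx : 2 ≤ x) : a ^ x + 2 ≠ b ^ x := by
  intro h
  have hab : a < b := by
    by_contra hle
    have := Nat.pow_le_pow_left (not_lt.1 hle) x
    omega
  have h1 : (a + 1) ^ x ≤ b ^ x := Nat.pow_le_pow_left hab x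
  rcases Nat.eq_zero_or_pos a with rfl | ha
  · rw [zero_pow (by omega), zero_add] at h
    have h2 : b ≠ 0 := by rintro rfl; rw [zero_pow (by omega)] at h; omega
    have h3 : b ≠ 1 := by rintro rfl; rw [one_pow] at h; omega
    have h4 : 2 ^ x ≤ b ^ x := Nat.pow_le_pow_left (by omega) x
    have h5 : 2 ^ 2 ≤ 2 ^ x := Nat.pow_le_pow_right (by norm_num) hx
    omega
  · obtain ⟨m, rfl⟩ : ∃ m, x = m + 2 := ⟨x - 2, by omega⟩
    have h2 : (a + 1) ^ (m + 1) ≥ a ^ (m + 1) + 1 := by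
      have : a ^ (m + 1) < (a + 1) ^ (m + 1) := Nat.pow_lt_pow_left (Nat.lt_succ_self a) (by omega)
      omega
    have h3 : 1 ≤ a ^ (m + 1) := Nat.one_le_pow _ _ ha
    have h4 : (a + 1) ^ (m + 2) = (a + 1) * (a + 1) ^ (m + 1) := by ring
    have h5 : a ^ (m + 2) = a * a ^ (m + 1) := by ring
    have h6 : (a + 1) * (a ^ (m + 1) + 1) ≤ (a + 1) * (a + 1) ^ (m + 1) :=
      Nat.mul_le_mul_left _ h2
    have h7 : (a + 1) * (a ^ (m + 1) + 1) = a * a ^ (m + 1) + a ^ (m + 1) + a + 1 := by ring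
    omega

lemma b22a_pow_add_one_ne {a b x : ℕ} (ha : 1 ≤ a) (hx : 2 ≤ x) : a ^ x + 1 ≠ b ^ x := by
  intro h
  have hab : a < b := by
    by_contra hle
    have := Nat.pow_le_pow_left (not_lt.1 hle) x
    omega
  have h1 : (a + 1) ^ x ≤ b ^ x := Nat.pow_le_pow_left hab x
  obtain ⟨m, rfl⟩ : ∃ m, x = m + 2 := ⟨x - 2, by omega⟩
  have h2 : a ^ (m + 1) ≤ (a + 1) ^ (m + 1) := Nat.pow_le_pow_left (Nat.le_succ a) _
  have h3 : 1 ≤ a ^ (m + 1) := Nat.one_le_pow _ _ ha
  have h4 : 2 ≤ (a + 1) ^ (m + 1) := by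
    calc 2 ≤ a + 1 := by omega
      _ = (a + 1) ^ 1 := (pow_one _).symm
      _ ≤ (a + 1) ^ (m + 1) := Nat.pow_le_pow_right (by omega) (by omega)
  have h5 : (a + 1) ^ (m + 2) = a * (a + 1) ^ (m + 1) + (a + 1) ^ (m + 1) := by ring
  have h6 : a ^ (m + 2) = a * a ^ (m + 1) := by ring
  have h7 : a * a ^ (m + 1) ≤ a * (a + 1) ^ (m + 1) := Nat.mul_le_mul_left _ h2
  omega

/-- `(d+1) x < d^x + 1` -/
lemma b22a_lin_lt_pow {d x : ℕ} (hd : 3 ≤ d) (hx : 3 ≤ x) : (d + 1) * x < d ^ x + 1 := by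
  induction x, hx using Nat.le_induction with
  | base =>
    have : d ^ 3 = d * d * d := by ring
    nlinarith [Nat.mul_le_mul hd hd]
  | succ n hn ih =>
    have h1 : d ^ (n + 1) = d * d ^ n := by ring
    have h2 : (d + 1) * (n + 1) = (d + 1) * n + (d + 1) := by ring
    have h3 : (d + 1) * 3 ≤ (d + 1) * n := Nat.mul_le_mul_left _ hn
    have h4 : 3 * d ^ n ≤ d * d ^ n := Nat.mul_le_mul_right _ hd
    omega

theorem b22_bounds (hL : LebesgueStmt) (hS : CasselsSubStmt) (hA : CasselsAddStmt)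
    {d x y e i j w k l : ℕ} (S : Sys d x y e i j w k l) (hd : Odd d) (hx : Odd x)
    (hx3 : 3 ≤ x) (hy : Odd y) (hk : Even k) (hl : Odd l) :
    Odd i ∧ Odd j ∧ j < i ∧ 3 ≤ l ∧ 3 * x ^ 2 ≤ d ∧ 3 * i ^ 2 ≤ d ∧ 3 * x ^ 2 ≤ e ∧
      3 * i ^ 2 ≤ e := by
  have : Fact (Nat.Prime 2) := ⟨Nat.prime_two⟩
  obtain ⟨v1, v2, v3⟩ := S.val_two hd
  have hwo := S.odd_w hd
  have hee := S.even_e hd
  have hw2 := S.hw
  have he2 := S.he
  have hd2 := S.hd
  have hi1 := S.hi
  have hj1 := S.hj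
  have hk1 := S.hk
  have hl1 := S.hl
  have hd3 : 3 ≤ d := by
    obtain ⟨m, hm⟩ := hd
    omega
  -- j < i
  have hji : j < i := by
    have e1 := v1 hx
    have e2 := v2 hy
    have w2 := val_two_pow_sub_one hwo S.hw hl
    have hkdiv : (w - 1) * 2 ∣ w ^ k - 1 := by
      obtain ⟨m, hm⟩ := hk
      have h1 : w ^ 2 - 1 ∣ (w ^ 2) ^ m - 1 := by
        have := Nat.sub_dvd_pow_sub_pow (w ^ 2) 1 m
        rwa [one_pow] at this
      rw [hm, ← two_mul, pow_mul]
      refine dvd_trans ?_ h1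
      obtain ⟨c, hc⟩ := hwo
      refine ⟨c + 1, ?_⟩
      rw [hc, Nat.add_sub_cancel]
      have : (2 * c + 1) ^ 2 = 2 * c * 2 * (c + 1) + 1 := by ring
      omega
    have hne : w ^ k - 1 ≠ 0 := by
      have := S.h3
      have : 1 ≤ d ^ y := Nat.one_le_pow _ _ (by omega)
      omega
    have h3 : padicValNat 2 ((w - 1) * 2) ≤ padicValNat 2 (w ^ k - 1) :=
      (padicValNat_dvd_iff_le hne).1 (dvd_trans pow_padicValNat_dvd hkdiv)
    rw [padicValNat.mul (by omega) (by norm_num)] at h3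
    have h4 : padicValNat 2 2 = 1 := padicValNat_self
    have h7 : j * padicValNat 2 e < i * padicValNat 2 e := by
      rw [← v3, e1, ← e2, w2]
      omega
    exact lt_of_mul_lt_mul_right h7 (Nat.zero_le _)
  -- i odd
  have hio : Odd i := by
    by_contra hne
    rw [Nat.not_odd_iff_even] at hne
    obtain ⟨m, hm⟩ := hne
    have hm1 : 1 ≤ m := by omega
    obtain ⟨c, hc⟩ : ∃ c, e ^ m = c + 1 := ⟨e ^ m - 1, by
      have : 1 ≤ e ^ m := Nat.one_le_pow _ _ (by omega)
      omega⟩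
    have hem : Even (e ^ m) := Nat.even_pow.2 ⟨hee, by omega⟩
    have hco : Odd c := by
      rw [hc] at hem
      rcases Nat.even_or_odd c with h | h
      · exact absurd hem (Nat.not_even_iff_odd.2 h.add_one)
      · exact h
    have hprod : c * (c + 2) = d ^ x := by
      have h1 := S.h1
      rw [hm, pow_add, hc] at h1
      have : (c + 1) * (c + 1) = c * (c + 2) + 1 := by ring
      omega
    have hcop : Nat.Coprime c (c + 2) := by
      rw [Nat.coprime_self_add_right]
      exact (Nat.coprime_two_right).2 hco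
    obtain ⟨a, ha⟩ := exists_eq_pow_of_mul_eq_pow (Nat.isUnit_iff.2 hcop) hprod
    obtain ⟨b, hb⟩ := exists_eq_pow_of_mul_eq_pow (Nat.isUnit_iff.2 hcop.symm)
      (by rw [mul_comm]; exact hprod)
    exact b22a_pow_add_two_ne (a := a) (b := b) (x := x) (by omega) (by rw [← ha, ← hb])
  -- l ≥ 3
  have hl3 : 3 ≤ l := by
    by_contra hlt
    have hl1' : l = 1 := by
      obtain ⟨m, hm⟩ := hl
      omega
    have hwe : w - 1 = e ^ j := by
      have := S.h2
      rw [hl1', pow_one] at this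
      omega
    have hdvd : e ^ i ∣ (d + 1) * x := by
      have hne1 : e ^ i ≠ 0 := pow_ne_zero _ (by omega)
      have hne2 : (d + 1) * x ≠ 0 := Nat.mul_ne_zero (by omega) (by omega)
      rw [← Nat.factorization_le_iff_dvd hne1 hne2]
      intro p
      by_cases hp : p.Prime
      swap
      · rw [Nat.factorization_eq_zero_of_not_prime _ hp]
        exact Nat.zero_le _
      have : Fact p.Prime := ⟨hp⟩
      rw [Nat.factorization_def _ hp, Nat.factorization_def _ hp,
        padicValNat.mul (by omega) (by omega), padicValNat.pow]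
      by_cases hp2 : p = 2
      · subst hp2
        have e1 := v1 hx
        omega
      · by_cases hpe : p ∣ e
        · have hpw : p ∣ w - 1 := by
            rw [hwe]
            exact dvd_pow hpe (by omega)
          obtain ⟨-, -, h3⟩ := S.val_odd hp hp2 hx hy hpw
          omega
        · rw [padicValNat.eq_zero_of_not_dvd hpe, mul_zero]
          exact Nat.zero_le _
    have hle := Nat.le_of_dvd (Nat.mul_pos (by omega) (by omega)) hdvd
    rw [← S.h1] at hle
    have := b22a_lin_lt_pow hd3 hx3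
    omega
  -- j odd
  have hjo : Odd j := by
    by_contra hne
    rw [Nat.not_odd_iff_even] at hne
    obtain ⟨m, hm⟩ := hne
    refine hL (e ^ m) w l hl hl3 (Nat.one_le_pow _ _ (by omega)) ?_
    rw [← S.h2, hm]
    ring
  have hi3 : 3 ≤ i := by
    obtain ⟨m, hm⟩ := hio
    omega
  refine ⟨hio, hjo, hji, hl3, ?_⟩
  rcases lt_trichotomy x i with hxi | hxi | hxi
  · -- x < i
    obtain ⟨q, hq, hqx⟩ := Nat.exists_prime_and_dvd (show x ≠ 1 by omega)
    obtain ⟨r, hr⟩ := hqx
    have hqo : Odd q := by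
      rw [hr] at hx
      exact (Nat.odd_mul.1 hx).1
    have hr1 : 1 ≤ r := by
      rcases Nat.eq_zero_or_pos r with h | h
      · rw [h] at hr; omega
      · exact h
    have hqle : q ≤ x := by rw [hr]; exact Nat.le_mul_of_pos_right q hr1
    have hE : 2 ≤ d ^ r := by
      calc 2 ≤ d := hd2
        _ = d ^ 1 := (pow_one d).symm
        _ ≤ d ^ r := Nat.pow_le_pow_right (by omega) hr1
    have hbig : 3 * i ^ 2 ≤ e := by
      refine hA (d ^ r) e q i hq hqo hio (by omega) hE ?_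
      rw [← pow_mul, mul_comm r q, ← hr]
      exact S.h1
    have hde : e ≤ d := by
      by_contra hlt
      have h1 : d ^ x ≤ e ^ x := Nat.pow_le_pow_left (by omega) x
      have h2 : e ^ (x + 1) ≤ e ^ i := Nat.pow_le_pow_right (by omega) (by omega)
      have h3 : e ^ (x + 1) = e * e ^ x := by ring
      have h4 : 2 * e ^ x ≤ e * e ^ x := Nat.mul_le_mul_right _ he2
      have h5 : 2 ^ 1 ≤ e ^ x := le_trans (Nat.pow_le_pow_right (by norm_num) (by omega))
        (Nat.pow_le_pow_left he2 x)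
      have := S.h1
      omega
    have hxx : 3 * x ^ 2 ≤ 3 * i ^ 2 := Nat.mul_le_mul_left _ (Nat.pow_le_pow_left (by omega) 2)
    exact ⟨by omega, by omega, by omega, hbig⟩
  · exfalso
    have h1 := S.h1
    rw [← hxi] at h1
    exact b22a_pow_add_one_ne (by omega) (by omega) h1
  · -- i < x
    obtain ⟨p, hp, hpi⟩ := Nat.exists_prime_and_dvd (show i ≠ 1 by omega)
    obtain ⟨r, hr⟩ := hpi
    have hpo : Odd p := by
      rw [hr] at hio
      exact (Nat.odd_mul.1 hio).1
    have hr1 : 1 ≤ r := by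
      rcases Nat.eq_zero_or_pos r with h | h
      · rw [h] at hr; omega
      · exact h
    have hple : p ≤ i := by rw [hr]; exact Nat.le_mul_of_pos_right p hr1
    have hE : 2 ≤ e ^ r := by
      calc 2 ≤ e := he2
        _ = e ^ 1 := (pow_one e).symm
        _ ≤ e ^ r := Nat.pow_le_pow_right (by omega) hr1
    have hbig : 3 * x ^ 2 ≤ d := by
      refine hS (e ^ r) d p x hp hpo hx (by omega) hE ?_
      rw [← pow_mul, mul_comm r p, ← hr]
      exact S.h1.symm
    have hde : d ≤ e := by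
      by_contra hlt
      have h1 : e ^ i ≤ d ^ i := Nat.pow_le_pow_left (by omega) i
      have h2 : d ^ i ≤ d ^ x := Nat.pow_le_pow_right (by omega) (by omega)
      have := S.h1
      omega
    have hxx : 3 * i ^ 2 ≤ 3 * x ^ 2 := Nat.mul_le_mul_left _ (Nat.pow_le_pow_left (by omega) 2)
    exact ⟨hbig, by omega, by omega, by omega⟩

end Pool.Agent.Lib.MP_545343_nt.Q2
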