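import Pool.Agent.Lib.MP_545343_nt.Q2.Sys

/-!
# The finite end of the case `x ≥ 3` odd, `k` even
-/

set_option autoImplicit false

namespace Pool.Agent.Lib.MP_545343_nt.Q2

/-- triples `(w, l, r)`: `r` is a prime dividing `w^l - 2` exactly once or twice -/
def b22Tab : List (ℕ × ℕ × ℕ) :=
  [(3, 5, 241), (3, 7, 5), (3, 7, 19), (3, 9, 19681), (3, 11, 5), (3, 11, 71), (3, 13, 197),
   (3, 15, 5), (3, 15, 2869781), (5, 3, 3), (5, 3, 41), (5, 5, 3), (5, 5, 347), (5, 7, 3),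
   (5, 7, 26041), (5, 9, 3), (5, 9, 653), (7, 3, 11), (7, 5, 5), (7, 5, 3361), (7, 7, 823541),
   (9, 3, 727), (9, 5, 137), (9, 7, 7), (9, 7, 17), (11, 3, 3), (11, 3, 443), (11, 5, 3),
   (11, 5, 7), (13, 3, 5), (13, 3, 439), (13, 5, 371291), (15, 3, 3373), (15, 5, 17), (17, 3, 3),
   (17, 3, 1637), (17, 5, 3), (17, 5, 5), (19, 3, 6857), (19, 5, 13), (21, 3, 47), (21, 5, 29),
   (23, 3, 3), (23, 3, 5), (25, 3, 17), (27, 3, 19681), (29, 3, 3), (29, 3, 11), (31, 3, 29789),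
   (33, 3, 5), (33, 3, 7187), (35, 3, 3), (35, 3, 31), (37, 3, 50651), (39, 3, 23), (41, 3, 3),
   (41, 3, 22973), (43, 3, 5), (43, 3, 15901), (45, 3, 293), (47, 3, 3), (47, 3, 34607),
   (49, 3, 71), (51, 3, 11), (53, 3, 3), (53, 3, 397), (55, 3, 29), (57, 3, 109), (59, 3, 3),
   (59, 3, 17), (61, 3, 353), (63, 3, 5), (63, 3, 43), (65, 3, 3), (65, 3, 91541),
   (67, 3, 300761), (69, 3, 31), (71, 3, 3), (71, 3, 53), (73, 3, 5), (73, 3, 11), (75, 3, 43),
   (77, 3, 3), (77, 3, 43), (79, 3, 229), (81, 3, 113), (83, 3, 3), (83, 3, 5), (85, 3, 23),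
   (87, 3, 41), (89, 3, 3), (89, 3, 234989), (91, 3, 753569), (93, 3, 5), (93, 3, 17),
   (95, 3, 3), (95, 3, 11), (97, 3, 31), (99, 3, 970297), (101, 3, 3), (101, 3, 343433),
   (103, 3, 5), (103, 3, 109), (105, 3, 89), (107, 3, 3), (107, 3, 408347), (109, 3, 1295027),
   (111, 3, 1061), (113, 3, 3), (113, 3, 5), (115, 3, 47), (117, 3, 11), (119, 3, 3),
   (119, 3, 281), (121, 3, 1771559), (123, 3, 5), (123, 3, 372173), (125, 3, 3), (125, 3, 653),
   (127, 3, 17), (129, 3, 2146687), (131, 3, 3), (131, 3, 23), (133, 3, 5), (133, 3, 83),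
   (135, 3, 2460373), (137, 3, 3), (137, 3, 263), (139, 3, 11), (141, 3, 503), (143, 3, 3),
   (145, 3, 3048623), (147, 3, 191), (149, 3, 3), (151, 3, 3442949), (153, 3, 143263),
   (155, 3, 3), (157, 3, 167), (159, 3, 31), (161, 3, 3)]

/-- no divisor of `n` in `2, …, m + 1` -/
def b22NoDiv (n : ℕ) : ℕ → Bool
  | 0 => true
  | m + 1 => (!Nat.beq (n % (m + 2)) 0) && b22NoDiv n m

lemma b22NoDiv_spec {n : ℕ} : ∀ {m : ℕ}, b22NoDiv n m = true → ∀ q, 2 ≤ q → q ≤ m + 1 →
    ¬ q ∣ n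
  | 0, _, q, h1, h2 => by omega
  | m + 1, h, q, h1, h2 => by
    rw [b22NoDiv, Bool.and_eq_true] at h
    rcases Nat.lt_or_ge q (m + 2) with h3 | h3
    · exact b22NoDiv_spec h.2 q h1 (by omega)
    · have : q = m + 2 := by omega
      subst this
      intro hd
      have h4 := Nat.mod_eq_zero_of_dvd hd
      rw [h4] at h
      simp at h

lemma b22_prime {n : ℕ} (hn : 2 ≤ n) (h : b22NoDiv n (Nat.sqrt n - 1) = true) : n.Prime := by
  rw [Nat.prime_def_le_sqrt]
  refine ⟨hn, fun m hm hm2 => ?_⟩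
  exact b22NoDiv_spec h m hm (by omega)

/-- the table is correct -/
lemma b22Tab_ok : ∀ t ∈ b22Tab, t.2.2.Prime ∧ t.2.2 ≠ 2 ∧ t.2.2 ∣ t.1 ^ t.2.1 - 2 ∧
    ¬ t.2.2 ^ 3 ∣ t.1 ^ t.2.1 - 2 := by
  have key : ∀ t ∈ b22Tab, 3 ≤ t.2.2 ∧ b22NoDiv t.2.2 (Nat.sqrt t.2.2 - 1) = true ∧
      t.2.2 ∣ t.1 ^ t.2.1 - 2 ∧ ¬ t.2.2 ^ 3 ∣ t.1 ^ t.2.1 - 2 := by
    decide +kernel
  intro t ht
  obtain ⟨a, b, c, d⟩ := key t ht
  exact ⟨b22_prime (by omega) b, by omega, c, d⟩

/-- the constraints -/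
def b22Cond (i l w : ℕ) : Bool :=
  Nat.ble (w ^ l) (720100 * (i + 1)) && (Nat.ble (3 * i ^ 2 + 1) (w ^ l) &&
    Nat.ble ((w - 1) ^ (i - 2) + 1) (12960018 * i))

/-- a usable prime is in the table -/
def b22Cov (i l w : ℕ) : Bool :=
  b22Tab.any fun t => decide (t.1 = w ∧ t.2.1 = l ∧ ¬ t.2.2 ∣ i)

/-- the table covers the box -/
lemma b22Tab_cov : ∀ a < 15, ∀ b < 7, ∀ c < 142,
    b22Cond (2 * a + 3) (2 * b + 3) (2 * c + 3) = true →
    b22Cov (2 * a + 3) (2 * b + 3) (2 * c + 3) = true := by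
  decide +kernel

lemma b22Cov_spec {i l w : ℕ} (h : b22Cov i l w = true) :
    ∃ t ∈ b22Tab, t.1 = w ∧ t.2.1 = l ∧ ¬ t.2.2 ∣ i := by
  rw [b22Cov, List.any_eq_true] at h
  obtain ⟨t, ht, h2⟩ := h
  exact ⟨t, ht, of_decide_eq_true h2⟩

/-- the arithmetic obstruction -/
lemma b22_no_prime {d x e i r : ℕ} (hr : r.Prime) (hr2 : r ≠ 2) (he : 2 ≤ e) (hx : 3 ≤ x)
    (hi : i ≠ 0) (h : d ^ x + 1 = e ^ i) (hri : ¬ r ∣ i) (hd : r ∣ e - 1)
    (h3 : ¬ r ^ 3 ∣ e - 1) : False := by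
  have : Fact r.Prime := ⟨hr⟩
  have h1 := val_pow_sub_one hr hr2 he hd hi
  rw [padicValNat.eq_zero_of_not_dvd hri, add_zero] at h1
  have h2 : e ^ i - 1 = d ^ x := by omega
  rw [h2, padicValNat.pow] at h1
  have h4 : 1 ≤ padicValNat r (e - 1) := one_le_padicValNat_of_dvd (by omega) hd
  have h5 : ¬ 3 ≤ padicValNat r (e - 1) := by
    intro h6
    exact h3 ((padicValNat_dvd_iff_le (by omega)).2 h6)
  rcases Nat.eq_zero_or_pos (padicValNat r d) with h7 | h7
  · rw [h7, mul_zero] at h1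
    omega
  · have : 3 * 1 ≤ x * padicValNat r d := Nat.mul_le_mul hx h7
    omega

/-- valuations at all primes, `j = 1` -/
lemma b22_dvd {d x y e i w k l : ℕ} (S : Sys d x y e i 1 w k l) (hd : Odd d) (hx : Odd x)
    (hy : Odd y) (hk : Even k) (hl : Odd l) : 2 * (w - 1) ^ (i - 1) ∣ k * x * (w + 1) := by
  have hw := S.hw
  have hi := S.hi
  have hk0 := S.hk
  have hx0 := S.hx
  have hw1 : w - 1 ≠ 0 := by omega
  have hpow : (w - 1) ^ (i - 1) ≠ 0 := pow_ne_zero _ hw1
  have hkx : k * x ≠ 0 := Nat.mul_ne_zero (by omega) (by omega)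
  obtain ⟨c, hc⟩ : ∃ c, i = c + 1 := ⟨i - 1, by omega⟩
  rw [← Nat.factorization_prime_le_iff_dvd (Nat.mul_ne_zero (by norm_num) hpow)
    (Nat.mul_ne_zero hkx (by omega))]
  intro p hp
  have : Fact p.Prime := ⟨hp⟩
  rw [Nat.factorization_def _ hp, Nat.factorization_def _ hp,
    padicValNat.mul (by norm_num) hpow, padicValNat.mul hkx (by omega),
    padicValNat.mul (by omega) (by omega), padicValNat.pow]
  rcases eq_or_ne p 2 with h2 | h2
  · subst h2
    have hwo := S.odd_w hd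
    obtain ⟨v1, v2, v3⟩ := S.val_two hd
    have e1 := v1 hx
    have e2 := v2 hy
    have w2 := val_two_pow_sub_one hwo hw hl
    have w3 := padicValNat.pow_two_sub_pow (x := w) (y := 1) (by omega)
      (by obtain ⟨b, hb⟩ := hwo; exact ⟨b, by omega⟩)
      (by obtain ⟨b, hb⟩ := hwo; omega) (n := k) (by omega) hk
    rw [one_pow] at w3
    have hxv : padicValNat 2 x = 0 :=
      padicValNat.eq_zero_of_not_dvd (by obtain ⟨b, hb⟩ := hx; omega)
    rw [hxv, padicValNat_self]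
    rw [one_mul] at v3
    rw [← w2, v3]
    have e3 : i * padicValNat 2 e = c * padicValNat 2 e + padicValNat 2 e := by
      rw [hc]; ring
    have e4 : i - 1 = c := by omega
    rw [e4]
    omega
  · have hp2 : padicValNat p 2 = 0 := by
      apply padicValNat.eq_zero_of_not_dvd
      intro h
      exact h2 ((Nat.prime_dvd_prime_iff_eq hp Nat.prime_two).1 h)
    rw [hp2]
    by_cases hdv : p ∣ w - 1
    · obtain ⟨a1, a2, a3⟩ := S.val_odd hp h2 hx hy hdv
      rw [one_mul] at a2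
      have e4 : i - 1 = c := by omega
      rw [e4]
      have e3 : i * padicValNat p e = c * padicValNat p e + padicValNat p e := by
        rw [hc]; ring
      have e5 : c * padicValNat p (w - 1) ≤ c * padicValNat p e :=
        Nat.mul_le_mul_left c (by omega)
      omega
    · rw [padicValNat.eq_zero_of_not_dvd hdv, mul_zero]
      omega

/-- lower bound for `k * x` -/
lemma b22_lower {d x y e i w k l : ℕ} (S : Sys d x y e i 1 w k l) (hd : Odd d) (hx : Odd x)
    (hy : Odd y) (hk : Even k) (hl : Odd l) (hi : 3 ≤ i) (hw3 : 3 ≤ w) :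
    (w - 1) ^ (i - 2) ≤ k * x := by
  have hk0 := S.hk
  have hx0 := S.hx
  have hkx : 0 < k * x := Nat.mul_pos (by omega) (by omega)
  have h1 := Nat.le_of_dvd (Nat.mul_pos hkx (by omega)) (b22_dvd S hd hx hy hk hl)
  obtain ⟨c, hc⟩ : ∃ c, i = c + 3 := ⟨i - 3, by omega⟩
  obtain ⟨v, hv⟩ : ∃ v, w = v + 3 := ⟨w - 3, by omega⟩
  subst hc hv
  rw [show c + 3 - 1 = (c + 3 - 2) + 1 by omega, pow_succ] at h1
  set A := (v + 3 - 1) ^ (c + 3 - 2)
  rw [show v + 3 - 1 = v + 2 by omega] at h1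
  by_contra hne
  push Not at hne
  have h2 : (k * x + 1) * (v + 2) ≤ A * (v + 2) := Nat.mul_le_mul_right _ hne
  have h3 : k * x * (v + 3 + 1) ≤ 2 * (k * x * (v + 2)) := by nlinarith
  nlinarith

/-- upper bound for `k * x` -/
lemma b22_upper {d x y e i w k l : ℕ} (S : Sys d x y e i 1 w k l) (hd : Odd d) :
    k * x < l * i * (y + 1) := by
  have hd2 := S.hd
  have hd3 : 3 ≤ d := by obtain ⟨b, hb⟩ := hd; omega
  have hw := S.hw
  have hi := S.hi
  have hx := S.hx
  have hy := S.hy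
  have h3 := S.h3
  have h1 := S.h1
  have h2 := S.h2
  rw [pow_one] at h2
  have a1 : w ^ k ≤ d ^ (y + 1) := by
    have : 3 ≤ d ^ y := le_trans (by norm_num) (Nat.pow_le_pow_left hd3 y |>.trans'
      (Nat.pow_le_pow_right (by norm_num) hy : 3 ^ 1 ≤ 3 ^ y))
    have h4 : d ^ y * 3 ≤ d ^ y * d := Nat.mul_le_mul_left _ hd3
    rw [pow_succ]
    omega
  have a2 : w ^ (k * x) ≤ (d ^ x) ^ (y + 1) := by
    rw [pow_mul, ← pow_mul, ← pow_mul, mul_comm x (y + 1), pow_mul, pow_mul]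
    exact Nat.pow_le_pow_left a1 x
  have a3 : (d ^ x) ^ (y + 1) < (e ^ i) ^ (y + 1) :=
    Nat.pow_lt_pow_left (by omega) (by omega)
  have a4 : (e ^ i) ^ (y + 1) ≤ ((w ^ l) ^ i) ^ (y + 1) :=
    Nat.pow_le_pow_left (Nat.pow_le_pow_left (by omega) i) _
  have a5 : w ^ (k * x) < w ^ (l * i * (y + 1)) := by
    rw [pow_mul w (l * i), pow_mul w l]
    omega
  exact (Nat.pow_lt_pow_iff_right (by omega)).1 a5

/-- the bound for `y` in terms of `log (e + 1)` -/
lemma b22_y {y e w l : ℕ} (hw3 : 3 ≤ w) (hl : 1 ≤ l) (h2 : e + 1 = w ^ l)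
    (h6 : (y : ℝ) < 720000 * Real.log w) :
    ((l * (y + 1) : ℕ) : ℝ) < 720001 * Real.log ((e + 1 : ℕ) : ℝ) := by
  have hw3' : (3 : ℝ) ≤ w := by exact_mod_cast hw3
  have h1 : 1 ≤ Real.log w := by
    rw [Real.le_log_iff_exp_le (by linarith)]
    have := Real.exp_one_lt_d9
    linarith
  have hl' : (0 : ℝ) < l := by exact_mod_cast hl
  rw [h2]
  push_cast
  rw [Real.log_pow]
  have h3 : (y : ℝ) + 1 < 720001 * Real.log w := by linarith
  have := mul_lt_mul_of_pos_left h3 hl'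
  linarith

lemma b22_exp : ∀ n : ℕ, 720001 * (n + 33) * (14 + (n + 33)) < 2 ^ (n + 31)
  | 0 => by norm_num
  | n + 1 => by
    have := b22_exp n
    rw [show n + 1 + 31 = (n + 31) + 1 by ring, pow_succ]
    nlinarith

/-- `w ^ l - 1` is not a small cube -/
def b22C3 (w l : ℕ) : Bool := (List.range 180).all fun e => ! Nat.beq (e ^ 3 + 1) (w ^ l)

lemma b22_j3 : ∀ a < 20, ∀ b < 10, Nat.ble ((a + 3) ^ (b + 5)) 5760800 = true →
    b22C3 (a + 3) (b + 5) = true := by
  decide +kernel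

/-- no solution with small `e ^ j` and `y` -/
theorem b22_small {d x y e i j w k l : ℕ} (S : Sys d x y e i j w k l) (hd : Odd d)
    (hx : Odd x) (hx3 : 3 ≤ x) (hy : Odd y) (hk : Even k) (hi : Odd i) (hj : Odd j)
    (hl : Odd l) (hl3 : 3 ≤ l) (hji : j < i) (h4 : 3 * i ^ 2 ≤ e)
    (h5 : e ^ j < 720100 * (i + 1)) (h6 : (y : ℝ) < 720000 * Real.log w) : False := by
  have hw := S.hw
  have hwo := S.odd_w hd
  have hw3 : 3 ≤ w := by obtain ⟨b, hb⟩ := hwo; omega
  have hj1 := S.hj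
  rcases Nat.lt_or_ge j 3 with hj3 | hj3
  · have hj' : j = 1 := by obtain ⟨b, hb⟩ := hj; omega
    subst hj'
    have hi3 : 3 ≤ i := by obtain ⟨b, hb⟩ := hi; omega
    have h2 := S.h2
    rw [pow_one] at h2 h5
    have c1 := b22_lower S hd hx hy hk hl hi3 hw3
    have c2 := b22_upper S hd
    have c3 := b22_y hw3 (by omega) h2 h6
    have hlog : ∀ m : ℕ, e + 1 ≤ m → Real.log ((e + 1 : ℕ) : ℝ) ≤ Real.log (m : ℝ) := by
      intro m hm
      apply Real.log_le_log (by positivity)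
      exact_mod_cast hm
    have hl2 := Real.log_two_lt_d9
    have hi33 : i < 33 := by
      by_contra hge
      push Not at hge
      obtain ⟨n, hn⟩ : ∃ n, i = n + 33 := ⟨i - 33, by omega⟩
      have b1 := hlog (720100 * (i + 1)) (by omega)
      have b2 : Real.log ((720100 * (i + 1) : ℕ) : ℝ) ≤ 14 + i := by
        push_cast
        rw [Real.log_mul (by norm_num) (by positivity)]
        have b3 : Real.log (720100 : ℝ) ≤ 20 * Real.log 2 := by
          rw [← Real.log_rpow (by norm_num)]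
          apply Real.log_le_log (by norm_num)
          norm_num
        have b4 : Real.log ((i : ℝ) + 1) ≤ i := by
          have := Real.log_le_sub_one_of_pos (show (0 : ℝ) < (i : ℝ) + 1 by positivity)
          linarith
        linarith
      have b5 : ((l * (y + 1) : ℕ) : ℝ) < ((720001 * (14 + i) : ℕ) : ℝ) := by
        push_cast at c3 b1 b2 ⊢
        linarith
      have b6 : l * (y + 1) < 720001 * (14 + i) := by exact_mod_cast b5
      have b7 := b22_exp n
      have b8 : 2 ^ (i - 2) ≤ (w - 1) ^ (i - 2) := Nat.pow_le_pow_left (by omega) _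
      have b9 : i - 2 = n + 31 := by omega
      rw [← b9, ← hn] at b7
      have b10 : l * i * (y + 1) = i * (l * (y + 1)) := by ring
      have b11 : i * (l * (y + 1)) ≤ i * (720001 * (14 + i)) := Nat.mul_le_mul_left _ b6.le
      have b12 : i * (720001 * (14 + i)) = 720001 * i * (14 + i) := by ring
      omega
    have hi32 : i < 32 := by obtain ⟨b, hb⟩ := hi; omega
    have d1 : l * (y + 1) < 12960018 := by
      have b1 := hlog (720100 * 32) (by omega)
      have b2 : Real.log ((720100 * 32 : ℕ) : ℝ) ≤ 18 := by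
        have b3 : Real.log (((720100 * 32 : ℕ) : ℝ)) ≤ 25 * Real.log 2 := by
          rw [← Real.log_rpow (by norm_num)]
          apply Real.log_le_log (by norm_num)
          norm_num
        linarith
      have b5 : ((l * (y + 1) : ℕ) : ℝ) < ((12960018 : ℕ) : ℝ) := by
        push_cast at c3 b1 b2 ⊢
        linarith
      exact_mod_cast b5
    have d2 : (w - 1) ^ (i - 2) < 12960018 * i := by
      have b10 : l * i * (y + 1) = i * (l * (y + 1)) := by ring
      have b11 : i * (l * (y + 1)) ≤ i * 12960018 := Nat.mul_le_mul_left _ d1.le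
      omega
    have d3 : w ^ l ≤ 720100 * (i + 1) := by omega
    have d4 : w ^ l ≤ 23043200 := by omega
    have d5 : w < 286 := by
      by_contra hge
      push Not at hge
      have : 286 ^ 3 ≤ w ^ l :=
        (Nat.pow_le_pow_left hge 3).trans (Nat.pow_le_pow_right (by omega) hl3)
      norm_num at this
      omega
    have d6 : l < 16 := by
      by_contra hge
      push Not at hge
      have : 3 ^ 16 ≤ w ^ l :=
        (Nat.pow_le_pow_left hw3 16).trans (Nat.pow_le_pow_right (by omega) hge)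
      norm_num at this
      omega
    obtain ⟨a, ha⟩ : ∃ a, i = 2 * a + 3 := by
      obtain ⟨b, hb⟩ := hi
      exact ⟨b - 1, by omega⟩
    obtain ⟨b, hb⟩ : ∃ b, l = 2 * b + 3 := by
      obtain ⟨b, hb⟩ := hl
      exact ⟨b - 1, by omega⟩
    obtain ⟨c, hc⟩ : ∃ c, w = 2 * c + 3 := by
      obtain ⟨b, hb⟩ := hwo
      exact ⟨b - 1, by omega⟩
    have f1 : b22Cond i l w = true := by
      rw [b22Cond, Bool.and_eq_true, Bool.and_eq_true]
      exact ⟨Nat.ble_eq_true_of_le d3, Nat.ble_eq_true_of_le (by omega),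
        Nat.ble_eq_true_of_le d2⟩
    have f2 := b22Tab_cov a (by omega) b (by omega) c (by omega)
    rw [← ha, ← hb, ← hc] at f2
    obtain ⟨t, ht, t1, t2, t3⟩ := b22Cov_spec (f2 f1)
    obtain ⟨g1, g2, g3, g4⟩ := b22Tab_ok t ht
    rw [t1, t2] at g3 g4
    have g5 : w ^ l - 2 = e - 1 := by omega
    rw [g5] at g3 g4
    exact b22_no_prime g1 g2 S.he hx3 (by omega) S.h1 t3 g3 g4
  · have he3 : e ^ 3 ≤ e ^ j := Nat.pow_le_pow_right (by have := S.he; omega) hj3
    have hi8 : i < 8 := by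
      by_contra hge
      push Not at hge
      have b1 : (3 * i ^ 2) ^ 3 ≤ e ^ 3 := Nat.pow_le_pow_left h4 3
      have b2 : (3 * i ^ 2) ^ 3 = 27 * i ^ 5 * i := by ring
      have b3 : 8 ^ 5 ≤ i ^ 5 := Nat.pow_le_pow_left hge 5
      have b4 : 27 * 8 ^ 5 * i ≤ 27 * i ^ 5 * i :=
        Nat.mul_le_mul_right _ (Nat.mul_le_mul_left _ b3)
      norm_num at b4
      omega
    have he180 : e < 180 := by
      by_contra hge
      push Not at hge
      have b1 : 180 ^ 3 ≤ e ^ 3 := Nat.pow_le_pow_left hge 3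
      norm_num at b1
      omega
    have hi5 : 5 ≤ i := by
      obtain ⟨b, hb⟩ := hi
      obtain ⟨c, hc⟩ := hj
      omega
    have he75 : 75 ≤ e := by
      have : 5 ^ 2 ≤ i ^ 2 := Nat.pow_le_pow_left hi5 2
      omega
    have hj3' : j = 3 := by
      by_contra hne
      have hj5 : 5 ≤ j := by obtain ⟨c, hc⟩ := hj; omega
      have b1 : 75 ^ 5 ≤ e ^ j :=
        (Nat.pow_le_pow_left he75 5).trans (Nat.pow_le_pow_right (by omega) hj5)
      norm_num at b1
      omega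
    subst hj3'
    have h2 := S.h2
    rcases eq_or_ne l 3 with hl' | hl'
    · subst hl'
      have b1 : e < w := lt_of_pow_lt_pow_left₀ 3 (by omega) (by omega)
      have b2 : (e + 1) ^ 3 ≤ w ^ 3 := Nat.pow_le_pow_left b1 3
      have b3 : (e + 1) ^ 3 = e ^ 3 + 3 * e ^ 2 + 3 * e + 1 := by ring
      omega
    · have hl5 : 5 ≤ l := by obtain ⟨c, hc⟩ := hl; omega
      have hwl : w ^ l ≤ 5760800 := by omega
      have hw23 : w < 23 := by
        by_contra hge
        push Not at hge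
        have : 23 ^ 5 ≤ w ^ l :=
          (Nat.pow_le_pow_left hge 5).trans (Nat.pow_le_pow_right (by omega) hl5)
        norm_num at this
        omega
      have hl15 : l < 15 := by
        by_contra hge
        push Not at hge
        have : 3 ^ 15 ≤ w ^ l :=
          (Nat.pow_le_pow_left hw3 15).trans (Nat.pow_le_pow_right (by omega) hge)
        norm_num at this
        omega
      obtain ⟨a, ha⟩ : ∃ a, w = a + 3 := ⟨w - 3, by omega⟩
      obtain ⟨b, hb⟩ : ∃ b, l = b + 5 := ⟨l - 5, by omega⟩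
      have b1 := b22_j3 a (by omega) b (by omega)
      rw [← ha, ← hb] at b1
      have b2 := b1 (Nat.ble_eq_true_of_le hwl)
      rw [b22C3, List.all_eq_true] at b2
      have b3 := b2 e (List.mem_range.2 he180)
      rw [h2] at b3
      simp at b3

end Pool.Agent.Lib.MP_545343_nt.Q2
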