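import Mathlib
import Pool.Agent.Lib.MP_545343_nt.Q2.Sys
import Pool.Agent.Lib.MP_545343_nt.E2

/-!
# The system, `d` odd and `x`, `y` not both odd
-/

set_option autoImplicit false

namespace Pool.Agent.Lib.MP_545343_nt.Q2

lemma oddN_sq_mod_eight {a : ℕ} (ha : Odd a) : a ^ 2 % 8 = 1 := by
  have h : a % 8 = 1 ∨ a % 8 = 3 ∨ a % 8 = 5 ∨ a % 8 = 7 := by
    have := Nat.odd_iff.1 ha
    omega
  rcases h with h | h | h | h <;> simp [pow_two, Nat.mul_mod, h]

lemma oddN_four_dvd {a n : ℕ} (ha : Even a) (hn : 2 ≤ n) : 4 ∣ a ^ n := by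
  obtain ⟨b, hb⟩ := ha
  obtain ⟨c, rfl⟩ : ∃ c, n = c + 2 := ⟨n - 2, by omega⟩
  refine ⟨b ^ 2 * a ^ c, ?_⟩
  rw [pow_add, hb]; ring

/-- `w = 2^m + 1` -/
lemma oddN_w {d x y e i j w k l : ℕ} (S : Sys d x y e i j w k l) (hd : Odd d)
    (hxy : ¬ (Odd x ∧ Odd y)) : ∃ m, 1 ≤ m ∧ w = 2 ^ m + 1 := by
  have hwo := S.odd_w hd
  have hw2 := S.hw
  have hw3 : 3 ≤ w := by
    have := Nat.odd_iff.1 hwo
    omega
  have key := Nat.eq_prime_pow_of_unique_prime_dvd (n := w - 1) (p := 2) (by omega) (by
    intro q hq hqd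
    by_contra hne
    obtain ⟨a, b, -⟩ := S.of_dvd_w hq hne hqd
    exact hxy ⟨a, b⟩)
  refine ⟨(w - 1).primeFactorsList.length, ?_, by omega⟩
  rcases Nat.eq_zero_or_pos ((w - 1).primeFactorsList.length) with h0 | h0
  · rw [h0, pow_zero] at key
    omega
  · exact h0

/-- case `y` even -/
lemma oddN_y_even {d x y e i j w k l m : ℕ} (S : Sys d x y e i j w k l) (hd : Odd d)
    (hy : Even y) (hm : 1 ≤ m) (hw : w = 2 ^ m + 1) : False := by
  obtain ⟨c, hc⟩ := hy
  have hy1 := S.hy
  have h3 := S.h3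
  have hyc : d ^ y = (d ^ c) ^ 2 := by rw [hc, ← pow_mul]; congr 1; omega
  have hsq : (d ^ c) ^ 2 % 8 = 1 := oddN_sq_mod_eight hd.pow
  have hwk : w ^ k % 8 = 3 := by rw [← h3, hyc]; omega
  have hw3 : w = 3 := by
    rcases Nat.lt_or_ge m 3 with hm3 | hm3
    · interval_cases m
      · simpa using hw
      · exfalso
        rw [hw] at hwk
        norm_num at hwk
        have : ∀ n : ℕ, 5 ^ n % 8 = 1 ∨ 5 ^ n % 8 = 5 := by
          intro n
          induction n with
          | zero => left; rfl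
          | succ n ih => rw [pow_succ]; omega
        rcases this k with h | h <;> omega
    · exfalso
      have h8 : w % 8 = 1 := by
        obtain ⟨n, rfl⟩ : ∃ n, m = n + 3 := ⟨m - 3, by omega⟩
        rw [hw, pow_add]
        omega
      have : w ^ k % 8 = 1 := by simp [Nat.pow_mod, h8]
      omega
  subst hw3
  rw [hyc] at h3
  have hk3 := three_pow_eq_sq_add_two h3.symm
  have hd3 : 3 ≤ d := by
    have := Nat.odd_iff.1 hd
    have := S.hd
    omega
  have hc1 : 1 ≤ c := by omega
  have hdc : 3 ≤ d ^ c := by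
    calc 3 ≤ d := hd3
      _ = d ^ 1 := (pow_one d).symm
      _ ≤ d ^ c := Nat.pow_le_pow_right (by omega) hc1
  have hk1 := S.hk
  have hdc5 : d ^ c = 5 := by
    have hk' : k = 1 ∨ k = 2 ∨ k = 3 := by omega
    rcases hk' with h | h | h
    · rw [h] at h3; nlinarith
    · rw [h] at h3; nlinarith
    · rw [h] at h3
      have h5 : (d ^ c) ^ 2 = 25 := by omega
      nlinarith
  have hd5 : d = 5 := by
    rcases Nat.lt_or_ge c 2 with hc2 | hc2
    · have : c = 1 := by omega
      rw [this, pow_one] at hdc5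
      exact hdc5
    · exfalso
      have : 3 ^ 2 ≤ d ^ c := le_trans (Nat.pow_le_pow_left hd3 2)
        (Nat.pow_le_pow_right (by omega) hc2)
      omega
  have h1 := S.h1
  have h2 := S.h2
  have hee := S.even_e hd
  have hmod : e ^ i % 4 = 2 := by
    rw [← h1, hd5]
    have : 5 ^ x % 4 = 1 := by rw [Nat.pow_mod]; norm_num
    omega
  have hi1 : i = 1 := by
    have := S.hi
    by_contra hne
    have := oddN_four_dvd hee (n := i) (by omega)
    omega
  have hj2 : 2 ≤ j := by
    have := S.hj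
    have := S.nij
    omega
  have h4 := oddN_four_dvd hee hj2
  have he5 : e % 5 = 1 := by
    rw [hi1, pow_one] at h1
    rw [← h1, hd5]
    have : 5 ∣ 5 ^ x := dvd_pow_self 5 (by have := S.hx; omega)
    omega
  have hej : e ^ j % 5 = 1 := by simp [Nat.pow_mod, he5]
  have hA : 3 ^ l % 5 = 2 := by omega
  have hB : 3 ^ l % 4 = 1 := by omega
  have : ∀ n : ℕ, (3 ^ n % 5 = 2 → 3 ^ n % 4 = 3) := by
    have h20 : ∀ n : ℕ, 3 ^ n % 20 = 1 ∨ 3 ^ n % 20 = 3 ∨ 3 ^ n % 20 = 9 ∨ 3 ^ n % 20 = 7 := by
      intro n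
      induction n with
      | zero => left; rfl
      | succ n ih => rw [pow_succ]; omega
    intro n hn
    rcases h20 n with h | h | h | h <;> omega
  have := this l hA
  omega

/-- `x` even, `l` odd: `l = 1 mod 2^j` -/
lemma oddN_l_mod {d x y e j w k l : ℕ} (hd : Odd d) (hx : Even x) (hy : Odd y)
    (hw : w = 2 ^ j + 1) (h1 : d ^ x + 1 = e) (h2 : e ^ j + 1 = w ^ l)
    (h3 : d ^ y + 2 = w ^ k) : 2 ^ j ∣ l - 1 ∨ l = 0 := by
  have hfact : Fact (Nat.Prime 2) := ⟨Nat.prime_two⟩
  have hpos : 0 < 2 ^ j := by positivity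
  -- 2^j divides d + 1
  have hdy : 2 ^ j ∣ d ^ y + 1 := by
    have h := Nat.sub_dvd_pow_sub_pow w 1 k
    rw [one_pow] at h
    have e1 : w - 1 = 2 ^ j := by omega
    have e2 : w ^ k - 1 = d ^ y + 1 := by omega
    rwa [e1, e2] at h
  have hd1 : 2 ^ j ∣ d + 1 := by
    have hv := val_two_pow_add_one hd hy
    have h5 := (padicValNat_dvd_iff_le (p := 2) (a := d ^ y + 1) (by omega)).1 hdy
    exact (padicValNat_dvd_iff_le (p := 2) (a := d + 1) (by omega)).2 (by omega)
  obtain ⟨f, hf⟩ := hd1
  obtain ⟨b, hb⟩ := hd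
  obtain ⟨c, hc⟩ := hx
  -- d^2 = 1 + 2^(j+1) * g0
  have hd2 : d ^ 2 ≡ 1 [MOD 2 ^ (j + 1)] := by
    apply Nat.ModEq.symm
    rw [Nat.modEq_iff_dvd]
    refine ⟨(f : ℤ) * b, ?_⟩
    have e1 : (d : ℤ) + 1 = 2 ^ j * f := by exact_mod_cast hf
    have e2 : (d : ℤ) = 2 * b + 1 := by exact_mod_cast hb
    push_cast
    have : (d : ℤ) ^ 2 - 1 = (d + 1) * (d - 1) := by ring
    rw [this, e1]
    have : (d : ℤ) - 1 = 2 * b := by linarith
    rw [this, pow_succ]; ring
  have hdx : d ^ x ≡ 1 [MOD 2 ^ (j + 1)] := by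
    have := hd2.pow c
    rw [one_pow, ← pow_mul, show 2 * c = x by omega] at this
    exact this
  have hdx1 : 1 ≤ d ^ x := Nat.one_le_iff_ne_zero.2 (pow_ne_zero _ (by omega))
  obtain ⟨g, hg⟩ : ∃ g, d ^ x = 1 + 2 ^ (j + 1) * g := by
    have := (Nat.modEq_iff_dvd' hdx1).1 hdx.symm
    obtain ⟨g, hg⟩ := this
    exact ⟨g, by omega⟩
  have heM : e = 2 * (1 + 2 ^ j * g) := by
    rw [← h1, hg, pow_succ]; ring
  rcases Nat.eq_zero_or_pos l with hl0 | hl0
  · right; exact hl0
  left
  have hgeom : (∑ t ∈ Finset.range l, w ^ t) = (1 + 2 ^ j * g) ^ j := by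
    have h := Nat.geomSum_eq (m := w) (by omega) l
    have e1 : w - 1 = 2 ^ j := by omega
    have e2 : w ^ l - 1 = 2 ^ j * (1 + 2 ^ j * g) ^ j := by
      rw [← h2, heM, mul_pow]; rfl
    rw [h, e1, e2, Nat.mul_div_cancel_left _ hpos]
  have hA : (∑ t ∈ Finset.range l, w ^ t) ≡ l [MOD 2 ^ j] := by
    have hw1 : w ≡ 1 [MOD 2 ^ j] := by
      rw [hw]
      exact (Nat.modEq_zero_iff_dvd.2 (dvd_refl _)).add_right 1
    have : ∀ n : ℕ, (∑ t ∈ Finset.range n, w ^ t) ≡ n [MOD 2 ^ j] := by
      intro n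
      induction n with
      | zero => simp; rfl
      | succ n ih =>
        rw [Finset.sum_range_succ]
        have h := hw1.pow n
        rw [one_pow] at h
        exact ih.add h
    exact this l
  have hB : (1 + 2 ^ j * g) ^ j ≡ 1 [MOD 2 ^ j] := by
    have h0 : 1 + 2 ^ j * g ≡ 1 + 0 [MOD 2 ^ j] :=
      (Nat.modEq_zero_iff_dvd.2 (dvd_mul_right _ _)).add_left 1
    have h := h0.pow j
    rwa [add_zero, one_pow] at h
  have hC : 1 ≡ l [MOD 2 ^ j] := by
    rw [hgeom] at hA
    exact hB.symm.trans hA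
  exact (Nat.modEq_iff_dvd' hl0).1 hC

theorem oddN_case (hC : CheinStmt) (hQ : CubeStmt) (hL : LebesgueStmt) (hA : CasselsAddStmt) :
    OddNStmt := by
  intro d x y e i j w k l S hd hxy
  have hfact : Fact (Nat.Prime 2) := ⟨Nat.prime_two⟩
  obtain ⟨m, hm, hw⟩ := oddN_w S hd hxy
  rcases Nat.even_or_odd y with hy | hy
  · exact oddN_y_even S hd hy hm hw
  have hx : Even x := by
    by_contra hne
    exact hxy ⟨Nat.not_even_iff_odd.1 hne, hy⟩
  have h1 := S.h1
  have h2 := S.h2
  have h3 := S.h3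
  have hx1 := S.hx
  have hi1 := S.hi
  have hj1 := S.hj
  have hl1 := S.hl
  have hd3 : 3 ≤ d := by
    have := Nat.odd_iff.1 hd
    have := S.hd
    omega
  have hee := S.even_e hd
  have hdx8 : d ^ x % 8 = 1 := by
    obtain ⟨c, hc⟩ := hx
    rw [hc, ← two_mul, mul_comm, pow_mul]
    exact oddN_sq_mod_eight hd.pow
  have hx2 : 2 ≤ x := by
    obtain ⟨c, hc⟩ := hx
    omega
  have hdx9 : 9 ≤ d ^ x := by
    calc 9 = 3 ^ 2 := by norm_num
      _ ≤ d ^ 2 := Nat.pow_le_pow_left hd3 2
      _ ≤ d ^ x := Nat.pow_le_pow_right (by omega) hx2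
  have hi : i = 1 := by
    by_contra hne
    have := oddN_four_dvd hee (n := i) (by omega)
    omega
  rw [hi, pow_one] at h1
  have he8 : e % 8 = 2 := by omega
  have hj2 : 2 ≤ j := by
    have := S.nij
    omega
  have he0 : 0 < e := by omega
  rcases Nat.even_or_odd l with hl | hl
  · -- l even
    obtain ⟨c, hc⟩ := hl
    have hwl : w ^ l = (w ^ c) ^ 2 := by rw [hc, ← pow_mul]; congr 1; omega
    rcases Nat.even_or_odd j with hj | hj
    · obtain ⟨b, hb⟩ := hj
      have hej : e ^ j = (e ^ b) ^ 2 := by rw [hb, ← pow_mul]; congr 1; omega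
      rw [hej, hwl] at h2
      have hpos : 0 < e ^ b := by positivity
      have hlt : e ^ b < w ^ c := by
        by_contra hge
        push Not at hge
        have := Nat.pow_le_pow_left hge 2
        omega
      have := Nat.pow_le_pow_left (Nat.succ_le_of_lt hlt) 2
      rw [Nat.succ_eq_add_one] at this
      nlinarith
    · by_cases h3j : 3 ∣ j
      · obtain ⟨b, hb⟩ := h3j
        have hT : (w ^ c) ^ 2 = (e ^ b) ^ 3 + 1 := by
          rw [← hwl, ← h2, hb, ← pow_mul]; congr 2; ring
        have hb1 : 1 ≤ b := by omega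
        have hTe : Even (e ^ b) := Nat.even_pow.2 ⟨hee, by omega⟩
        obtain ⟨hT8, s, t, hs, ht, hZ⟩ := hQ (w ^ c) (e ^ b) hTe (by positivity) hT
        have hb' : b = 1 := by
          by_contra hne
          have := oddN_four_dvd hee (n := b) (by omega)
          omega
        rw [hb', pow_one] at hT hs ht
        have hj3 : j = 3 := by omega
        have hc1 : 1 ≤ c := by omega
        -- w = 3
        have h3w : 3 ∣ w := by
          have : 3 ∣ w ^ c := ⟨s * t, by rw [hZ]; ring⟩
          exact Nat.prime_three.dvd_of_dvd_pow this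
        have hm3 : m < 3 := by
          by_contra hge
          push Not at hge
          obtain ⟨n, rfl⟩ : ∃ n, m = n + 3 := ⟨m - 3, by omega⟩
          have hdiv : w ^ 2 - 1 ∣ (w ^ c) ^ 2 - 1 := by
            have h := Nat.sub_dvd_pow_sub_pow (w ^ 2) 1 c
            rw [one_pow, ← pow_mul, mul_comm 2 c, pow_mul] at h
            exact h
          have h16 : 16 ∣ w ^ 2 - 1 := by
            refine ⟨2 ^ n * (4 * 2 ^ n + 1), ?_⟩
            have : w ^ 2 = 16 * (2 ^ n * (4 * 2 ^ n + 1)) + 1 := by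
              rw [hw, pow_add]; ring
            omega
          have h16' : 16 ∣ e ^ 3 := by
            have h := h16.trans hdiv
            have : (w ^ c) ^ 2 - 1 = e ^ 3 := by omega
            rwa [this] at h
          have : e ^ 3 % 16 = 8 := by
            have h' : e % 16 = 2 ∨ e % 16 = 10 := by omega
            rcases h' with h | h <;> simp [pow_succ, Nat.mul_mod, h]
          omega
        have hw3 : w = 3 := by
          interval_cases m
          · exact hw
          · exfalso
            rw [hw] at h3w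
            norm_num at h3w
        -- t is a power of 3
        have ht1 : t = 1 := by
          have htd : t ∣ 3 ^ c := by
            rw [hw3] at hZ
            exact ⟨3 * s, by rw [hZ]; ring⟩
          obtain ⟨a, -, ha⟩ := (Nat.dvd_prime_pow Nat.prime_three).1 htd
          rcases Nat.eq_zero_or_pos a with h0 | h0
          · rw [ha, h0, pow_zero]
          · exfalso
            have h3t : 3 ∣ t := by rw [ha]; exact dvd_pow_self 3 (by omega)
            obtain ⟨u, hu⟩ := h3t
            have h9 : (e ^ 2 + 1) % 9 = e % 9 := by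
              rw [ht, hu]
              have : e + 3 * (3 * u) ^ 2 = e + 9 * (3 * u ^ 2) := by ring
              rw [this]; omega
            have hcases : e % 9 = 0 ∨ e % 9 = 1 ∨ e % 9 = 2 ∨ e % 9 = 3 ∨ e % 9 = 4 ∨
                e % 9 = 5 ∨ e % 9 = 6 ∨ e % 9 = 7 ∨ e % 9 = 8 := by omega
            rcases hcases with h | h | h | h | h | h | h | h | h <;>
              simp [pow_two, Nat.add_mod, Nat.mul_mod, h] at h9
        rw [ht1] at ht
        nlinarith
      · exact hC (w ^ c) e j hj h3j hj2 hee he0 (by rw [← hwl, ← h2])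
  · -- l odd
    have hl3 : 3 ≤ l := by
      by_contra hlt
      have hl1' : l = 1 := by
        have := Nat.odd_iff.1 hl
        omega
      rw [hl1', pow_one, hw] at h2
      have hdv : e ∣ 2 ^ m := by
        have : e ^ j = 2 ^ m := by omega
        rw [← this]
        exact dvd_pow_self e (by omega)
      obtain ⟨t, -, ht⟩ := (Nat.dvd_prime_pow Nat.prime_two).1 hdv
      have ht2 : t < 2 := by
        by_contra hge
        push Not at hge
        obtain ⟨n, rfl⟩ : ∃ n, t = n + 2 := ⟨t - 2, by omega⟩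
        rw [pow_add] at ht
        omega
      interval_cases t <;> omega
    -- m = j
    have hwo := S.odd_w hd
    have hmj : m = j := by
      have a1 := val_two_pow_sub_one hwo S.hw hl
      have a2 := (S.val_two hd).2.2
      have e1 : w - 1 = 2 ^ m := by rw [hw, Nat.add_sub_cancel]
      rw [e1, padicValNat.prime_pow] at a1
      have e2 : padicValNat 2 e = 1 := by
        obtain ⟨r, hr⟩ := hee.two_dvd
        have hr1 : ¬ 2 ∣ r := by
          rintro ⟨u, hu⟩
          omega
        have hr0 : r ≠ 0 := by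
          rintro rfl
          omega
        rw [hr, padicValNat.mul two_ne_zero hr0, padicValNat.self (le_refl 2),
          padicValNat.eq_zero_of_not_dvd hr1]
      rw [e2, mul_one] at a2
      omega
    subst hmj
    have hlm := oddN_l_mod (k := k) hd hx hy hw h1 h2 h3
    have hwl : w ≤ l := by
      rcases hlm with h | h
      · have := Nat.le_of_dvd (by omega) h
        omega
      · omega
    have hjw : m < w := by
      have : m < 2 ^ m := Nat.lt_two_pow_self
      omega
    rcases Nat.even_or_odd m with hj | hj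
    · obtain ⟨b, hb⟩ := hj
      apply hL (e ^ b) w l hl hl3 (by positivity)
      rw [← h2, hb, ← pow_mul]; congr 2; omega
    · have hm1 : m ≠ 1 := by omega
      have hq := Nat.minFac_prime hm1
      obtain ⟨b, hb⟩ := Nat.minFac_dvd m
      have hqle : m.minFac ≤ m := Nat.minFac_le (by omega)
      have hqo : Odd m.minFac := by
        rcases hq.eq_two_or_odd' with h | h
        · exfalso
          have : 2 ∣ m := h ▸ Nat.minFac_dvd m
          have := Nat.odd_iff.1 hj
          omega
        · exact h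
      have hb1 : 1 ≤ b := by
        rcases Nat.eq_zero_or_pos b with h0 | h0
        · rw [h0, mul_zero] at hb; omega
        · exact h0
      have hE : (e ^ b) ^ m.minFac + 1 = w ^ l := by
        rw [← h2, ← pow_mul]
        congr 2
        rw [mul_comm]
        exact hb.symm
      have hE2 : 2 ≤ e ^ b := by
        calc 2 ≤ e := by omega
          _ = e ^ 1 := (pow_one e).symm
          _ ≤ e ^ b := Nat.pow_le_pow_right he0 hb1
      have := hA (e ^ b) w m.minFac l hq hqo hl (by omega) hE2 hE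
      nlinarith

end Pool.Agent.Lib.MP_545343_nt.Q2
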