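import Mathlib
import Pool.Agent.Lib.MP_545343_nt.E2
import Pool.Agent.Lib.MP_545343_nt.Q2.Sys

/-!
# Two powers of one base, both followed at distance 2 by powers of another base

`d^x + 2 = e^i`, `d^y + 2 = e^j` with `1 ≤ x < y` is impossible, given the case of the equation
`(N+2)^j = N^y + 2`.
-/

set_option autoImplicit false

namespace Pool.Agent.Lib.MP_545343_nt.Q2

open Pool.Agent.Lib.MP_545343_nt

/-- The two congruence possibilities modulo `N + 1`. -/
lemma shift_two_mod {d e x0 i0 y j : ℕ}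
    (h0 : d ^ x0 + 2 = e ^ i0) (h2 : d ^ y + 2 = e ^ j) :
    (Even (y / x0) ∧ e ^ (j % i0) ≡ d ^ (y % x0) + 2 [MOD (d ^ x0 + 1)]) ∨
    (Odd (y / x0) ∧ e ^ (j % i0) + d ^ (y % x0) ≡ 2 [MOD (d ^ x0 + 1)]) := by
  have e1 : (e : ℤ) ^ i0 ≡ 1 [ZMOD ((d ^ x0 + 1 : ℕ) : ℤ)] := by
    have : (e : ℤ) ^ i0 = 1 + ((d ^ x0 + 1 : ℕ) : ℤ) * 1 := by
      have := congrArg (Nat.cast : ℕ → ℤ) h0
      push_cast at this ⊢
      linarith
    rw [this]
    exact (Int.modEq_iff_dvd.2 ⟨-1, by ring⟩)
  have d1 : (d : ℤ) ^ x0 ≡ -1 [ZMOD ((d ^ x0 + 1 : ℕ) : ℤ)] :=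
    Int.modEq_iff_dvd.2 ⟨-1, by push_cast; ring⟩
  have e2 : (e : ℤ) ^ j ≡ (e : ℤ) ^ (j % i0) [ZMOD ((d ^ x0 + 1 : ℕ) : ℤ)] := by
    conv_lhs => rw [← Nat.div_add_mod j i0, pow_add, pow_mul]
    have := (e1.pow (j / i0)).mul_right ((e : ℤ) ^ (j % i0))
    rwa [one_pow, one_mul] at this
  have d2 : (d : ℤ) ^ y ≡ (-1) ^ (y / x0) * (d : ℤ) ^ (y % x0) [ZMOD ((d ^ x0 + 1 : ℕ) : ℤ)] := by
    conv_lhs => rw [← Nat.div_add_mod y x0, pow_add, pow_mul]
    exact (d1.pow (y / x0)).mul_right ((d : ℤ) ^ (y % x0))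
  have h3 : (d : ℤ) ^ y + 2 = (e : ℤ) ^ j := by exact_mod_cast h2
  have key : (e : ℤ) ^ (j % i0) ≡ (-1) ^ (y / x0) * (d : ℤ) ^ (y % x0) + 2
      [ZMOD ((d ^ x0 + 1 : ℕ) : ℤ)] := by
    have := d2.add_right 2
    rw [h3] at this
    exact e2.symm.trans this
  rcases Nat.even_or_odd (y / x0) with hb | hb
  · left
    refine ⟨hb, ?_⟩
    rw [hb.neg_one_pow, one_mul] at key
    rw [← Int.natCast_modEq_iff]
    push_cast at key ⊢
    exact key
  · right
    refine ⟨hb, ?_⟩
    rw [hb.neg_one_pow] at key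
    rw [← Int.natCast_modEq_iff]
    push_cast at key ⊢
    have := key.add_right ((d : ℤ) ^ (y % x0))
    rwa [show (-1) * (d : ℤ) ^ (y % x0) + 2 + (d : ℤ) ^ (y % x0) = 2 by ring] at this

theorem shift_two (hA0 : ∀ N j y : ℕ, 3 ≤ N → Odd N → 2 ≤ y → (N + 2) ^ j = N ^ y + 2 → False)
    {d x y e i j : ℕ} (hd : 2 ≤ d) (hx : 1 ≤ x) (hxy : x < y)
    (h1 : d ^ x + 2 = e ^ i) (h2 : d ^ y + 2 = e ^ j) : False := by
  have he : 2 ≤ e := by
    by_contra h
    have h3 : e ^ i ≤ 1 := pow_le_one₀ (by omega) (by omega)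
    omega
  have hlt : e ^ i < e ^ j := by
    rw [← h1, ← h2]
    have := Nat.pow_lt_pow_right (show 1 < d by omega) hxy
    omega
  have hij : i < j := (Nat.pow_lt_pow_iff_right (by omega)).1 hlt
  have hi : 1 ≤ i := by
    rcases Nat.eq_zero_or_pos i with rfl | h
    · rw [pow_zero] at h1; omega
    · exact h
  rcases Nat.even_or_odd d with hde | hdo
  · -- d even
    have h4 : 4 ∣ d ^ y := by
      have : d ^ 2 ∣ d ^ y := pow_dvd_pow d (by omega)
      refine dvd_trans ?_ this
      obtain ⟨c, hc⟩ := hde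
      exact ⟨c ^ 2, by rw [hc]; ring⟩
    have h5 : 2 ∣ e ^ j := by
      rw [← h2]
      exact dvd_add (dvd_trans (by norm_num) h4) (dvd_refl 2)
    have h6 : 2 ∣ e := Nat.prime_two.dvd_of_dvd_pow h5
    have h7 : 4 ∣ e ^ j := by
      have : e ^ 2 ∣ e ^ j := pow_dvd_pow e (by omega)
      refine dvd_trans ?_ this
      obtain ⟨c, hc⟩ := h6
      exact ⟨c ^ 2, by rw [hc]; ring⟩
    omega
  · -- d odd
    have hd3 : 3 ≤ d := by
      obtain ⟨c, hc⟩ := hdo
      omega
    have heo : Odd e := by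
      have : Odd (e ^ i) := by
        rw [← h1]
        exact (hdo.pow).add_even (by decide)
      rcases Nat.even_or_odd e with h | h
      · exact absurd (Nat.even_pow.2 ⟨h, by omega⟩) (Nat.not_even_iff_odd.2 this)
      · exact h
    have he3 : 3 ≤ e := by
      obtain ⟨c, hc⟩ := heo
      omega
    -- minimal exponent
    have hex : ∃ x0, 1 ≤ x0 ∧ ∃ i0, d ^ x0 + 2 = e ^ i0 := ⟨x, hx, i, h1⟩
    classical
    obtain ⟨hx0, i0, h0⟩ := Nat.find_spec hex
    have hmin : ∀ s, 1 ≤ s → s < Nat.find hex → ¬ ∃ i0, d ^ s + 2 = e ^ i0 := by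
      intro s hs1 hs2 hs3
      exact Nat.find_min hex hs2 ⟨hs1, hs3⟩
    have hx0x : Nat.find hex ≤ x := Nat.find_min' hex ⟨hx, i, h1⟩
    set x0 := Nat.find hex with hx0def
    clear_value x0
    have hN : d ≤ d ^ x0 := Nat.le_self_pow (by omega) d
    have hi0 : 1 ≤ i0 := by
      rcases Nat.eq_zero_or_pos i0 with rfl | h
      · rw [pow_zero] at h0; omega
      · exact h
    have hr : j % i0 < i0 := Nat.mod_lt _ (by omega)
    have hs : y % x0 < x0 := Nat.mod_lt _ (by omega)
    have hsize1 : 3 * e ^ (j % i0) ≤ d ^ x0 + 2 := by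
      rw [h0]
      calc 3 * e ^ (j % i0) ≤ e * e ^ (j % i0) := Nat.mul_le_mul_right _ he3
        _ = e ^ (j % i0 + 1) := by rw [pow_succ]; ring
        _ ≤ e ^ i0 := Nat.pow_le_pow_right (by omega) (by omega)
    have hsize2 : 3 * d ^ (y % x0) ≤ d ^ x0 := by
      calc 3 * d ^ (y % x0) ≤ d * d ^ (y % x0) := Nat.mul_le_mul_right _ hd3
        _ = d ^ (y % x0 + 1) := by rw [pow_succ]; ring
        _ ≤ d ^ x0 := Nat.pow_le_pow_right (by omega) (by omega)
    have hb1 : 1 ≤ y / x0 := Nat.div_pos (by omega) (by omega)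
    have hpe : 1 ≤ e ^ (j % i0) := Nat.one_le_pow _ _ (by omega)
    have hpd : 1 ≤ d ^ (y % x0) := Nat.one_le_pow _ _ (by omega)
    rcases shift_two_mod h0 h2 with ⟨hb, hm⟩ | ⟨hb, hm⟩
    · have heq : e ^ (j % i0) = d ^ (y % x0) + 2 :=
        Nat.ModEq.eq_of_lt_of_lt hm (by omega) (by omega)
      rcases Nat.eq_zero_or_pos (y % x0) with hs0 | hs0
      · -- s = 0: e ^ r = 3
        rw [hs0, pow_zero] at heq
        have her : e = 3 := by
          have h3 : e ∣ 3 := by
            have h4 : e ^ (j % i0) = 3 := by omega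
            rw [← h4]
            apply dvd_pow_self
            intro h5
            rw [h5, pow_zero] at h4
            omega
          have := Nat.le_of_dvd (by norm_num) h3
          omega
        subst her
        obtain ⟨b, hb⟩ := hb
        have hy : y = x0 * b * 2 := by
          have := Nat.div_add_mod y x0
          rw [hs0, hb] at this
          rw [← this]; ring
        have h3j : 3 ^ j = (d ^ (x0 * b)) ^ 2 + 2 := by
          rw [← h2, hy, pow_mul]
        have hj3 := three_pow_eq_sq_add_two h3j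
        have hC : d ^ 1 ≤ d ^ (x0 * b) := by
          apply Nat.pow_le_pow_right (by omega)
          have : 0 < b := by omega
          exact Nat.mul_pos (by omega) this
        rw [pow_one] at hC
        -- C ^ 2 + 2 = 3 ^ j ≤ 27
        have hC5 : d ^ (x0 * b) = 5 := by
          generalize d ^ (x0 * b) = C at *
          have hC3 : 3 ≤ C := by omega
          have hC6 : C ≤ 5 := by
            by_contra h
            have h6 : 6 ≤ C := by omega
            have h7 : 36 ≤ C ^ 2 := by nlinarith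
            have h8 : 3 ^ j ≤ 3 ^ 3 := Nat.pow_le_pow_right (by norm_num) hj3
            omega
          interval_cases C
          · interval_cases j <;> omega
          · interval_cases j <;> omega
          · rfl
        have hd5 : d = 5 := by
          have h5 : d ∣ 5 := by
            rw [← hC5]
            apply dvd_pow_self
            intro h5
            rw [h5, pow_zero] at hC5
            omega
          rcases (Nat.dvd_prime (by norm_num)).1 h5 with h | h <;> omega
        subst hd5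
        have hx1 : x0 * b = 1 := by
          have h6 : 5 ^ (x0 * b) = 5 ^ 1 := by rw [hC5, pow_one]
          exact Nat.pow_right_injective (by norm_num) h6
        have hx01 : x0 = 1 := Nat.eq_one_of_mul_eq_one_right hx1
        rw [hx01] at h0
        -- 7 = 3 ^ i0
        have h7 : 3 ∣ 3 ^ i0 := dvd_pow_self 3 (by omega)
        rw [← h0] at h7
        omega
      · exact hmin _ hs0 hs ⟨_, heq.symm⟩
    · have heq : e ^ (j % i0) + d ^ (y % x0) = 2 :=
        Nat.ModEq.eq_of_lt_of_lt hm (by omega) (by omega)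
      have hr0 : j % i0 = 0 := by
        by_contra h
        have : e ^ 1 ≤ e ^ (j % i0) := Nat.pow_le_pow_right (by omega) (by omega)
        rw [pow_one] at this
        omega
      have hs0 : y % x0 = 0 := by
        by_contra h
        have : d ^ 1 ≤ d ^ (y % x0) := Nat.pow_le_pow_right (by omega) (by omega)
        rw [pow_one] at this
        omega
      have hy : y = x0 * (y / x0) := by
        have := Nat.div_add_mod y x0
        omega
      have hj : j = i0 * (j / i0) := by
        have := Nat.div_add_mod j i0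
        omega
      have hb2 : 2 ≤ y / x0 := by
        by_contra h
        have h1' : y / x0 = 1 := by omega
        rw [h1', mul_one] at hy
        omega
      refine hA0 (d ^ x0) (j / i0) (y / x0) (by omega) (hdo.pow) hb2 ?_
      rw [h0, ← pow_mul, ← pow_mul, ← hy, ← hj, h2]

end Pool.Agent.Lib.MP_545343_nt.Q2
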