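import Pool.Agent.Lib.MP_545343_nt.Q2.Chein
import Pool.Agent.Lib.MP_545343_nt.Q2.Cube
import Pool.Agent.Lib.MP_545343_nt.Q2.Lebesgue
import Pool.Agent.Lib.MP_545343_nt.Q2.Cassels
import Pool.Agent.Lib.MP_545343_nt.Q2.E2gen
import Pool.Agent.Lib.MP_545343_nt.Q2.Even
import Pool.Agent.Lib.MP_545343_nt.Q2.OddN
import Pool.Agent.Lib.MP_545343_nt.Q2.OddB1
import Pool.Agent.Lib.MP_545343_nt.Q2.OddB21
import Pool.Agent.Lib.MP_545343_nt.Q2.OddB22a
import Pool.Agent.Lib.MP_545343_nt.Q2.OddB22b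
import Pool.Agent.Lib.MP_545343_nt.Q2.OddB22c
import Pool.Agent.Lib.MP_545343_nt.Q2.A0
import Pool.Agent.Lib.MP_545343_nt.Q2.Shift2
import Pool.Agent.Lib.MP_545343_nt.Q2.Leveque
import Pool.Agent.Lib.MP_545343_nt.Q2.Glue

set_option autoImplicit false

namespace Pool.Agent.Lib.MP_545343_nt.Q2

theorem oddB22_case : OddB22Stmt := by
  intro d x y e i j w k l S hd hx hx3 hy hk hl
  obtain ⟨hi, hj, hji, hl3, h1, h2, h3, h4⟩ :=
    b22_bounds lebesgue cassels_sub cassels_add S hd hx hx3 hy hk hl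
  obtain ⟨h5, h6⟩ := b22_large S hd hx hx3 hy hk hi hj hl hl3 hji h1 h2 h3 h4
  exact b22_small S hd hx hx3 hy hk hi hj hl hl3 hji h4 h5 h6

theorem no_sys : ∀ d x y e i j w k l : ℕ, Sys d x y e i j w k l → False := by
  intro d x y e i j w k l S
  exact sys_false (even_case chein cube) (oddN_case chein cube lebesgue cassels_add)
    (oddB1_case chein cube) (oddB21_case e2gen) oddB22_case S

theorem levequeStmt : LevequeStmt := by
  intro d x y e i j hd hx hxy h1 h2
  exact leveque hd hx hxy h1 h2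

theorem shiftStmt : ShiftStmt := by
  intro d x y e i j hd hx hxy h1 h2
  exact shift_two (fun N j y hN hodd hy h => a0 hN hodd hy h) hd hx hxy h1 h2

end Pool.Agent.Lib.MP_545343_nt.Q2
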