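import Pool.Agent.Lib.MP_545343_nt.Q2.Sys

/-!
# Divisibility half of Cassels' theorem (easy direction)
-/

set_option autoImplicit false

namespace Pool.Agent.Lib.MP_545343_nt.Q2

/-- `(F + s)^p = s + F (p + p F R + F^(p-1))` for `s = 1, -1`. -/
lemma cas_expand {p : ℕ} (hp : p.Prime) (F s : ℤ) (hs : s ^ p = s) (hs1 : s ^ (p - 1) = 1) :
    ∃ R : ℤ, (F + s) ^ p = s + F * (p + p * F * R + F ^ (p - 1)) := by
  have h2 := hp.two_le
  refine ⟨∑ k ∈ Finset.Ioo 1 p, F ^ (k - 2) * s ^ (p - k) * ((p.choose k / p : ℕ) : ℤ), ?_⟩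
  rw [add_pow_prime_eq hp]
  have hsplit : Finset.Ioo 0 p = insert 1 (Finset.Ioo 1 p) := by
    ext k
    simp only [Finset.mem_Ioo, Finset.mem_insert]
    omega
  rw [hsplit, Finset.sum_insert (by simp)]
  have h1 : (p.choose 1 / p : ℕ) = 1 := by
    rw [Nat.choose_one_right, Nat.div_self hp.pos]
  rw [h1, hs]
  have hsum : s * ∑ k ∈ Finset.Ioo 1 p, F ^ (k - 1) * s ^ (p - k - 1) *
      ((p.choose k / p : ℕ) : ℤ) =
      F * ∑ k ∈ Finset.Ioo 1 p, F ^ (k - 2) * s ^ (p - k) * ((p.choose k / p : ℕ) : ℤ) := by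
    rw [Finset.mul_sum, Finset.mul_sum]
    apply Finset.sum_congr rfl
    intro k hk
    rw [Finset.mem_Ioo] at hk
    have e1 : F ^ (k - 1) = F * F ^ (k - 2) := by rw [← pow_succ']; congr 1; omega
    have e2 : s ^ (p - k) = s * s ^ (p - k - 1) := by rw [← pow_succ']; congr 1; omega
    rw [e1, e2]; ring
  have hF : F ^ p = F * F ^ (p - 1) := by
    rw [← pow_succ']; congr 1; omega
  have hs2 : s * s ^ (p - 1 - 1) = 1 := by
    rw [← pow_succ', ← hs1]; congr 1; omega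
  have hA : ((p : ℕ) : ℤ) * F * s * (F ^ (1 - 1) * s ^ (p - 1 - 1) * ((1 : ℕ) : ℤ) +
      ∑ k ∈ Finset.Ioo 1 p, F ^ (k - 1) * s ^ (p - k - 1) * ((p.choose k / p : ℕ) : ℤ)) =
      p * F * (s * s ^ (p - 1 - 1)) + p * F * (s * ∑ k ∈ Finset.Ioo 1 p, F ^ (k - 1) *
        s ^ (p - k - 1) * ((p.choose k / p : ℕ) : ℤ)) := by
    simp only [Nat.sub_self, pow_zero, Nat.cast_one]
    ring
  rw [hA, hsum, hs2, hF]
  ring

lemma cas_coprime_pow {a b c n : ℕ} (h : Nat.Coprime a b) (he : a * b = c ^ n) :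
    ∃ d, a = d ^ n := by
  apply exists_eq_pow_of_mul_eq_pow (b := b) (c := c) _ he
  rw [Nat.isUnit_iff]
  exact h

/-- `p ∤ D`. -/
lemma cas_core1 {p n F Q D : ℕ} (hp : p.Prime) (hD : D ^ n = F * Q)
    (hQ : ∃ R : ℤ, (Q : ℤ) = p + p * F * R + (F : ℤ) ^ (p - 1)) (hpD : ¬ p ∣ D) :
    ∃ u, F = u ^ n := by
  have h2 := hp.two_le
  apply cas_coprime_pow (b := Q) (c := D) _ hD.symm
  rw [Nat.coprime_iff_gcd_eq_one]
  by_contra hne
  obtain ⟨r, hr, hrd⟩ := Nat.exists_prime_and_dvd hne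
  have hrF : r ∣ F := hrd.trans (Nat.gcd_dvd_left _ _)
  have hrQ : r ∣ Q := hrd.trans (Nat.gcd_dvd_right _ _)
  obtain ⟨R, hR⟩ := hQ
  have hrF' : (r : ℤ) ∣ (F : ℤ) := Int.natCast_dvd_natCast.2 hrF
  have hrQ' : (r : ℤ) ∣ (Q : ℤ) := Int.natCast_dvd_natCast.2 hrQ
  have hrp : (r : ℤ) ∣ (p : ℤ) := by
    have h1 : (p : ℤ) = Q - (F * (p * R) + (F : ℤ) ^ (p - 1)) := by rw [hR]; ring
    rw [h1]
    exact dvd_sub hrQ' (dvd_add (hrF'.mul_right _) (dvd_pow hrF' (by omega)))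
  have hrp' : r ∣ p := Int.natCast_dvd_natCast.1 hrp
  have hrp2 : r = p := (Nat.prime_dvd_prime_iff_eq hr hp).1 hrp'
  apply hpD
  apply hp.dvd_of_dvd_pow (n := n)
  rw [hD, ← hrp2]
  exact hrF.mul_right _

/-- `p ∣ D`. -/
lemma cas_core2 {p n F Q D : ℕ} (hp : p.Prime) (hpo : Odd p) (hn : n ≠ 0) (hF : 0 < F)
    (hQ0 : 0 < Q) (hD : D ^ n = F * Q)
    (hQ : ∃ R : ℤ, (Q : ℤ) = p + p * F * R + (F : ℤ) ^ (p - 1)) (hpD : p ∣ D) :
    ∃ v w, D = w * v ∧ p ∣ w ∧ 0 < w ∧ 0 < v ∧ ¬ p ∣ v ∧ p ^ (n - 1) ∣ F ∧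
      p ^ (n - 1) ∣ v ^ n - 1 ∧ Q = p * v ^ n := by
  have h2 := hp.two_le
  have h3 : 3 ≤ p := by
    obtain ⟨m, hm⟩ := hpo
    omega
  obtain ⟨R, hR⟩ := hQ
  have hpF : p ∣ F := by
    have h1 : p ∣ F * Q := by rw [← hD]; exact dvd_pow hpD hn
    rcases (Nat.Prime.dvd_mul hp).1 h1 with h | h
    · exact h
    · have hQ' : (p : ℤ) ∣ (Q : ℤ) := Int.natCast_dvd_natCast.2 h
      have h4 : (p : ℤ) ∣ (F : ℤ) ^ (p - 1) := by
        have : (F : ℤ) ^ (p - 1) = Q - p * (1 + F * R) := by rw [hR]; ring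
        rw [this]
        exact dvd_sub hQ' (dvd_mul_right _ _)
      have h5 : p ∣ F ^ (p - 1) := by exact_mod_cast h4
      exact hp.dvd_of_dvd_pow h5
  obtain ⟨G, hG⟩ := hpF
  -- `Q = p * Q1`
  have hFp : (F : ℤ) ^ (p - 1) = p * (F * (G * (F : ℤ) ^ (p - 3))) := by
    have e1 : p - 1 = (p - 3) + 1 + 1 := by omega
    have e2 : (F : ℤ) = p * G := by rw [hG]; push_cast; ring
    rw [e1, pow_succ, pow_succ]
    have e3 : p * ((F : ℤ) * (G * (F : ℤ) ^ (p - 3))) = (p * G) * ((F : ℤ) * (F : ℤ) ^ (p - 3)) := by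
      ring
    rw [e3, ← e2]
    ring
  have hQ1 : (Q : ℤ) = p * (1 + F * (R + G * (F : ℤ) ^ (p - 3))) := by
    rw [hR, hFp]; ring
  have hpQ : p ∣ Q := by
    have : (p : ℤ) ∣ (Q : ℤ) := ⟨_, hQ1⟩
    exact Int.natCast_dvd_natCast.1 this
  obtain ⟨Q1, rfl⟩ := hpQ
  have hp0 : (p : ℤ) ≠ 0 := by exact_mod_cast hp.ne_zero
  have hQ1' : (Q1 : ℤ) = 1 + F * (R + G * (F : ℤ) ^ (p - 3)) := by
    push_cast at hQ1
    exact mul_left_cancel₀ hp0 hQ1
  -- coprimality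
  have hcop : ∀ r : ℕ, r.Prime → r ∣ F → r ∣ Q1 → False := by
    intro r hr hrF hrQ
    have hrF' : (r : ℤ) ∣ (F : ℤ) := Int.natCast_dvd_natCast.2 hrF
    have hrQ' : (r : ℤ) ∣ (Q1 : ℤ) := Int.natCast_dvd_natCast.2 hrQ
    have : (r : ℤ) ∣ 1 := by
      have e : (1 : ℤ) = Q1 - F * (R + G * (F : ℤ) ^ (p - 3)) := by rw [hQ1']; ring
      rw [e]
      exact dvd_sub hrQ' (hrF'.mul_right _)
    have h1 : r ∣ 1 := by exact_mod_cast this
    exact hr.one_lt.ne' (Nat.dvd_one.1 h1)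
  have hpF : p ∣ F := ⟨G, hG⟩
  have hc : Nat.Coprime (F * p) Q1 := by
    rw [Nat.coprime_iff_gcd_eq_one]
    by_contra hne
    obtain ⟨r, hr, hrd⟩ := Nat.exists_prime_and_dvd hne
    have hrF : r ∣ F * p := hrd.trans (Nat.gcd_dvd_left _ _)
    have hrQ : r ∣ Q1 := hrd.trans (Nat.gcd_dvd_right _ _)
    rcases (Nat.Prime.dvd_mul hr).1 hrF with h | h
    · exact hcop r hr h hrQ
    · exact hcop r hr (h.trans hpF) hrQ
  have hD' : F * p * Q1 = D ^ n := by rw [hD]; ring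
  obtain ⟨w, hw⟩ := cas_coprime_pow hc hD'
  obtain ⟨v, hv⟩ := cas_coprime_pow hc.symm (by rw [mul_comm]; exact hD')
  have hDwv : D = w * v := by
    have : D ^ n = (w * v) ^ n := by rw [← hD', hw, hv, mul_pow]
    exact Nat.pow_left_injective hn this
  have hpw : p ∣ w := by
    apply hp.dvd_of_dvd_pow (n := n)
    rw [← hw]
    exact dvd_mul_left _ _
  have hw0 : 0 < w := by
    rcases Nat.eq_zero_or_pos w with h | h
    · rw [h, zero_pow hn] at hw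
      have := Nat.mul_pos hF hp.pos
      omega
    · exact h
  have hQ10 : 0 < Q1 := Nat.pos_of_mul_pos_left hQ0
  have hv0 : 0 < v := by
    rcases Nat.eq_zero_or_pos v with h | h
    · rw [h, zero_pow hn] at hv
      omega
    · exact h
  have hpF' : p ^ (n - 1) ∣ F := by
    have h1 : p ^ n ∣ F * p := by rw [hw]; exact pow_dvd_pow_of_dvd hpw n
    have h4 : p ^ n = p ^ (n - 1) * p := by rw [← pow_succ]; congr 1; omega
    rw [h4] at h1
    exact Nat.dvd_of_mul_dvd_mul_right hp.pos h1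
  refine ⟨v, w, hDwv, hpw, hw0, hv0, ?_, hpF', ?_, by rw [hv]⟩
  · intro h
    apply hcop p hp hpF
    rw [hv]
    exact dvd_pow h hn
  · have h1 : (F : ℤ) ∣ ((v ^ n - 1 : ℕ) : ℤ) := by
      rw [Nat.cast_sub (Nat.one_le_pow _ _ hv0), ← hv, hQ1']
      exact ⟨R + G * (F : ℤ) ^ (p - 3), by push_cast; ring⟩
    exact hpF'.trans (Int.natCast_dvd_natCast.1 h1)

lemma cas_mono1 {u p n : ℕ} (hu : 1 ≤ u) (hn : p < n) :
    (u ^ n + 1) ^ p < (u ^ p + 1) ^ n := by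
  have step : ∀ m, (u ^ (m + 1) + 1) ^ p ≤ u ^ p * (u ^ m + 1) ^ p := by
    intro m
    rw [← mul_pow]
    apply Nat.pow_le_pow_left
    rw [pow_succ']
    nlinarith
  have key : ∀ m, (u ^ (p + m) + 1) ^ p ≤ (u ^ p + 1) ^ (p + m) := by
    intro m
    induction m with
    | zero => exact le_refl _
    | succ m ih =>
      rw [← add_assoc]
      refine (step (p + m)).trans ?_
      rw [pow_succ' (u ^ p + 1) (p + m)]
      exact Nat.mul_le_mul (by omega) ih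
  obtain ⟨m, rfl⟩ : ∃ m, n = p + m + 1 := ⟨n - p - 1, by omega⟩
  have h0 : 0 < (u ^ p + 1) ^ (p + m) := by positivity
  calc (u ^ (p + m + 1) + 1) ^ p ≤ u ^ p * (u ^ (p + m) + 1) ^ p := step _
    _ ≤ u ^ p * (u ^ p + 1) ^ (p + m) := Nat.mul_le_mul_left _ (key m)
    _ < (u ^ p + 1) * (u ^ p + 1) ^ (p + m) := Nat.mul_lt_mul_of_pos_right (by omega) h0
    _ = (u ^ p + 1) ^ (p + m + 1) := by rw [pow_succ']

lemma cas_mono2 {u p n : ℕ} (hu : 1 ≤ u) (hn : p ≤ n) :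
    (u ^ p - 1) ^ n ≤ (u ^ n - 1) ^ p := by
  obtain ⟨m, rfl⟩ := Nat.exists_eq_add_of_le hn
  clear hn
  induction m with
  | zero => exact le_refl _
  | succ m ih =>
    have h1 : u * (u ^ (p + m) - 1) ≤ u ^ (p + m + 1) - 1 := by
      rw [Nat.mul_sub, pow_succ']
      have : 1 ≤ u ^ (p + m) := Nat.one_le_pow _ _ hu
      have : u ≤ u * u ^ (p + m) := Nat.le_mul_of_pos_right _ (by omega)
      omega
    calc (u ^ p - 1) ^ (p + (m + 1)) = (u ^ p - 1) * (u ^ p - 1) ^ (p + m) := by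
          rw [← add_assoc, pow_succ']
      _ ≤ u ^ p * (u ^ (p + m) - 1) ^ p := Nat.mul_le_mul (by omega) ih
      _ = (u * (u ^ (p + m) - 1)) ^ p := by rw [mul_pow]
      _ ≤ (u ^ (p + (m + 1)) - 1) ^ p := Nat.pow_le_pow_left h1 p

/-- `(a + 1)^p > a^p + 1` -/
lemma cas_pow_succ {a p : ℕ} (ha : 1 ≤ a) (hp : 2 ≤ p) : a ^ p + 1 < (a + 1) ^ p := by
  obtain ⟨k, rfl⟩ := Nat.exists_eq_add_of_le hp
  have h1 : a ^ k ≤ (a + 1) ^ k := Nat.pow_le_pow_left (by omega) k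
  have h2 : 1 ≤ a ^ k := Nat.one_le_pow _ _ ha
  calc a ^ (2 + k) + 1 < a ^ 2 * a ^ k + 2 * a ^ k := by rw [pow_add]; omega
    _ = (a ^ 2 + 2) * a ^ k := by ring
    _ ≤ (a + 1) ^ 2 * (a + 1) ^ k := Nat.mul_le_mul (by nlinarith) h1
    _ = (a + 1) ^ (2 + k) := by rw [← pow_add]

theorem cas_sub {E D p n : ℕ} (hp : p.Prime) (hpo : Odd p) (_hn : Odd n) (hpn : p < n)
    (hE : 2 ≤ E) (h : E ^ p = D ^ n + 1) :
    ∃ v, 2 ≤ v ∧ p * v ≤ D ∧ ¬ p ∣ v ∧ p ^ (n - 1) ∣ v ^ n - 1 := by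
  have h2 := hp.two_le
  obtain ⟨F, rfl⟩ : ∃ F, E = F + 1 := ⟨E - 1, by omega⟩
  have hF : 0 < F := by omega
  obtain ⟨R, hR⟩ := cas_expand hp (F : ℤ) 1 (one_pow _) (one_pow _)
  set Qz : ℤ := p + p * F * R + (F : ℤ) ^ (p - 1) with hQz
  have hDz : (D : ℤ) ^ n = F * Qz := by
    have : ((F : ℤ) + 1) ^ p = (D : ℤ) ^ n + 1 := by exact_mod_cast h
    rw [hR] at this
    linear_combination -this
  have hD1 : 1 ≤ D := by
    rcases Nat.eq_zero_or_pos D with h0 | h0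
    · exfalso
      rw [h0, zero_pow (by omega), zero_add] at h
      have : 2 ^ 1 ≤ (F + 1) ^ p :=
        (Nat.pow_le_pow_right (by omega) (by omega)).trans (Nat.pow_le_pow_left (by omega) p)
      omega
    · exact h0
  have hQpos : 0 < Qz := by
    have h1 : (0 : ℤ) < F * Qz := by
      rw [← hDz]
      have : (0 : ℤ) < D := by exact_mod_cast hD1
      positivity
    exact (mul_pos_iff_of_pos_left (by exact_mod_cast hF)).1 h1
  obtain ⟨Q, hQ⟩ := Int.eq_ofNat_of_zero_le hQpos.le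
  have hDn : D ^ n = F * Q := by
    rw [hQ] at hDz
    exact_mod_cast hDz
  have hQ0 : 0 < Q := by
    rw [hQ] at hQpos
    exact_mod_cast hQpos
  by_cases hpD : p ∣ D
  · obtain ⟨v, w, hDwv, hpw, hw0, hv0, hpv, hpF, hv1, hQv⟩ :=
      cas_core2 hp hpo (by omega) hF hQ0 hDn ⟨R, by rw [← hQ, hQz]⟩ hpD
    refine ⟨v, ?_, ?_, hpv, hv1⟩
    · by_contra hlt
      have hv : v = 1 := by omega
      rw [hv, one_pow, mul_one] at hQv
      rw [hQv] at hDn
      -- `(F + 1)^p = F p + 1`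
      have h5 : F ^ p + p * F + 1 ≤ (F + 1) ^ p := by
        have hb : ∀ q, 2 ≤ q → F ^ q + q * F + 1 ≤ (F + 1) ^ q := by
          intro q hq
          induction q, hq using Nat.le_induction with
          | base => nlinarith
          | succ q hq ih =>
            calc F ^ (q + 1) + (q + 1) * F + 1 ≤ (F ^ q + q * F + 1) * (F + 1) := by
                  rw [pow_succ]; nlinarith [Nat.zero_le (F ^ q), Nat.zero_le (q * F * F)]
              _ ≤ (F + 1) ^ q * (F + 1) := Nat.mul_le_mul_right _ ih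
              _ = (F + 1) ^ (q + 1) := by rw [pow_succ]
        exact hb p h2
      have h6 : 0 < F ^ p := by positivity
      have h7 : F * p = p * F := mul_comm _ _
      omega
    · rw [hDwv]
      exact Nat.mul_le_mul_right _ (Nat.le_of_dvd hw0 hpw)
  · exfalso
    obtain ⟨u, hu⟩ := cas_core1 hp hDn ⟨R, by rw [← hQ, hQz]⟩ hpD
    have hu1 : 1 ≤ u := by
      rcases Nat.eq_zero_or_pos u with h0 | h0
      · rw [h0, zero_pow (by omega)] at hu
        omega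
      · exact h0
    subst hu
    have h5 : u ^ p < D := by
      apply lt_of_pow_lt_pow_left₀ n (Nat.zero_le _)
      have h6 := cas_pow_succ (a := u ^ n) (p := p) (Nat.one_le_pow _ _ hu1) h2
      have h7 : (u ^ p) ^ n = (u ^ n) ^ p := by rw [← pow_mul, ← pow_mul, mul_comm]
      rw [h7]
      omega
    have h6 : (u ^ p + 1) ^ n ≤ D ^ n := Nat.pow_le_pow_left (by omega) n
    have h7 := cas_mono1 hu1 hpn
    omega

theorem cas_add {E D p n : ℕ} (hp : p.Prime) (hpo : Odd p) (_hn : Odd n) (hpn : p < n)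
    (hE : 2 ≤ E) (h : E ^ p + 1 = D ^ n) :
    ∃ v, 2 ≤ v ∧ p * v ≤ D ∧ ¬ p ∣ v ∧ p ^ (n - 1) ∣ v ^ n - 1 := by
  have h2 := hp.two_le
  have h3 : 3 ≤ p := by
    obtain ⟨m, hm⟩ := hpo
    omega
  obtain ⟨F, hFE⟩ : ∃ F, E + 1 = F := ⟨E + 1, rfl⟩
  have hF : 0 < F := by omega
  have hEz : (E : ℤ) = F + (-1) := by rw [← hFE]; push_cast; ring
  have hpe : Even (p - 1) := by
    obtain ⟨m, hm⟩ := hpo
    exact ⟨m, by omega⟩
  obtain ⟨R, hR⟩ := cas_expand hp (F : ℤ) (-1) hpo.neg_one_pow hpe.neg_one_pow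
  set Qz : ℤ := p + p * F * R + (F : ℤ) ^ (p - 1) with hQz
  have hDz : (D : ℤ) ^ n = F * Qz := by
    have : (E : ℤ) ^ p + 1 = (D : ℤ) ^ n := by exact_mod_cast h
    rw [hEz, hR] at this
    linear_combination -this
  have hD1 : 1 ≤ D := by
    rcases Nat.eq_zero_or_pos D with h0 | h0
    · exfalso
      rw [h0, zero_pow (by omega)] at h
      omega
    · exact h0
  have hQpos : 0 < Qz := by
    have h1 : (0 : ℤ) < F * Qz := by
      rw [← hDz]
      have : (0 : ℤ) < D := by exact_mod_cast hD1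
      positivity
    exact (mul_pos_iff_of_pos_left (by exact_mod_cast hF)).1 h1
  obtain ⟨Q, hQ⟩ := Int.eq_ofNat_of_zero_le hQpos.le
  have hDn : D ^ n = F * Q := by
    rw [hQ] at hDz
    exact_mod_cast hDz
  have hQ0 : 0 < Q := by
    rw [hQ] at hQpos
    exact_mod_cast hQpos
  by_cases hpD : p ∣ D
  · obtain ⟨v, w, hDwv, hpw, hw0, hv0, hpv, hpF, hv1, hQv⟩ :=
      cas_core2 hp hpo (by omega) hF hQ0 hDn ⟨R, by rw [← hQ, hQz]⟩ hpD
    refine ⟨v, ?_, ?_, hpv, hv1⟩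
    · by_contra hlt
      have hv : v = 1 := by omega
      rw [hv, one_pow, mul_one] at hQv
      rw [hQv] at hDn
      -- `E^p + 1 = (E + 1) p`, `E + 1 ≥ p^2`
      have h5 : p ^ 2 ≤ F :=
        Nat.le_of_dvd hF ((pow_dvd_pow p (by omega)).trans hpF)
      have h6 : p ≤ E := by nlinarith
      have h7 : E ^ 3 ≤ E ^ p := Nat.pow_le_pow_right (by omega) h3
      have h8 : F * p ≤ (E + 1) * E := by rw [hFE]; exact Nat.mul_le_mul_left _ h6
      have h9 : (E + 1) * E < E ^ 3 + 1 := by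
        have : E ^ 3 = E * E * E := by ring
        have : 3 * (E * E) ≤ E * (E * E) := Nat.mul_le_mul_right _ (by omega)
        nlinarith
      omega
    · rw [hDwv]
      exact Nat.mul_le_mul_right _ (Nat.le_of_dvd hw0 hpw)
  · exfalso
    obtain ⟨u, hu⟩ := cas_core1 hp hDn ⟨R, by rw [← hQ, hQz]⟩ hpD
    have hu1 : 1 ≤ u := by
      rcases Nat.eq_zero_or_pos u with h0 | h0
      · rw [h0, zero_pow (by omega)] at hu
        omega
      · exact h0
    have hEu : E = u ^ n - 1 := by omega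
    have h5 : D < u ^ p := by
      apply lt_of_pow_lt_pow_left₀ n (Nat.zero_le _)
      have h6 := cas_pow_succ (a := E) (p := p) (by omega) h2
      have h7 : (u ^ p) ^ n = (u ^ n) ^ p := by rw [← pow_mul, ← pow_mul, mul_comm]
      rw [h7, ← hu, ← hFE]
      omega
    have h6 : D ^ n ≤ (u ^ p - 1) ^ n := Nat.pow_le_pow_left (by omega) n
    have h7 := cas_mono2 hu1 hpn.le
    rw [← hEu] at h7
    omega

end Pool.Agent.Lib.MP_545343_nt.Q2
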