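import Pool.Agent.Lib.MP_545343_nt.Q2.Sys

/-!
# `Z^2 = Y^n + 1` with `n` odd, prime to 3, and `Y` even
-/

set_option autoImplicit false

namespace Pool.Agent.Lib.MP_545343_nt.Q2

open Finset

lemma chein_split {x y c : ℤ} {n : ℕ} (h : x ^ n - y ^ n = c ^ 2)
    (hp : ∀ p : ℕ, p.Prime → (p : ℤ) ∣ x - y → (p : ℤ) ∣ n * y ^ (n - 1) → False)
    (hpos : 0 < x - y) : ∃ s : ℤ, x - y = s ^ 2 := by
  have hg : (∑ i ∈ range n, x ^ i * y ^ (n - 1 - i)) * (x - y) = x ^ n - y ^ n :=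
    (Commute.all x y).geom_sum₂_mul n
  have hco : IsCoprime (x - y) (∑ i ∈ range n, x ^ i * y ^ (n - 1 - i)) := by
    rw [Int.isCoprime_iff_gcd_eq_one]
    by_contra hne
    obtain ⟨p, hpp, hpd⟩ := Nat.exists_prime_and_dvd hne
    have h0 : (p : ℤ) ∣ (Int.gcd (x - y) (∑ i ∈ range n, x ^ i * y ^ (n - 1 - i)) : ℤ) :=
      Int.natCast_dvd_natCast.2 hpd
    have h1 : (p : ℤ) ∣ x - y := h0.trans (Int.gcd_dvd_left ..)
    have h2 : (p : ℤ) ∣ (∑ i ∈ range n, x ^ i * y ^ (n - 1 - i)) :=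
      h0.trans (Int.gcd_dvd_right ..)
    exact hp p hpp h1 ((dvd_geom_sum₂_iff_of_dvd_sub h1).1 h2)
  obtain ⟨s, hs | hs⟩ := Int.sq_of_isCoprime hco (c := c) (by rw [mul_comm, hg, h])
  · exact ⟨s, hs⟩
  · nlinarith [sq_nonneg s]

/-- Nagell's theorem. -/
lemma chein_nagell {Z D q : ℕ} (hq : q.Prime) (hq2 : q ≠ 2) (hD : Even D) (hD0 : 0 < D)
    (h : Z ^ 2 = D ^ q + 1) : q ∣ Z := by
  by_contra hqz
  have hodd : Odd q := hq.odd_of_ne_two hq2
  have hZ : (Z : ℤ) ^ 2 = (D : ℤ) ^ q + 1 := by exact_mod_cast h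
  obtain ⟨s, hs⟩ := chein_split (x := (D : ℤ)) (y := -1) (c := Z) (n := q)
    (by rw [hodd.neg_one_pow, hZ]; ring)
    (by
      intro p hpp h1 h2
      have h3 : (p : ℤ) ∣ (q : ℤ) := by
        rcases Int.Prime.dvd_mul' hpp h2 with h3 | h3
        · exact h3
        · exfalso
          have h4 := Int.Prime.dvd_pow' hpp h3
          rw [dvd_neg] at h4
          have h5 : p ∣ 1 := by exact_mod_cast h4
          exact hpp.one_lt.ne' (Nat.dvd_one.1 h5)
      have h4 : p = q := (Nat.prime_dvd_prime_iff_eq hpp hq).1 (by exact_mod_cast h3)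
      subst h4
      apply hqz
      have h5 : p ∣ D + 1 := by
        have : (p : ℤ) ∣ ((D + 1 : ℕ) : ℤ) := by push_cast; simpa using h1
        exact_mod_cast this
      have h6 : D + 1 ∣ D ^ p + 1 := by
        have := Odd.nat_add_dvd_pow_add_pow D 1 hodd
        rwa [one_pow] at this
      have h7 : p ∣ Z ^ 2 := by rw [h]; exact h5.trans h6
      exact hpp.dvd_of_dvd_pow h7)
    (by have : (0 : ℤ) < D := by exact_mod_cast hD0
        linarith)
  obtain ⟨a, ha⟩ : ∃ a : ℕ, a = s.natAbs := ⟨_, rfl⟩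
  have hs2 : D + 1 = a ^ 2 := by
    have : ((D + 1 : ℕ) : ℤ) = ((a ^ 2 : ℕ) : ℤ) := by
      push_cast
      rw [ha, Int.natCast_natAbs, sq_abs, ← hs]; ring
    exact_mod_cast this
  have ha1 : 1 < a := by
    by_contra hle
    have : a ^ 2 ≤ 1 ^ 2 := Nat.pow_le_pow_left (by omega) 2
    omega
  obtain ⟨r, hr⟩ := hodd
  have hr1 : 1 ≤ r := by have := hq.two_le; omega
  have hd : a * a - 1 = D := by
    rw [← sq, ← hs2, Nat.add_sub_cancel]
  have hpell : Z * Z - (a * a - 1) * D ^ r * D ^ r = 1 := by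
    rw [hd, ← sq, h, hr]
    have : D ^ (2 * r + 1) = D * D ^ r * D ^ r := by ring
    rw [this]; omega
  obtain ⟨m, -, hm⟩ := Pell.eq_pell ha1 hpell
  have hmod := Pell.yn_modEq_a_sub_one ha1 m
  rw [← hm] at hmod
  have haodd : Odd a := by
    have h1 : Odd (a ^ 2) := by rw [← hs2]; exact hD.add_one
    rcases Nat.even_or_odd a with h2 | h2
    · exact absurd (Nat.even_pow.2 ⟨h2, by norm_num⟩) (Nat.not_even_iff_odd.2 h1)
    · exact h2
  have h2a : 2 ∣ a - 1 := by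
    obtain ⟨b, hb⟩ := haodd
    exact ⟨b, by omega⟩
  have hm2 : 2 ∣ m := by
    have h1 := hmod.of_dvd h2a
    have h2 : 2 ∣ D ^ r := dvd_pow hD.two_dvd (by omega)
    exact Nat.modEq_zero_iff_dvd.1 (h1.symm.trans (Nat.modEq_zero_iff_dvd.2 h2))
  have hdv : Pell.yn ha1 2 ∣ D ^ r := by
    rw [hm]; exact (Pell.y_dvd_iff ha1 2 m).2 hm2
  have hy2 : a ∣ Pell.yn ha1 2 := by
    rw [show (2 : ℕ) = 1 + 1 from rfl, Pell.yn_succ, Pell.xn_one, Pell.yn_one, one_mul]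
    exact ⟨2, by ring⟩
  have hco : Nat.Coprime a (D ^ r) := by
    apply Nat.Coprime.pow_right
    have h1 : a ∣ D + 1 := by rw [hs2]; exact dvd_pow_self a (by norm_num)
    obtain ⟨c, hc⟩ := h1
    have h2 : Nat.gcd a D ∣ D + 1 := (Nat.gcd_dvd_left a D).trans ⟨c, hc⟩
    have h3 : Nat.gcd a D ∣ 1 := (Nat.dvd_add_right (Nat.gcd_dvd_right a D)).1 h2
    exact Nat.dvd_one.1 h3
  have := Nat.Coprime.eq_one_of_dvd hco (hy2.trans hdv)
  omega

/-- The final step, over the integers, `ε = ±1`. -/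
lemma chein_step {A B n : ℕ} {Z ε : ℤ} (hε : ε = 1 ∨ ε = -1) (hn : Odd n) (h3 : ¬ 3 ∣ n)
    (hn5 : 5 ≤ n) (hB : 1 ≤ B) (hAo : Odd A) (hco : Nat.Coprime A B)
    (h : (A : ℤ) ^ n - 2 ^ (n - 2) * (B : ℤ) ^ n = ε) (hZ : Z = 2 * (A : ℤ) ^ n - ε)
    (hq : ∀ q : ℕ, q.Prime → q ∣ n → (q : ℤ) ∣ Z) : False := by
  have hεn : ε ^ n = ε := by
    rcases hε with rfl | rfl
    · exact one_pow n
    · exact hn.neg_one_pow
  have hεε : ε ^ 2 = 1 := by rcases hε with rfl | rfl <;> norm_num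
  have hpow : (2 : ℤ) ^ n = 4 * 2 ^ (n - 2) := by
    obtain ⟨m, rfl⟩ : ∃ m, n = m + 2 := ⟨n - 2, by omega⟩
    rw [Nat.add_sub_cancel]; ring
  have hBA : B < A := by
    by_contra hle
    have h1 : (A : ℤ) ^ n ≤ (B : ℤ) ^ n := by
      exact_mod_cast Nat.pow_le_pow_left (not_lt.1 hle) n
    have h2 : (8 : ℤ) ≤ 2 ^ (n - 2) := by
      obtain ⟨m, rfl⟩ : ∃ m, n = m + 5 := ⟨n - 5, by omega⟩
      rw [show m + 5 - 2 = m + 3 by omega, pow_add]
      have : (1 : ℤ) ≤ 2 ^ m := one_le_pow₀ (by norm_num)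
      linarith
    have h3 : (1 : ℤ) ≤ (B : ℤ) ^ n := one_le_pow₀ (by exact_mod_cast hB)
    have h4 : -1 ≤ ε := by rcases hε with rfl | rfl <;> norm_num
    nlinarith
  have hBAz : (B : ℤ) + 1 ≤ A := by exact_mod_cast hBA
  have hBz : (1 : ℤ) ≤ B := by exact_mod_cast hB
  have hε2 : -1 ≤ ε ∧ ε ≤ 1 := by rcases hε with rfl | rfl <;> norm_num
  have hpos : 0 < (A : ℤ) ^ 2 - 2 * ε * B := by nlinarith
  obtain ⟨s, hs⟩ := chein_split (x := (A : ℤ) ^ 2) (y := 2 * ε * B) (c := (A : ℤ) ^ n - 2 * ε)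
    (n := n)
    (by
      rw [mul_pow, mul_pow, hεn, hpow]
      have h1 : 2 ^ (n - 2) * (B : ℤ) ^ n = (A : ℤ) ^ n - ε := by linear_combination -h
      have h2 : ((A : ℤ) ^ 2) ^ n = ((A : ℤ) ^ n) ^ 2 := by ring
      have h3 : 4 * 2 ^ (n - 2) * ε * (B : ℤ) ^ n = 4 * ε * (2 ^ (n - 2) * (B : ℤ) ^ n) := by ring
      rw [h2, h3, h1]
      ring)
    (by
      intro p hpp h1 h2
      have hpA : ¬ p ∣ A := by
        intro hpA
        have hA : (p : ℤ) ∣ (A : ℤ) ^ 2 := dvd_pow (by exact_mod_cast hpA) (by norm_num)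
        have h4 : (p : ℤ) ∣ 2 * ε * B := by
          have := dvd_sub hA h1
          rwa [sub_sub_cancel] at this
        have h5 : (p : ℤ) ∣ 2 * B := by
          have : (p : ℤ) ∣ ε * (2 * ε * B) := dvd_mul_of_dvd_right h4 ε
          rwa [show ε * (2 * ε * B) = ε ^ 2 * (2 * B) by ring, hεε, one_mul] at this
        have h6 : p ∣ 2 * B := by exact_mod_cast h5
        rcases hpp.dvd_mul.1 h6 with h7 | h7
        · have h8 : p = 2 := (Nat.prime_dvd_prime_iff_eq hpp Nat.prime_two).1 h7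
          subst h8
          exact (Nat.not_even_iff_odd.2 hAo) (even_iff_two_dvd.2 hpA)
        · have h8 := Nat.dvd_gcd hpA h7
          rw [hco] at h8
          exact hpp.one_lt.ne' (Nat.dvd_one.1 h8)
      -- `p ∣ y → p ∣ A^2`
      have hpn : p ∣ n := by
        rcases Int.Prime.dvd_mul' hpp h2 with h4 | h4
        · exact_mod_cast h4
        · exfalso
          have h5 := Int.Prime.dvd_pow' hpp h4
          have h6 : (p : ℤ) ∣ (A : ℤ) ^ 2 := by
            have := dvd_add h1 h5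
            rwa [sub_add_cancel] at this
          have h7 : p ∣ A ^ 2 := by exact_mod_cast h6
          exact hpA (hpp.dvd_of_dvd_pow h7)
      have hpZ := hq p hpp hpn
      have h4 : (p : ℤ) ∣ ((A : ℤ) ^ n - 2 * ε) ^ 2 := by
        have h5 : (A : ℤ) ^ 2 - 2 * ε * B ∣ ((A : ℤ) ^ 2) ^ n - (2 * ε * B) ^ n :=
          sub_dvd_pow_sub_pow _ _ n
        have h6 : ((A : ℤ) ^ 2) ^ n - (2 * ε * B) ^ n = ((A : ℤ) ^ n - 2 * ε) ^ 2 := by
          rw [mul_pow, mul_pow, hεn, hpow]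
          have h1 : 2 ^ (n - 2) * (B : ℤ) ^ n = (A : ℤ) ^ n - ε := by linear_combination -h
          have h2 : ((A : ℤ) ^ 2) ^ n = ((A : ℤ) ^ n) ^ 2 := by ring
          have h3 : 4 * 2 ^ (n - 2) * ε * (B : ℤ) ^ n
            = 4 * ε * (2 ^ (n - 2) * (B : ℤ) ^ n) := by ring
          rw [h2, h3, h1]
          ring
        rw [← h6]
        exact h1.trans h5
      have h5 : (p : ℤ) ∣ (A : ℤ) ^ n - 2 * ε := Int.Prime.dvd_pow' hpp h4
      have h6 : (p : ℤ) ∣ 3 * ε := by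
        have h7 : (p : ℤ) ∣ Z - 2 * ((A : ℤ) ^ n - 2 * ε) :=
          dvd_sub hpZ (dvd_mul_of_dvd_right h5 2)
        rwa [hZ, show 2 * (A : ℤ) ^ n - ε - 2 * ((A : ℤ) ^ n - 2 * ε) = 3 * ε by ring] at h7
      have h7 : (p : ℤ) ∣ 3 := by
        have : (p : ℤ) ∣ ε * (3 * ε) := dvd_mul_of_dvd_right h6 ε
        rwa [show ε * (3 * ε) = ε ^ 2 * 3 by ring, hεε, one_mul] at this
      have h8 : p ∣ 3 := by exact_mod_cast h7
      have h9 : p = 3 := (Nat.prime_dvd_prime_iff_eq hpp Nat.prime_three).1 h8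
      subst h9
      exact h3 hpn)
    hpos
  -- `s^2` strictly between consecutive squares
  have hA0 : (0 : ℤ) ≤ A := Int.natCast_nonneg A
  rcases hε with rfl | rfl
  · have h1 : ((A : ℤ) - 1) ^ 2 < s ^ 2 := by nlinarith
    have h2 : s ^ 2 < (A : ℤ) ^ 2 := by nlinarith
    have h3 := sq_lt_sq.1 h1
    have h4 := sq_lt_sq.1 h2
    rw [abs_of_nonneg (by linarith : (0 : ℤ) ≤ A - 1)] at h3
    rw [abs_of_nonneg hA0] at h4
    omega
  · have h1 : (A : ℤ) ^ 2 < s ^ 2 := by nlinarith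
    have h2 : s ^ 2 < ((A : ℤ) + 1) ^ 2 := by nlinarith
    have h3 := sq_lt_sq.1 h1
    have h4 := sq_lt_sq.1 h2
    rw [abs_of_nonneg hA0] at h3
    rw [abs_of_nonneg (by linarith : (0 : ℤ) ≤ A + 1)] at h4
    omega

/-- Splitting `P * R' = Y^n`. -/
lemma chein_factor {P R Y n : ℕ} (hPo : Odd P) (hco : Nat.Coprime P R)
    (h : P * (4 * R) = Y ^ n) (hn : 2 ≤ n) (hR : 0 < R) :
    ∃ A B : ℕ, P = A ^ n ∧ R = 2 ^ (n - 2) * B ^ n ∧ Odd A ∧ Nat.Coprime A B ∧ 1 ≤ B := by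
  have hco4 : Nat.Coprime P (4 * R) := by
    apply Nat.Coprime.mul_right _ hco
    have : Nat.Coprime P (2 ^ 2) := Nat.Coprime.pow_right 2 (Nat.coprime_two_right.2 hPo)
    exact this
  have hu : IsUnit (gcd P (4 * R)) := by
    rw [Nat.isUnit_iff]; exact hco4
  obtain ⟨A, hA⟩ := exists_eq_pow_of_mul_eq_pow hu h
  have hu' : IsUnit (gcd (4 * R) P) := by
    rw [Nat.isUnit_iff]; exact hco4.symm
  obtain ⟨C, hC⟩ := exists_eq_pow_of_mul_eq_pow hu' (by rw [mul_comm]; exact h)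
  have hC2 : 2 ∣ C := by
    apply Nat.prime_two.dvd_of_dvd_pow (n := n)
    rw [← hC]
    exact ⟨2 * R, by ring⟩
  obtain ⟨B, rfl⟩ := hC2
  have hAo : Odd A := by
    rcases Nat.even_or_odd A with h2 | h2
    · exact absurd (hA ▸ Nat.even_pow.2 ⟨h2, by omega⟩ : Even P) (Nat.not_even_iff_odd.2 hPo)
    · exact h2
  have hRB : R = 2 ^ (n - 2) * B ^ n := by
    obtain ⟨m, rfl⟩ : ∃ m, n = m + 2 := ⟨n - 2, by omega⟩
    rw [Nat.add_sub_cancel]
    have : 4 * R = 4 * (2 ^ m * B ^ (m + 2)) := by rw [hC]; ring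
    omega
  refine ⟨A, B, hA, hRB, hAo, ?_, ?_⟩
  · have h1 : Nat.Coprime (A ^ n) ((2 * B) ^ n) := by rw [← hA, ← hC]; exact hco4
    have h2 : Nat.Coprime A (2 * B) :=
      (Nat.coprime_pow_left_iff (by omega) _ _).1 ((Nat.coprime_pow_right_iff (by omega) _ _).1 h1)
    exact Nat.Coprime.coprime_mul_left_right h2
  · rcases Nat.eq_zero_or_pos B with h0 | h0
    · rw [h0, zero_pow (by omega), mul_zero] at hRB
      omega
    · exact h0

theorem chein : CheinStmt := by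
  intro Z Y n hn h3 hn2 hY hY0 h
  have hn5 : 5 ≤ n := by
    obtain ⟨m, hm⟩ := hn
    omega
  -- every prime divisor of `n` divides `Z`
  have hq : ∀ q : ℕ, q.Prime → q ∣ n → q ∣ Z := by
    intro q hq hqn
    obtain ⟨t, ht⟩ := hqn
    have ht0 : t ≠ 0 := by rintro rfl; omega
    have hq2 : q ≠ 2 := by
      rintro rfl
      exact (Nat.not_even_iff_odd.2 hn) ⟨t, by omega⟩
    apply chein_nagell (D := Y ^ t) hq hq2 (Nat.even_pow.2 ⟨hY, ht0⟩) (Nat.pow_pos hY0)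
    rw [h, ← pow_mul, ht, mul_comm q t]
  have hYn : Even (Y ^ n) := Nat.even_pow.2 ⟨hY, by omega⟩
  have hZo : Odd Z := by
    rcases Nat.even_or_odd Z with h2 | h2
    · exfalso
      have : Even (Z ^ 2) := Nat.even_pow.2 ⟨h2, by norm_num⟩
      rw [h] at this
      exact (Nat.not_even_iff_odd.2 hYn.add_one) this
    · exact h2
  obtain ⟨U, hU⟩ := hZo
  have hYU : Y ^ n = 4 * (U * (U + 1)) := by
    rw [hU] at h
    have : (2 * U + 1) ^ 2 = 4 * (U * (U + 1)) + 1 := by ring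
    omega
  have hU0 : 0 < U := by
    rcases Nat.eq_zero_or_pos U with h0 | h0
    · rw [h0] at hYU
      have : 0 < Y ^ n := Nat.pow_pos hY0
      omega
    · exact h0
  have hcoU : Nat.Coprime U (U + 1) := by simp
  rcases Nat.even_or_odd U with hUe | hUo
  · -- `P = U + 1`, `R = U`, `ε = 1`
    obtain ⟨A, B, hA, hB, hAo, hco, hB1⟩ := chein_factor (P := U + 1) (R := U) (Y := Y) (n := n)
      hUe.add_one hcoU.symm (by rw [hYU]; ring) hn2 hU0
    have hA' : (A : ℤ) ^ n = U + 1 := by exact_mod_cast hA.symm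
    have hB' : 2 ^ (n - 2) * (B : ℤ) ^ n = U := by exact_mod_cast hB.symm
    refine chein_step (A := A) (B := B) (n := n) (Z := (Z : ℤ)) (ε := 1) (Or.inl rfl) hn h3 hn5
      hB1 hAo hco ?_ ?_ ?_
    · rw [hA', hB']; ring
    · rw [hA', hU]; push_cast; ring
    · intro q h1 h2
      exact_mod_cast hq q h1 h2
  · obtain ⟨A, B, hA, hB, hAo, hco, hB1⟩ := chein_factor (P := U) (R := U + 1) (Y := Y) (n := n)
      hUo hcoU (by rw [hYU]; ring) hn2 (by omega)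
    have hA' : (A : ℤ) ^ n = U := by exact_mod_cast hA.symm
    have hB' : 2 ^ (n - 2) * (B : ℤ) ^ n = U + 1 := by exact_mod_cast hB.symm
    refine chein_step (A := A) (B := B) (n := n) (Z := (Z : ℤ)) (ε := -1) (Or.inr rfl) hn h3 hn5
      hB1 hAo hco ?_ ?_ ?_
    · rw [hA', hB']; ring
    · rw [hA', hU]; push_cast; ring
    · intro q h1 h2
      exact_mod_cast hq q h1 h2

end Pool.Agent.Lib.MP_545343_nt.Q2
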