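import Pool.Agent.Lib.MP_545343_nt.Basic
import Pool.Agent.Lib.MP_545343_nt.Q2.Sys

/-!
# The analytic part of the case `x ≥ 3` odd, `k` even
-/

set_option autoImplicit false

namespace Pool.Agent.Lib.MP_545343_nt.Q2

lemma b22b_log_le_sqrt {t : ℝ} (ht : 0 < t) : Real.log t ≤ 2 * (Real.sqrt t - 1) := by
  have hs : 0 < Real.sqrt t := Real.sqrt_pos.2 ht
  have h1 := Real.log_le_sub_one_of_pos hs
  have h2 : Real.log t = 2 * Real.log (Real.sqrt t) := by
    conv_lhs => rw [← Real.sq_sqrt ht.le]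
    rw [Real.log_pow]
    norm_num
  rw [h2]
  linarith

lemma b22b_log_sq_le {t : ℝ} (ht : 1 ≤ t) : Real.log t ^ 2 ≤ 4 * t := by
  have h0 : 0 ≤ Real.log t := Real.log_nonneg ht
  have h1 := b22b_log_le_sqrt (t := t) (by linarith)
  have h2 : Real.log t ≤ 2 * Real.sqrt t := by linarith
  have h3 : Real.sqrt t ^ 2 = t := Real.sq_sqrt (by linarith)
  calc Real.log t ^ 2 ≤ (2 * Real.sqrt t) ^ 2 := pow_le_pow_left₀ h0 h2 2
    _ = 4 * Real.sqrt t ^ 2 := by ring
    _ = 4 * t := by rw [h3]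

lemma b22b_log_two38 : Real.log ((2 : ℝ) ^ 38) ≤ 26.34 := by
  rw [Real.log_pow]
  have := Real.log_two_lt_d9
  push_cast
  linarith

lemma b22b_log_sq_large {t : ℝ} (ht : (2 : ℝ) ^ 38 ≤ t) :
    Real.log t ^ 2 ≤ 694 * (t / 2 ^ 38) := by
  have hp : (0 : ℝ) < 2 ^ 38 := by positivity
  have hτ : 1 ≤ t / 2 ^ 38 := by rw [le_div_iff₀ hp]; linarith
  set τ := t / 2 ^ 38 with hτd
  have hτ0 : 0 < τ := by linarith
  have ht' : t = 2 ^ 38 * τ := by rw [hτd]; field_simp
  have h1 : Real.log t = Real.log ((2 : ℝ) ^ 38) + Real.log τ := by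
    rw [ht', Real.log_mul hp.ne' hτ0.ne']
  have h2 := b22b_log_le_sqrt hτ0
  have h3 := b22b_log_two38
  have h4 : 1 ≤ Real.sqrt τ := by rw [Real.one_le_sqrt]; exact hτ
  have h5 : Real.log t ≤ 26.34 * Real.sqrt τ := by rw [h1]; linarith
  have h0 : 0 ≤ Real.log t := Real.log_nonneg (by
    have : (1 : ℝ) ≤ 2 ^ 38 := by norm_num
    linarith)
  have h6 : Real.sqrt τ ^ 2 = τ := Real.sq_sqrt hτ0.le
  calc Real.log t ^ 2 ≤ (26.34 * Real.sqrt τ) ^ 2 := pow_le_pow_left₀ h0 h5 2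
    _ = 26.34 ^ 2 * Real.sqrt τ ^ 2 := by ring
    _ = 26.34 ^ 2 * τ := by rw [h6]
    _ ≤ 694 * τ := mul_le_mul_of_nonneg_right (by norm_num) hτ0.le

/-- the numerical inequality behind the second condition of `pillai_two` -/
lemma b22b_num {i j e : ℕ} {R : ℝ} (hi : 3 ≤ i) (hj : Odd j) (hji : j < i)
    (h4 : 3 * i ^ 2 ≤ e) (hR : 1600 ≤ R) (hR2 : (e : ℝ) ^ j ≤ 450 * (i + 1) * R) :
    18 * i * j * Real.log e ^ 2 ≤ R ^ 3 := by
  have hi0 : (3 : ℝ) ≤ i := by exact_mod_cast hi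
  have h4r : 3 * (i : ℝ) ^ 2 ≤ e := by exact_mod_cast h4
  have he1 : (27 : ℝ) ≤ e := by nlinarith
  have hje : (j : ℝ) ≤ i := by exact_mod_cast hji.le
  have hj0 : (0 : ℝ) ≤ j := by positivity
  have hL0 : 0 ≤ Real.log e ^ 2 := by positivity
  have hR3 : (1600 : ℝ) ^ 3 ≤ R ^ 3 := pow_le_pow_left₀ (by norm_num) hR 3
  rcases Nat.lt_or_ge j 3 with hj3 | hj3
  · have hj1 : j = 1 := by
      obtain ⟨m, hm⟩ := hj
      omega
    subst hj1
    rw [pow_one] at hR2
    push_cast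
    rw [mul_one]
    rcases le_total (e : ℝ) (2 ^ 38) with hle | hle
    · -- bounded range
      have hlog : Real.log e ≤ 26.34 :=
        (Real.log_le_log (by linarith) hle).trans b22b_log_two38
      have hlog0 : 0 ≤ Real.log e := Real.log_nonneg (by linarith)
      have hlog2 : Real.log e ^ 2 ≤ 694 := by
        calc Real.log e ^ 2 ≤ 26.34 ^ 2 := pow_le_pow_left₀ hlog0 hlog 2
          _ ≤ 694 := by norm_num
      have hib : (i : ℝ) ≤ 302700 := by
        by_contra hcon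
        push Not at hcon
        have : (302700 : ℝ) ^ 2 ≤ (i : ℝ) ^ 2 := pow_le_pow_left₀ (by norm_num) hcon.le 2
        have h5 : 3 * (302700 : ℝ) ^ 2 ≤ 2 ^ 38 := by linarith
        norm_num at h5
      calc 18 * (i : ℝ) * Real.log e ^ 2 ≤ 18 * 302700 * 694 := by
            apply mul_le_mul (by linarith) hlog2 hL0 (by norm_num)
        _ ≤ 1600 ^ 3 := by norm_num
        _ ≤ R ^ 3 := hR3
    · -- large range
      have hlog2 := b22b_log_sq_large hle
      have hs1 : ((i : ℝ) + 1) ^ 2 ≤ 1.0001 * ((e : ℝ) / 3) := by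
        rcases le_total (i : ℝ) 300000 with hcase | hcase
        · have h5 : ((i : ℝ) + 1) ^ 2 ≤ (300001 : ℝ) ^ 2 :=
            pow_le_pow_left₀ (by linarith) (by linarith) 2
          have h6 : (300001 : ℝ) ^ 2 ≤ 1.0001 * ((2 : ℝ) ^ 38 / 3) := by norm_num
          linarith
        · nlinarith
      have hs2 : (i : ℝ) * ((i : ℝ) + 1) ^ 3 ≤ 1.0003 * ((e : ℝ) ^ 2 / 9) := by
        have h5 : (i : ℝ) * ((i : ℝ) + 1) ^ 3 ≤ (((i : ℝ) + 1) ^ 2) ^ 2 := by
          have : (i : ℝ) * ((i : ℝ) + 1) ^ 3 ≤ ((i : ℝ) + 1) * ((i : ℝ) + 1) ^ 3 :=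
            mul_le_mul_of_nonneg_right (by linarith) (by positivity)
          calc (i : ℝ) * ((i : ℝ) + 1) ^ 3 ≤ ((i : ℝ) + 1) * ((i : ℝ) + 1) ^ 3 := this
            _ = (((i : ℝ) + 1) ^ 2) ^ 2 := by ring
        have h6 : (((i : ℝ) + 1) ^ 2) ^ 2 ≤ (1.0001 * ((e : ℝ) / 3)) ^ 2 :=
          pow_le_pow_left₀ (by positivity) hs1 2
        have h7 : (1.0001 * ((e : ℝ) / 3)) ^ 2 ≤ 1.0003 * ((e : ℝ) ^ 2 / 9) := by
          have : 0 ≤ (e : ℝ) ^ 2 := by positivity
          nlinarith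
        linarith
      -- `18 i L^2 (450 (i+1))^3 ≤ e^3`
      have hc : (0 : ℝ) < 450 * (i + 1) := by positivity
      have hkey : 18 * (i : ℝ) * Real.log e ^ 2 * (450 * ((i : ℝ) + 1)) ^ 3 ≤ (e : ℝ) ^ 3 := by
        have e1 : 18 * (i : ℝ) * Real.log e ^ 2 * (450 * ((i : ℝ) + 1)) ^ 3 =
            (18 * 450 ^ 3) * (((i : ℝ) * ((i : ℝ) + 1) ^ 3) * Real.log e ^ 2) := by ring
        have e2 : ((i : ℝ) * ((i : ℝ) + 1) ^ 3) * Real.log e ^ 2 ≤
            (1.0003 * ((e : ℝ) ^ 2 / 9)) * (694 * ((e : ℝ) / 2 ^ 38)) :=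
          mul_le_mul hs2 hlog2 hL0 (by positivity)
        have e3 : (18 * 450 ^ 3 : ℝ) * ((1.0003 * ((e : ℝ) ^ 2 / 9)) * (694 * ((e : ℝ) / 2 ^ 38)))
            = (18 * 450 ^ 3 * 1.0003 * 694 / 9 / 2 ^ 38) * (e : ℝ) ^ 3 := by ring
        have e4 : (18 * 450 ^ 3 * 1.0003 * 694 / 9 / 2 ^ 38 : ℝ) ≤ 1 := by norm_num
        have e5 : (0 : ℝ) ≤ (e : ℝ) ^ 3 := by positivity
        calc 18 * (i : ℝ) * Real.log e ^ 2 * (450 * ((i : ℝ) + 1)) ^ 3
            = (18 * 450 ^ 3) * (((i : ℝ) * ((i : ℝ) + 1) ^ 3) * Real.log e ^ 2) := e1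
          _ ≤ (18 * 450 ^ 3) * ((1.0003 * ((e : ℝ) ^ 2 / 9)) * (694 * ((e : ℝ) / 2 ^ 38))) :=
              mul_le_mul_of_nonneg_left e2 (by positivity)
          _ = (18 * 450 ^ 3 * 1.0003 * 694 / 9 / 2 ^ 38) * (e : ℝ) ^ 3 := e3
          _ ≤ 1 * (e : ℝ) ^ 3 := mul_le_mul_of_nonneg_right e4 e5
          _ = (e : ℝ) ^ 3 := one_mul _
      have hR4 : (e : ℝ) ^ 3 ≤ (450 * ((i : ℝ) + 1)) ^ 3 * R ^ 3 := by
        rw [← mul_pow]
        exact pow_le_pow_left₀ (by linarith) hR2 3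
      have hc3 : (0 : ℝ) < (450 * ((i : ℝ) + 1)) ^ 3 := by positivity
      have := hkey.trans hR4
      rw [mul_comm] at this
      exact le_of_mul_le_mul_left this hc3
  · -- `j ≥ 3`
    have hR0 : 0 ≤ R := by linarith
    have hep : (e : ℝ) ^ 3 ≤ (e : ℝ) ^ j := pow_le_pow_right₀ (by linarith) hj3
    have h5 : (e : ℝ) ^ 3 ≤ 450 * (i + 1) * R := hep.trans hR2
    have hlog2 : Real.log e ^ 2 ≤ 4 * e := b22b_log_sq_le (by linarith)
    have h6 : 18 * (i : ℝ) * j * Real.log e ^ 2 ≤ 6 * e * (4 * e) := by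
      apply mul_le_mul _ hlog2 hL0 (by positivity)
      have : (i : ℝ) * j ≤ i * i := mul_le_mul_of_nonneg_left hje (by linarith)
      nlinarith
    have h7 : (i : ℝ) + 1 ≤ e := by nlinarith
    -- `e^2 ≤ 450 R`
    have h8 : (e : ℝ) ^ 2 ≤ 450 * R := by
      have h9 : (e : ℝ) ^ 3 ≤ 450 * e * R := by
        have : 450 * ((i : ℝ) + 1) * R ≤ 450 * e * R := by
          apply mul_le_mul_of_nonneg_right _ hR0
          linarith
        linarith
      have h10 : (e : ℝ) * e ^ 2 ≤ e * (450 * R) := by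
        calc (e : ℝ) * e ^ 2 = (e : ℝ) ^ 3 := by ring
          _ ≤ 450 * e * R := h9
          _ = e * (450 * R) := by ring
      exact le_of_mul_le_mul_left h10 (by linarith)
    have h11 : 1600 ^ 2 * R ≤ R ^ 3 := by
      have : (1600 : ℝ) ^ 2 ≤ R ^ 2 := pow_le_pow_left₀ (by norm_num) hR 2
      calc 1600 ^ 2 * R ≤ R ^ 2 * R := mul_le_mul_of_nonneg_right this hR0
        _ = R ^ 3 := by ring
    calc 18 * (i : ℝ) * j * Real.log e ^ 2 ≤ 6 * e * (4 * e) := h6
      _ = 24 * (e : ℝ) ^ 2 := by ring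
      _ ≤ 24 * (450 * R) := by linarith
      _ ≤ 1600 ^ 2 * R := by nlinarith
      _ ≤ R ^ 3 := h11

/-- `log (1 + s) ≤ s` in the form used below -/
lemma b22b_log_quot {A B c : ℝ} (hA : 0 < A) (hc : 0 ≤ c) (h : B = A + c) :
    0 ≤ Real.log B - Real.log A ∧ Real.log B - Real.log A ≤ c / A := by
  have hB : 0 < B := by linarith
  have h1 : Real.log A ≤ Real.log B := Real.log_le_log hA (by linarith)
  refine ⟨by linarith, ?_⟩
  rw [← Real.log_div hB.ne' hA.ne']
  have h2 := Real.log_le_sub_one_of_pos (div_pos hB hA)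
  have h3 : B / A - 1 = c / A := by rw [h]; field_simp; ring
  linarith

theorem b22_large {d x y e i j w k l : ℕ} (S : Sys d x y e i j w k l) (hd : Odd d)
    (hx : Odd x) (hx3 : 3 ≤ x) (hy : Odd y) (hk : Even k) (hi : Odd i) (hj : Odd j) (hl : Odd l)
    (hl3 : 3 ≤ l) (hji : j < i) (h1 : 3 * x ^ 2 ≤ d) (h2 : 3 * i ^ 2 ≤ d)
    (h3 : 3 * x ^ 2 ≤ e) (h4 : 3 * i ^ 2 ≤ e) :
    e ^ j < 720100 * (i + 1) ∧ (y : ℝ) < 720000 * Real.log w := by
  -- elementary facts
  have hj1 := S.hj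
  have hk1 := S.hk
  have hy1 := S.hy
  have hji2 : j + 2 ≤ i := by
    obtain ⟨a, ha⟩ := hi
    obtain ⟨b, hb⟩ := hj
    omega
  have hi3 : 3 ≤ i := by omega
  have hd27 : 27 ≤ d := by nlinarith
  have he27 : 27 ≤ e := by nlinarith
  have hwo := S.odd_w hd
  have hw3 : 3 ≤ w := by
    have := S.hw
    obtain ⟨m, hm⟩ := hwo
    omega
  have hdr : (27 : ℝ) ≤ d := by exact_mod_cast hd27
  have her : (27 : ℝ) ≤ e := by exact_mod_cast he27
  have hwr : (3 : ℝ) ≤ w := by exact_mod_cast hw3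
  have hxr : (3 : ℝ) ≤ x := by exact_mod_cast hx3
  have hir : (3 : ℝ) ≤ i := by exact_mod_cast hi3
  have hlr : (3 : ℝ) ≤ l := by exact_mod_cast hl3
  have hjr : (1 : ℝ) ≤ j := by exact_mod_cast hj1
  have hyr : (1 : ℝ) ≤ y := by exact_mod_cast hy1
  have hkr : (1 : ℝ) ≤ k := by exact_mod_cast hk1
  have hji2r : (j : ℝ) + 2 ≤ i := by exact_mod_cast hji2
  have h1r : 3 * (x : ℝ) ^ 2 ≤ d := by exact_mod_cast h1
  have h2r : 3 * (i : ℝ) ^ 2 ≤ d := by exact_mod_cast h2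
  have h4r : 3 * (i : ℝ) ^ 2 ≤ e := by exact_mod_cast h4
  set LD := Real.log d with hLD
  set LE := Real.log e with hLE
  set LW := Real.log w with hLW
  have hLW1 : 1 < LW := by
    rw [hLW, Real.lt_log_iff_exp_lt (by linarith)]
    have := Real.exp_one_lt_d9
    linarith
  have hLE3 : 3 ≤ LE := by
    rw [hLE, Real.le_log_iff_exp_le (by linarith)]
    have h5 : Real.exp 3 = Real.exp 1 ^ 3 := by
      rw [← Real.exp_nat_mul]; norm_num
    have h6 := Real.exp_one_lt_d9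
    rw [h5]
    calc Real.exp 1 ^ 3 ≤ 3 ^ 3 := pow_le_pow_left₀ (Real.exp_pos 1).le (by linarith) 3
      _ = 27 := by norm_num
      _ ≤ e := her
  have hLD0 : 0 ≤ LD := Real.log_nonneg (by linarith)
  -- the three linear forms
  have hdx : (0 : ℝ) < (d : ℝ) ^ x := by positivity
  have hdy : (0 : ℝ) < (d : ℝ) ^ y := by positivity
  have hej : (0 : ℝ) < (e : ℝ) ^ j := by positivity
  have q1 : (e : ℝ) ^ i = (d : ℝ) ^ x + 1 := by exact_mod_cast S.h1.symm
  have q2 : (w : ℝ) ^ l = (e : ℝ) ^ j + 1 := by exact_mod_cast S.h2.symm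
  have q3 : (w : ℝ) ^ k = (d : ℝ) ^ y + 2 := by exact_mod_cast S.h3.symm
  obtain ⟨p1, r1⟩ := b22b_log_quot hdx (by norm_num) q1
  obtain ⟨p2, r2⟩ := b22b_log_quot hej (by norm_num) q2
  obtain ⟨p3, r3⟩ := b22b_log_quot hdy (by norm_num) q3
  rw [Real.log_pow, Real.log_pow, ← hLE, ← hLD] at p1 r1
  rw [Real.log_pow, Real.log_pow, ← hLW, ← hLE] at p2 r2
  rw [Real.log_pow, Real.log_pow, ← hLW, ← hLD] at p3 r3
  have hej27 : (27 : ℝ) ≤ (e : ℝ) ^ j := by
    calc (27 : ℝ) ≤ e := her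
      _ = (e : ℝ) ^ 1 := (pow_one _).symm
      _ ≤ (e : ℝ) ^ j := pow_le_pow_right₀ (by linarith) hj1
  have hdy' : (d : ℝ) ≤ (d : ℝ) ^ y := by
    calc (d : ℝ) = (d : ℝ) ^ 1 := (pow_one _).symm
      _ ≤ (d : ℝ) ^ y := pow_le_pow_right₀ (by linarith) hy1
  have r2' : (l : ℝ) * LW - j * LE ≤ 1 / 27 :=
    r2.trans (one_div_le_one_div_of_le (by norm_num) hej27)
  have r3' : (k : ℝ) * LW - y * LD ≤ 2 / d :=
    r3.trans (div_le_div_of_nonneg_left (by norm_num) (by linarith) hdy')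
  -- the integer `y i l - k j x`
  set Δ : ℤ := (y : ℤ) * i * l - k * j * x with hΔ
  have hΔodd : Odd Δ := by
    rw [hΔ]
    have a1 : Odd ((y : ℤ) * i * l) := by
      exact_mod_cast (hy.mul hi).mul hl
    have a2 : Even ((k : ℤ) * j * x) := by
      have : Even (k * j * x) := (hk.mul_right j).mul_right x
      exact_mod_cast this
    exact a1.sub_even a2
  have hΔ0 : Δ ≠ 0 := by
    rintro h0
    rw [h0] at hΔodd
    exact absurd hΔodd (by decide)
  have hid : (Δ : ℝ) * LE = k * x * (l * LW - j * LE) + y * l * (i * LE - x * LD)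
      - x * l * (k * LW - y * LD) := by
    rw [hΔ]; push_cast; ring
  have hxd : (x : ℝ) * (2 / d) ≤ 2 / 9 := by
    rw [mul_div_assoc', div_le_div_iff₀ (by linarith) (by norm_num)]
    nlinarith
  rcases lt_or_gt_of_ne hΔ0 with hneg | hpos
  · -- `Δ ≤ -1`
    exfalso
    have hΔ1 : (Δ : ℝ) ≤ -1 := by
      have : Δ ≤ -1 := by omega
      exact_mod_cast this
    have g1 : LE ≤ x * l * (k * LW - y * LD) := by
      have a1 : 0 ≤ (k : ℝ) * x * (l * LW - j * LE) := by positivity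
      have a2 : 0 ≤ (y : ℝ) * l * (i * LE - x * LD) := by positivity
      have a3 : (Δ : ℝ) * LE ≤ -1 * LE := mul_le_mul_of_nonneg_right hΔ1 (by linarith)
      linarith
    have g2 : (l : ℝ) ≤ (j + 1) * LE := by
      have : (l : ℝ) * 1 ≤ l * LW := mul_le_mul_of_nonneg_left hLW1.le (by linarith)
      linarith
    have g3 : LE ≤ x * ((j + 1) * LE) * (2 / d) := by
      calc LE ≤ x * l * (k * LW - y * LD) := g1
        _ ≤ x * ((j + 1) * LE) * (2 / d) := by
          apply mul_le_mul _ r3' p3 (by positivity)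
          exact mul_le_mul_of_nonneg_left g2 (by linarith)
    have g4 : 1 ≤ x * (j + 1) * (2 / (d : ℝ)) := by
      have : LE * 1 ≤ LE * (x * (j + 1) * (2 / (d : ℝ))) := by
        calc LE * 1 = LE := mul_one _
          _ ≤ x * ((j + 1) * LE) * (2 / d) := g3
          _ = LE * (x * (j + 1) * (2 / (d : ℝ))) := by ring
      exact le_of_mul_le_mul_left this (by linarith)
    rw [mul_div_assoc', le_div_iff₀ (by linarith), one_mul] at g4
    nlinarith [sq_nonneg ((x : ℝ) - i)]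
  · -- `Δ ≥ 1`
    have hΔ1 : (1 : ℝ) ≤ (Δ : ℝ) := by
      have : 1 ≤ Δ := by omega
      exact_mod_cast this
    -- main inequality
    have hM : LW * (e : ℝ) ^ j ≤ y * (i + 1) := by
      have g1 : LE ≤ k * x * (1 / (e : ℝ) ^ j) + y * l * (1 / (d : ℝ) ^ x) := by
        have a3 : 1 * LE ≤ (Δ : ℝ) * LE := mul_le_mul_of_nonneg_right hΔ1 (by linarith)
        have a1 : (k : ℝ) * x * (l * LW - j * LE) ≤ k * x * (1 / (e : ℝ) ^ j) :=
          mul_le_mul_of_nonneg_left r2 (by positivity)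
        have a2 : (y : ℝ) * l * (i * LE - x * LD) ≤ y * l * (1 / (d : ℝ) ^ x) :=
          mul_le_mul_of_nonneg_left r1 (by positivity)
        have a4 : 0 ≤ (x : ℝ) * l * (k * LW - y * LD) := by positivity
        linarith
      -- multiply by `LW`
      have g2 : (k : ℝ) * x * LW ≤ y * (i * LE) + 2 / 9 := by
        have b1 : (x : ℝ) * (k * LW) ≤ x * (y * LD + 2 / d) :=
          mul_le_mul_of_nonneg_left (by linarith) (by linarith)
        have b2 : (y : ℝ) * (x * LD) ≤ y * (i * LE) :=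
          mul_le_mul_of_nonneg_left (by linarith) (by linarith)
        calc (k : ℝ) * x * LW = x * (k * LW) := by ring
          _ ≤ x * (y * LD + 2 / d) := b1
          _ = y * (x * LD) + x * (2 / d) := by ring
          _ ≤ y * (i * LE) + 2 / 9 := by linarith
      have g3 : (l : ℝ) * LW ≤ (j + 1) * LE := by linarith
      have g4 : LE * LW ≤ (y * (i * LE) + 2 / 9) * (1 / (e : ℝ) ^ j)
          + y * ((j + 1) * LE) * (1 / (d : ℝ) ^ x) := by
        calc LE * LW ≤ (k * x * (1 / (e : ℝ) ^ j) + y * l * (1 / (d : ℝ) ^ x)) * LW :=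
              mul_le_mul_of_nonneg_right g1 (by linarith)
          _ = (k * x * LW) * (1 / (e : ℝ) ^ j) + y * (l * LW) * (1 / (d : ℝ) ^ x) := by ring
          _ ≤ (y * (i * LE) + 2 / 9) * (1 / (e : ℝ) ^ j)
              + y * ((j + 1) * LE) * (1 / (d : ℝ) ^ x) := by
            apply add_le_add
            · exact mul_le_mul_of_nonneg_right g2 (by positivity)
            · apply mul_le_mul_of_nonneg_right _ (by positivity)
              exact mul_le_mul_of_nonneg_left g3 (by linarith)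
      have g5 : LE * LW ≤ LE * ((y * i + 2 / 9) * (1 / (e : ℝ) ^ j)
          + y * (j + 1) * (1 / (d : ℝ) ^ x)) := by
        have c1 : (2 / 9 : ℝ) ≤ LE * (2 / 9) := by linarith
        have c2 : (y * (i * LE) + 2 / 9) * (1 / (e : ℝ) ^ j) ≤
            LE * ((y * i + 2 / 9) * (1 / (e : ℝ) ^ j)) := by
          have : (y : ℝ) * (i * LE) + 2 / 9 ≤ LE * (y * i + 2 / 9) := by linarith
          calc (y * (i * LE) + 2 / 9) * (1 / (e : ℝ) ^ j)
              ≤ (LE * (y * i + 2 / 9)) * (1 / (e : ℝ) ^ j) :=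
                mul_le_mul_of_nonneg_right this (by positivity)
            _ = LE * ((y * i + 2 / 9) * (1 / (e : ℝ) ^ j)) := by ring
        calc LE * LW ≤ (y * (i * LE) + 2 / 9) * (1 / (e : ℝ) ^ j)
              + y * ((j + 1) * LE) * (1 / (d : ℝ) ^ x) := g4
          _ ≤ LE * ((y * i + 2 / 9) * (1 / (e : ℝ) ^ j))
              + y * ((j + 1) * LE) * (1 / (d : ℝ) ^ x) := by linarith
          _ = LE * ((y * i + 2 / 9) * (1 / (e : ℝ) ^ j)
              + y * (j + 1) * (1 / (d : ℝ) ^ x)) := by ring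
      have g6 := le_of_mul_le_mul_left g5 (by linarith)
      -- `(j+1)/d^x ≤ 1/(9 e^j)`
      have g7 : (j + 1) * (1 / (d : ℝ) ^ x) * (e : ℝ) ^ j ≤ 1 / 9 := by
        have c1 : 9 * (i : ℝ) * (e : ℝ) ^ j ≤ (d : ℝ) ^ x := by
          have c2 : (e : ℝ) ^ (j + 2) ≤ (e : ℝ) ^ i := pow_le_pow_right₀ (by linarith) hji2
          have c3 : (e : ℝ) ^ (j + 2) = (e : ℝ) ^ j * (e : ℝ) ^ 2 := pow_add _ _ _
          have c4 : 9 * (i : ℝ) + 1 ≤ (e : ℝ) ^ 2 := by nlinarith
          have c5 : (e : ℝ) ^ j * (9 * (i : ℝ) + 1) ≤ (e : ℝ) ^ j * (e : ℝ) ^ 2 :=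
            mul_le_mul_of_nonneg_left c4 hej.le
          nlinarith
        rw [mul_one_div, div_mul_eq_mul_div, div_le_div_iff₀ hdx (by norm_num)]
        have c6 : ((j : ℝ) + 1) * (e : ℝ) ^ j ≤ i * (e : ℝ) ^ j :=
          mul_le_mul_of_nonneg_right (by linarith) hej.le
        linarith
      calc LW * (e : ℝ) ^ j
          ≤ ((y * i + 2 / 9) * (1 / (e : ℝ) ^ j) + y * (j + 1) * (1 / (d : ℝ) ^ x))
            * (e : ℝ) ^ j := mul_le_mul_of_nonneg_right g6 hej.le
        _ = (y * i + 2 / 9) + y * ((j + 1) * (1 / (d : ℝ) ^ x) * (e : ℝ) ^ j) := by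
            field_simp
        _ ≤ (y * i + 2 / 9) + y * (1 / 9) := by
            have := mul_le_mul_of_nonneg_left g7 (show (0 : ℝ) ≤ y by linarith)
            linarith
        _ ≤ y * (i + 1) := by nlinarith
    -- second claim
    have hsec : (y : ℝ) < 720000 * LW := by
      by_contra hcon
      push Not at hcon
      have hR0 : (0 : ℝ) < 450 * LW := by linarith
      have hR : 1600 ≤ (y : ℝ) / (450 * LW) := by
        rw [le_div_iff₀ hR0]; linarith
      have hR2 : (e : ℝ) ^ j ≤ 450 * (i + 1) * ((y : ℝ) / (450 * LW)) := by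
        rw [mul_div_assoc', le_div_iff₀ hR0]
        nlinarith
      have hnum := b22b_num hi3 hj hji h4 hR hR2
      rw [← hLE] at hnum
      have hLDb : LD ≤ i * LE / 3 := by
        have : 3 * LD ≤ x * LD := mul_le_mul_of_nonneg_right hxr hLD0
        linarith
      have hLWb : LW ≤ j * LE * (82 / 243) := by
        have a1 : 3 * LW ≤ l * LW := mul_le_mul_of_nonneg_right hlr (by linarith)
        have a2 : LE ≤ j * LE := by
          have := mul_le_mul_of_nonneg_right hjr (show 0 ≤ LE by linarith)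
          linarith
        linarith
      have hfin : 160 * (LW * LD) ≤ ((y : ℝ) / (450 * LW)) ^ 3 := by
        calc 160 * (LW * LD) ≤ 160 * ((j * LE * (82 / 243)) * (i * LE / 3)) := by
              apply mul_le_mul_of_nonneg_left _ (by norm_num)
              exact mul_le_mul hLWb hLDb hLD0 (by positivity)
          _ = (160 * 82 / 729) * (i * j * LE ^ 2) := by ring
          _ ≤ 18 * (i * j * LE ^ 2) := mul_le_mul_of_nonneg_right (by norm_num) (by positivity)
          _ = 18 * i * j * LE ^ 2 := by ring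
          _ ≤ ((y : ℝ) / (450 * LW)) ^ 3 := hnum
      exact pillai_two (a := w) (b := d) (u := k) (v := y) hw3 (by omega) hk1 hy1
        S.h3.symm hcon hfin
    refine ⟨?_, hsec⟩
    have hlt : (e : ℝ) ^ j < 720100 * (i + 1) := by
      have a1 : LW * (e : ℝ) ^ j < LW * (720000 * (i + 1)) := by
        calc LW * (e : ℝ) ^ j ≤ y * (i + 1) := hM
          _ < (720000 * LW) * (i + 1) := mul_lt_mul_of_pos_right hsec (by linarith)
          _ = LW * (720000 * (i + 1)) := by ring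
      have a2 := lt_of_mul_lt_mul_left a1 (by linarith)
      nlinarith
    exact_mod_cast hlt

end Pool.Agent.Lib.MP_545343_nt.Q2
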